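import Pool.Agent.H77.PT.Rhc
import Pool.Agent.H77.PT.Lia
import Pool.Agent.H77.PT.Trv

/-!
# H77-S0T-SM2: the part with many small primes, with a factor `1 / (1 + log Y)` (MP_b39724_nt); compare H77/PT/Sma.lean
-/

set_option autoImplicit false

open scoped NumberField
open IsDedekindDomain
open scoped Classical

noncomputable section

namespace H77.S0T

open H63.MA H38.BB H38.BG H57.PC H51.CUB H77.PC3 H77.PT

variable {K : Type} [Field K] [NumberField K] {p : ℕ} {ζ : K} {D : RD0 K p ζ} {Ω : Type}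
  [Field Ω] [Algebra K Ω] [IsAlgClosure K Ω] {m l w N : ℕ} {P R : Type} [Group P] [Group R]

private theorem sma2_om {N : ℕ} (I : Finset (Fin N)) (S : Finset (Fin N × Bool)) :
    0 ≤ om0 I S ∧ om0 I S ≤ 1 := by
  unfold om0
  split_ifs
  · exact ⟨zero_le_one, le_rfl⟩
  · exact ⟨le_rfl, zero_le_one⟩

private theorem sma2_wl (x : ℝ) : 0 ≤ wl x ∧ wl x ≤ 1 := by
  unfold wl
  exact ⟨le_max_left _ _, max_le zero_le_one (min_le_left _ _)⟩

private theorem sma2_card {N : ℕ} (h : Fin N × Bool → Finset (Pl K)) :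
    ∑ i, (h (i, false)).card ≤ ∑ a, (h a).card := by
  rw [Fintype.sum_prod_type]
  apply Finset.sum_le_sum
  intro i _
  rw [Fintype.sum_bool]
  omega

theorem sma2 [NeZero p] [Finite P] [Finite R] (hp : p.Prime) (hζ : IsPrimitiveRoot ζ p)
    (L : LDs D Ω) (Fr : FR L) (Dg : GP p m l w N P R) (I : Finset (Fin N)) :
    ∃ A C Y₀ : ℝ, 1 ≤ A ∧ 0 < C ∧ 3 ≤ Y₀ ∧ ∀ Y : ℝ, Y₀ ≤ Y → ∀ (k : ℕ) (E : Finset (Pl K))
      (b : Fin m → Kˣ) (ε : Pl K → Gal(Ω/K) → R),
      (∑ h ∈ Fintype.piFinset (fun _ : Fin N × Bool => GF D (2 * Y)),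
        if (Wc D (UW N Y k I) E Y h ∧ SpR Dg.cr b (clw (UW N Y k I) h)) ∧
            A * Real.log (Real.log Y) < ((∑ i, (h (i, false)).card : ℕ) : ℝ) then
          om0 I (spt h) * wl ((∏ a, nr (h a)) / Y) *
            ∑ ρ ∈ RHf L Dg b E ε (clw (UW N Y k I) h),
              ∏ a, ∏ v ∈ h a, phi Dg (VI Dg I) a (cq Dg Fr ρ v)
        else 0) ≤ C * Y / (1 + Real.log Y) := by
  obtain ⟨C, hC1, hC⟩ := ps_le hp hζ L Fr Dg
  have he3 : Real.exp 1 < 3 := by
    have := Real.exp_one_lt_d9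
    linarith
  rcases Nat.eq_zero_or_pos N with hN | hN
  · subst hN
    refine ⟨1, 1, 3, le_rfl, one_pos, le_rfl, fun Y hY k E b ε => ?_⟩
    have h1 : 1 < Real.log Y := (Real.lt_log_iff_exp_lt (by linarith)).2 (by linarith)
    have h2 : 0 < Real.log (Real.log Y) := Real.log_pos h1
    rw [Finset.sum_eq_zero]
    · positivity
    · intro h _
      rw [if_neg]
      rintro ⟨-, hc⟩
      rw [Finset.univ_eq_empty, Finset.sum_empty, Nat.cast_zero] at hc
      linarith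
  · haveI : Nonempty (Fin N × Bool) := ⟨(⟨0, hN⟩, true)⟩
    obtain ⟨k₀, hk₀⟩ : ∃ k₀ : ℕ, 3 * C ≤ (k₀ : ℝ) := ⟨⌈3 * C⌉₊, Nat.le_ceil _⟩
    have hk₁ : 1 ≤ k₀ := by
      have : (1 : ℝ) ≤ (k₀ : ℝ) := by linarith
      exact_mod_cast this
    obtain ⟨C₁, hC₁, B₁, hB₁⟩ := trv D (Fin N × Bool) k₀ hk₁
    refine ⟨(B₁ : ℝ) + 1, 4 * C * C₁ * 3 ^ B₁, 3, ?_, by positivity, le_rfl,
      fun Y hY k E b ε => ?_⟩
    · have : (0 : ℝ) ≤ (B₁ : ℝ) := Nat.cast_nonneg _
      linarith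
    have hlY : 1 < Real.log Y := (Real.lt_log_iff_exp_lt (by linarith)).2 (by linarith)
    have hlY0 : 0 < Real.log Y := by linarith
    set x := Real.log (Real.log Y) with hx
    have hx0 : 0 < x := Real.log_pos hlY
    have hterm : ∀ h ∈ Fintype.piFinset (fun _ : Fin N × Bool => GF D (2 * Y)),
        (if (Wc D (UW N Y k I) E Y h ∧ SpR Dg.cr b (clw (UW N Y k I) h)) ∧
            ((B₁ : ℝ) + 1) * x < ((∑ i, (h (i, false)).card : ℕ) : ℝ) then
          om0 I (spt h) * wl ((∏ a, nr (h a)) / Y) *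
            ∑ ρ ∈ RHf L Dg b E ε (clw (UW N Y k I) h),
              ∏ a, ∏ v ∈ h a, phi Dg (VI Dg I) a (cq Dg Fr ρ v)
        else 0) ≤ C * Real.exp (-(((B₁ : ℝ) + 1) * x)) *
          (if Dj h ∧ ∏ a, nr (h a) ≤ 2 * Y then (k₀ : ℝ) ^ (∑ a, (h a).card) else 0) := by
      intro h _
      by_cases hc : (Wc D (UW N Y k I) E Y h ∧ SpR Dg.cr b (clw (UW N Y k I) h)) ∧
            ((B₁ : ℝ) + 1) * x < ((∑ i, (h (i, false)).card : ℕ) : ℝ)
      · rw [if_pos hc]
        obtain ⟨⟨⟨hDj, hE, hpr, hw⟩, hsp⟩, hbig⟩ := hc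
        rw [if_pos ⟨hDj, hpr⟩]
        set S := ∑ ρ ∈ RHf L Dg b E ε (clw (UW N Y k I) h),
              ∏ a, ∏ v ∈ h a, phi Dg (VI Dg I) a (cq Dg Fr ρ v) with hSdef
        have hS0 : 0 ≤ S := Finset.sum_nonneg fun ρ _ => Finset.prod_nonneg fun a _ =>
          Finset.prod_nonneg fun v _ => phi_nonneg Dg _ a _
        have hS : S ≤ C * C ^ (∑ a, (h a).card) :=
          hC (UW N Y k I) (fun _ => rfl) (VI Dg I) b E ε h
        have ho : 0 ≤ om0 I (spt h) ∧ om0 I (spt h) ≤ 1 := sma2_om I (spt h)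
        have hw1 := sma2_wl ((∏ a, nr (h a)) / Y)
        have hn : (((∑ i, (h (i, false)).card : ℕ) : ℝ)) ≤ ((∑ a, (h a).card : ℕ) : ℝ) := by
          exact_mod_cast sma2_card h
        have h6 : Real.exp (((B₁ : ℝ) + 1) * x) ≤ Real.exp 1 ^ (∑ a, (h a).card) := by
          rw [← Real.exp_nat_mul]
          apply Real.exp_le_exp.2
          rw [mul_one]
          linarith
        have h4 : C * Real.exp 1 ≤ (k₀ : ℝ) := by nlinarith
        have h5 : (C * Real.exp 1) ^ (∑ a, (h a).card) ≤ (k₀ : ℝ) ^ (∑ a, (h a).card) :=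
          pow_le_pow_left₀ (by positivity) h4 _
        rw [mul_pow] at h5
        have hCn : 0 < C ^ (∑ a, (h a).card) := by positivity
        have h7 : C ^ (∑ a, (h a).card) ≤
            Real.exp (-(((B₁ : ℝ) + 1) * x)) * (k₀ : ℝ) ^ (∑ a, (h a).card) := by
          have h8 : C ^ (∑ a, (h a).card) * Real.exp (((B₁ : ℝ) + 1) * x) ≤
              (k₀ : ℝ) ^ (∑ a, (h a).card) :=
            (mul_le_mul_of_nonneg_left h6 hCn.le).trans h5
          have h9 := mul_le_mul_of_nonneg_left h8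
            (Real.exp_pos (-(((B₁ : ℝ) + 1) * x))).le
          have h10 : Real.exp (-(((B₁ : ℝ) + 1) * x)) *
              (C ^ (∑ a, (h a).card) * Real.exp (((B₁ : ℝ) + 1) * x)) =
              C ^ (∑ a, (h a).card) := by
            have h11 : Real.exp (-(((B₁ : ℝ) + 1) * x)) * Real.exp (((B₁ : ℝ) + 1) * x) = 1 := by
              rw [← Real.exp_add, neg_add_cancel, Real.exp_zero]
            linear_combination (C ^ (∑ a, (h a).card)) * h11
          rw [h10] at h9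
          exact h9
        calc om0 I (spt h) * wl ((∏ a, nr (h a)) / Y) * S ≤ 1 * S :=
              mul_le_mul_of_nonneg_right (mul_le_one₀ ho.2 hw1.1 hw1.2) hS0
          _ = S := one_mul S
          _ ≤ C * C ^ (∑ a, (h a).card) := hS
          _ ≤ C * (Real.exp (-(((B₁ : ℝ) + 1) * x)) * (k₀ : ℝ) ^ (∑ a, (h a).card)) :=
              mul_le_mul_of_nonneg_left h7 (by linarith)
          _ = _ := by ring
      · rw [if_neg hc]
        have : 0 ≤ (if Dj h ∧ ∏ a, nr (h a) ≤ 2 * Y then (k₀ : ℝ) ^ (∑ a, (h a).card) else 0) := by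
          split_ifs
          · positivity
          · exact le_rfl
        exact mul_nonneg (mul_nonneg (by linarith) (Real.exp_pos _).le) this
    have hexp : Real.exp (((B₁ : ℝ) + 1) * x) = Real.log Y ^ (B₁ + 1) := by
      have h1 := Real.exp_nat_mul x (B₁ + 1)
      push_cast at h1
      rw [h1, hx, Real.exp_log hlY0]
    have hlog : 1 + Real.log (2 * Y) ≤ 3 * Real.log Y := by
      rw [Real.log_mul (by norm_num) (by linarith)]
      have := Real.log_two_lt_d9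
      linarith
    have hlog0 : 0 ≤ 1 + Real.log (2 * Y) := by
      have := Real.log_nonneg (show (1 : ℝ) ≤ 2 * Y by linarith)
      linarith
    have hpw : (1 + Real.log (2 * Y)) ^ B₁ ≤ 3 ^ B₁ * Real.log Y ^ B₁ := by
      calc (1 + Real.log (2 * Y)) ^ B₁ ≤ (3 * Real.log Y) ^ B₁ := pow_le_pow_left₀ hlog0 hlog _
        _ = 3 ^ B₁ * Real.log Y ^ B₁ := mul_pow _ _ _
    have hP : 0 < Real.log Y ^ (B₁ + 1) := by positivity
    have hC0 : 0 < C := by linarith
    have hC₁0 : 0 < C₁ := by linarith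
    have hY0 : 0 < Y := by linarith
    have hB2 : (∑ h ∈ Fintype.piFinset (fun _ : Fin N × Bool => GF D (2 * Y)),
          if Dj h ∧ ∏ a, nr (h a) ≤ 2 * Y then (k₀ : ℝ) ^ (∑ a, (h a).card) else 0) ≤
        C₁ * (2 * Y) * (1 + Real.log (2 * Y)) ^ B₁ := by
      refine (le_of_eq (Finset.sum_congr ?_ fun _ _ => rfl)).trans
        (hB₁ (2 * Y) (2 * Y) (by linarith) le_rfl)
      ext g
      simp only [Fintype.mem_piFinset]
    refine (Finset.sum_le_sum hterm).trans ?_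
    rw [← Finset.mul_sum, Real.exp_neg, hexp]
    calc C * (Real.log Y ^ (B₁ + 1))⁻¹ *
          (∑ h ∈ Fintype.piFinset (fun _ : Fin N × Bool => GF D (2 * Y)),
            if Dj h ∧ ∏ a, nr (h a) ≤ 2 * Y then (k₀ : ℝ) ^ (∑ a, (h a).card) else 0)
        ≤ C * (Real.log Y ^ (B₁ + 1))⁻¹ * (C₁ * (2 * Y) * (1 + Real.log (2 * Y)) ^ B₁) :=
          mul_le_mul_of_nonneg_left hB2 (by positivity)
      _ ≤ C * (Real.log Y ^ (B₁ + 1))⁻¹ * (C₁ * (2 * Y) * (3 ^ B₁ * Real.log Y ^ B₁)) :=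
          mul_le_mul_of_nonneg_left (mul_le_mul_of_nonneg_left hpw (by positivity))
            (by positivity)
      _ = 2 * C * C₁ * 3 ^ B₁ * Y / Real.log Y := by
          have hne : Real.log Y ≠ 0 := hlY0.ne'
          rw [pow_succ]
          field_simp
      _ ≤ 4 * C * C₁ * 3 ^ B₁ * Y / (1 + Real.log Y) := by
          rw [div_le_div_iff₀ hlY0 (by linarith)]
          have hz : 0 ≤ C * C₁ * 3 ^ B₁ * Y := by positivity
          nlinarith

end H77.S0T
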