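import Pool.Agent.H77.PT.Smb
import Pool.Agent.H77.PT.Inn
import Pool.Agent.H77.PT.Trv
import Pool.Agent.H77.PT.Lia

/-!
# H77-S0T-SM3: the part with few small primes, with the factor `(1 + log log Y) ^ B / (1 + log Y)` (MP_b39724_nt); compare H77/PT/Smb.lean
-/

set_option autoImplicit false

open scoped NumberField
open IsDedekindDomain
open scoped Classical

noncomputable section

namespace H77.S0T

open H63.MA H38.BB H38.BG H57.PC H51.CUB H77.PC3 H77.PT

variable {K : Type} [Field K] [NumberField K] {p : ℕ} {ζ : K} {Ω : Type}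
  [Field Ω] [Algebra K Ω] [IsAlgClosure K Ω] {m l w N : ℕ} {P R : Type} [Group P] [Group R]

private theorem sm3_poly (A : ℝ) (hA : 1 ≤ A) (B e B' : ℕ) (x : ℝ) (hx : 1 ≤ x) :
    (1 + x) ^ B * (1 + A * x ^ e) ^ B' ≤ (2 * A) ^ B' * (1 + x) ^ (B + e * B') := by
  have hxe : 1 ≤ (1 + x) ^ e := one_le_pow₀ (by linarith)
  have hx1 : x ^ e ≤ (1 + x) ^ e := pow_le_pow_left₀ (by linarith) (by linarith) e
  have h2 : (1 + A * x ^ e) ^ B' ≤ (2 * A * (1 + x) ^ e) ^ B' := by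
    refine pow_le_pow_left₀ (by positivity) ?_ B'
    nlinarith
  calc (1 + x) ^ B * (1 + A * x ^ e) ^ B' ≤ (1 + x) ^ B * (2 * A * (1 + x) ^ e) ^ B' :=
        mul_le_mul_of_nonneg_left h2 (by positivity)
    _ = _ := by
        rw [mul_pow (2 * A), ← pow_mul, pow_add]
        ring

theorem smb2 [NeZero p] [Finite P] [Finite R] (hp : p.Prime) (hp2 : MOne p K)
    (hζ : IsPrimitiveRoot ζ p) (D : RD K p ζ) (L : LDs D.toRD0 Ω) (Fr : FR L)
    (Dg : GP p m l w N P R) (I : Finset (Fin N)) (hI : I ≠ Finset.univ) (k : ℕ) (A : ℝ)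
    (hA : 1 ≤ A) :
    ∃ (C Y₀ : ℝ) (B : ℕ), 0 < C ∧ 3 ≤ Y₀ ∧ ∀ Y : ℝ, Y₀ ≤ Y → ∀ (E : Finset (Pl K)) (b : Fin m → Kˣ),
      BS2 D.toRD0 b E → nr E ≤ thr Y 0 → ∀ ε : Pl K → Gal(Ω/K) → R,
      (∑ h ∈ Fintype.piFinset (fun _ : Fin N × Bool => GF D.toRD0 (2 * Y)),
        if (Wc D.toRD0 (UW N Y k I) E Y h ∧ SpR Dg.cr b (clw (UW N Y k I) h)) ∧
            ¬ A * Real.log (Real.log Y) < ((∑ i, (h (i, false)).card : ℕ) : ℝ) then
          om0 I (spt h) * wl ((∏ a, nr (h a)) / Y) *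
            ∑ ρ ∈ RHf L Dg b E ε (clw (UW N Y k I) h),
              ∏ a, ∏ v ∈ h a, phi Dg (VI Dg I) a (cq Dg Fr ρ v)
        else 0) ≤ C * Y * (1 + Real.log Y) ^ (N - 1) *
          ((1 + Real.log (Real.log Y)) ^ B / (1 + Real.log Y)) := by
  obtain ⟨Z, hZ⟩ := zex hp Dg I
  obtain ⟨C₁, hC₁, hpwb⟩ := pwb hp hζ L Fr Dg I Z hZ
  obtain ⟨C₂, Y₂, hC₂, hY₂, B₂, hinn⟩ := inn hp hp2 hζ D L Fr Dg I hI Z hZ k A hA
  obtain ⟨C₃, hC₃, hph⟩ := phf_card hp hζ L Dg I Z
  obtain ⟨k₁, hk₁⟩ : ∃ k₁ : ℕ, k₁ = ⌈C₁ * C₃⌉₊ := ⟨_, rfl⟩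
  have hC13 : 1 ≤ C₁ * C₃ := one_le_mul_of_one_le_of_one_le hC₁ hC₃
  have hk₁C : C₁ * C₃ ≤ k₁ := by rw [hk₁]; exact Nat.le_ceil _
  have hk₁1 : 1 ≤ k₁ := by exact_mod_cast hC13.trans hk₁C
  obtain ⟨C₄, hC₄, B₄, hesm⟩ := esm K (Fin N) k₁ hk₁1
  have hpoly := sm3_poly A hA B₂ (5 * k + 9) B₄
  obtain ⟨C₅, hC5⟩ : ∃ C₅ : ℝ, C₅ = (2 * A) ^ B₄ := ⟨_, rfl⟩
  have hC₅ : 0 < C₅ := by
    rw [hC5]
    positivity
  refine ⟨C₁ * C₃ * C₂ * C₄ * C₅, max Y₂ (Real.exp (Real.exp 1)), B₂ + (5 * k + 9) * B₄,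
    by positivity,
    hY₂.trans (le_max_left _ _), ?_⟩
  intro Y hY E b hb hE ε
  have hYY₂ : Y₂ ≤ Y := (le_max_left _ _).trans hY
  have hYe : Real.exp (Real.exp 1) ≤ Y := (le_max_right _ _).trans hY
  have hY0 : 0 < Y := (Real.exp_pos _).trans_le hYe
  have hlogY : Real.exp 1 ≤ Real.log Y := by
    rw [Real.le_log_iff_exp_le hY0]
    exact hYe
  have hlogY0 : 0 < Real.log Y := (Real.exp_pos _).trans_le hlogY
  obtain ⟨x, hx⟩ : ∃ x, x = Real.log (Real.log Y) := ⟨_, rfl⟩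
  have hx1 : 1 ≤ x := by
    rw [hx, Real.le_log_iff_exp_le hlogY0]
    exact hlogY
  have hexpx : Real.exp x = Real.log Y := by rw [hx, Real.exp_log hlogY0]
  have hthr : thr Y k ≤ thr Y (k + 1) := by
    unfold thr
    rw [← hx]
    exact Real.exp_le_exp.2 (pow_le_pow_right₀ hx1 (by omega))
  -- the two conditions
  obtain ⟨Q, hQ⟩ : ∃ Q : (Fin N → Finset (Pl K)) → Prop, Q = fun n =>
      ((∑ i, (n i).card : ℕ) : ℝ) ≤ A * x ∧ (∀ i, i ∉ I → ∀ v ∈ n i, (nm v : ℝ) ≤ thr Y k) ∧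
        ∀ i, ∀ v ∈ n i, (nm v : ℝ) ≤ thr Y (k + 1) := ⟨_, rfl⟩
  obtain ⟨T, hT⟩ : ∃ T : (Fin N → Finset (Pl K)) → (Fin N → Finset (Pl K)) → ℝ, T = fun n g =>
      ∑ r ∈ PHf L Dg I Z b E ε n,
        if Lc I (E ∪ Finset.univ.biUnion n) (thr Y (k + 1)) (2 * Y / ∏ i, nr (n i)) g then
          ∏ i, ∏ v ∈ g i, fx (C2 Dg I i) (r (Fr.F v) *
            Z (Multiplicative.ofAdd (tv D.toRD0 g v))) else 0 := ⟨_, rfl⟩
  have hT0 : ∀ n g, 0 ≤ T n g := by
    intro n g
    rw [hT]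
    refine Finset.sum_nonneg fun r _ => ?_
    split_ifs
    · exact Finset.prod_nonneg fun i _ => Finset.prod_nonneg fun v _ => Nat.cast_nonneg _
    · exact le_rfl
  have hC₁0 : 0 < C₁ := by linarith
  have hC₂0 : 0 < C₂ := by linarith
  have hC₃0 : 0 < C₃ := by linarith
  have hC₄0 : 0 < C₄ := by linarith
  -- the pointwise bound
  have hpt : ∀ n ∈ Fintype.piFinset (fun _ : Fin N => GF D.toRD0 (2 * Y)),
      ∀ g ∈ Fintype.piFinset (fun _ : Fin N => GF D.toRD0 (2 * Y)),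
      (if (Wc D.toRD0 (UW N Y k I) E Y (pr2 n g) ∧ SpR Dg.cr b (clw (UW N Y k I) (pr2 n g))) ∧
            ¬ A * Real.log (Real.log Y) < ((∑ i, ((pr2 n g) (i, false)).card : ℕ) : ℝ) then
          om0 I (spt (pr2 n g)) * wl ((∏ a, nr (pr2 n g a)) / Y) *
            ∑ ρ ∈ RHf L Dg b E ε (clw (UW N Y k I) (pr2 n g)),
              ∏ a, ∏ v ∈ pr2 n g a, phi Dg (VI Dg I) a (cq Dg Fr ρ v)
        else 0) ≤
      if Q n then C₁ * C₁ ^ (∑ i, (n i).card) * T n g else 0 := by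
    intro n hn g hg
    have hR0 : 0 ≤ if Q n then C₁ * C₁ ^ (∑ i, (n i).card) * T n g else 0 := by
      split_ifs
      · exact mul_nonneg (by positivity) (hT0 n g)
      · exact le_rfl
    by_cases hc : (Wc D.toRD0 (UW N Y k I) E Y (pr2 n g) ∧
        SpR Dg.cr b (clw (UW N Y k I) (pr2 n g))) ∧
          ¬ A * Real.log (Real.log Y) < ((∑ i, ((pr2 n g) (i, false)).card : ℕ) : ℝ)
    swap
    · rw [if_neg hc]
      exact hR0
    rw [if_pos hc]
    by_cases hom : ∀ i, i ∈ I ↔ (i, true) ∈ spt (pr2 n g)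
    swap
    · have h1 : om0 I (spt (pr2 n g)) = 0 := by
        unfold om0
        rw [if_neg hom]
      rw [h1, zero_mul, zero_mul]
      exact hR0
    obtain ⟨⟨⟨hdj, hdE, hprod, hwin⟩, hsp⟩, hA'⟩ := hc
    have hom1 : om0 I (spt (pr2 n g)) = 1 := by
      unfold om0
      rw [if_pos hom]
    have hgI : ∀ i, i ∈ I ↔ g i ≠ ∅ := by
      intro i
      rw [hom i]
      unfold spt
      rw [Finset.mem_filter]
      exact ⟨fun h => h.2, fun h => ⟨Finset.mem_univ _, h⟩⟩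
    have hS : ∀ a, ∀ v ∈ pr2 n g a, v ∉ D.toRD0.S0 := by
      rintro ⟨i, t⟩ v hv
      cases t
      · exact ((atupa_mem_GF.1 (Fintype.mem_piFinset.1 hn i)).2 v hv).1
      · exact ((atupa_mem_GF.1 (Fintype.mem_piFinset.1 hg i)).2 v hv).1
    have hprod2 : ∏ a, nr (pr2 n g a) = (∏ i, nr (g i)) * ∏ i, nr (n i) := by
      rw [Fintype.prod_prod_type, ← Finset.prod_mul_distrib]
      refine Finset.prod_congr rfl fun i _ => ?_
      rw [Fintype.prod_bool]
      rfl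
    have hn1 : 1 ≤ ∏ i, nr (n i) := Finset.one_le_prod fun i _ => one_le_nr _
    have hLc : Lc I (E ∪ Finset.univ.biUnion n) (thr Y (k + 1)) (2 * Y / ∏ i, nr (n i)) g := by
      refine ⟨fun i j hij => ?_, fun i => ?_, ?_, hgI, fun i v hv => ?_⟩
      · exact hdj (i, true) (j, true) fun h => hij (Prod.mk.inj h).1
      · rw [Finset.disjoint_union_right]
        refine ⟨hdE (i, true), ?_⟩
        rw [Finset.disjoint_biUnion_right]
        intro j _
        exact hdj (i, true) (j, false) fun h => Bool.noConfusion (Prod.mk.inj h).2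
      · rw [le_div_iff₀ (by linarith), ← hprod2]
        exact hprod
      · exact (hwin (i, true) v hv).1
    have hQn : Q n := by
      rw [hQ]
      refine ⟨?_, fun i hi v hv => ?_, fun i v hv => ?_⟩
      · rw [hx]
        exact not_lt.1 hA'
      · have h1 := (hwin (i, false) v hv).2
        have h2 : (UW N Y k I).hi (i, false) = thr Y k := by
          simp [PT.UW, hi]
        rwa [h2] at h1
      · have h1 := (hwin (i, false) v hv).2
        refine h1.trans ?_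
        by_cases hi : i ∈ I
        · have h2 : (UW N Y k I).hi (i, false) = thr Y (k + 1) := by
            simp [PT.UW, hi]
          rw [h2]
        · have h2 : (UW N Y k I).hi (i, false) = thr Y k := by
            simp [PT.UW, hi]
          rw [h2]
          exact hthr
    rw [if_pos hQn]
    have hmain := hpwb (UW N Y k I) (fun a => rfl) b E hb ε (pr2 n g) hdj hdE hS
      (fun i hi => by
        by_contra h
        exact hi ((hgI i).2 h)) hsp
    have hT' : T n g = ∑ r ∈ PHf L Dg I Z b E ε n, ∏ i, ∏ v ∈ g i, fx (C2 Dg I i) (r (Fr.F v) *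
            Z (Multiplicative.ofAdd (tv D.toRD0 g v))) := by
      rw [hT]
      exact Finset.sum_congr rfl fun r _ => if_pos hLc
    rw [hT', hom1, one_mul]
    have hρ0 : 0 ≤ ∑ ρ ∈ RHf L Dg b E ε (clw (UW N Y k I) (pr2 n g)),
        ∏ a, ∏ v ∈ pr2 n g a, phi Dg (VI Dg I) a (cq Dg Fr ρ v) :=
      Finset.sum_nonneg fun ρ _ => Finset.prod_nonneg fun a _ => Finset.prod_nonneg fun v _ =>
        phi_nonneg _ _ _ _
    have hwl : wl ((∏ a, nr (pr2 n g a)) / Y) ≤ 1 := max_le zero_le_one (min_le_left _ _)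
    calc wl ((∏ a, nr (pr2 n g a)) / Y) * ∑ ρ ∈ RHf L Dg b E ε (clw (UW N Y k I) (pr2 n g)),
        ∏ a, ∏ v ∈ pr2 n g a, phi Dg (VI Dg I) a (cq Dg Fr ρ v)
        ≤ 1 * ∑ ρ ∈ RHf L Dg b E ε (clw (UW N Y k I) (pr2 n g)),
          ∏ a, ∏ v ∈ pr2 n g a, phi Dg (VI Dg I) a (cq Dg Fr ρ v) :=
          mul_le_mul_of_nonneg_right hwl hρ0
      _ ≤ _ := by
        rw [one_mul]
        exact hmain
  -- the sum over the large parts
  obtain ⟨M, hM⟩ : ∃ M : ℝ, M = C₂ * (1 + x) ^ B₂ * Y * (1 + Real.log Y) ^ (N - 1) /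
      (1 + Real.log Y) := ⟨_, rfl⟩
  have hM0 : 0 ≤ M := by
    rw [hM]
    have : 0 ≤ 1 + x := by linarith
    have : 0 ≤ 1 + Real.log Y := by linarith
    positivity
  have hsg : ∀ n ∈ Fintype.piFinset (fun _ : Fin N => GF D.toRD0 (2 * Y)), Q n →
      ∑ g ∈ Fintype.piFinset (fun _ : Fin N => GF D.toRD0 (2 * Y)), T n g ≤
        C₃ * C₃ ^ (∑ i, (n i).card) * (M / ∏ i, nr (n i)) := by
    intro n hn hq
    have hnS : ∀ i, ∀ v ∈ n i, v ∉ D.toRD0.S0 := fun i v hv =>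
      ((atupa_mem_GF.1 (Fintype.mem_piFinset.1 hn i)).2 v hv).1
    have hn1 : 1 ≤ ∏ i, nr (n i) := Finset.one_le_prod fun i _ => one_le_nr _
    rw [hQ] at hq
    obtain ⟨hq1, hq2, -⟩ := hq
    rw [hT]
    show ∑ g ∈ Fintype.piFinset (fun _ : Fin N => GF D.toRD0 (2 * Y)),
      ∑ r ∈ PHf L Dg I Z b E ε n, _ ≤ _
    rw [Finset.sum_comm]
    have h1 : ∀ r ∈ PHf L Dg I Z b E ε n,
        (∑ g ∈ Fintype.piFinset (fun _ : Fin N => GF D.toRD0 (2 * Y)),
          if Lc I (E ∪ Finset.univ.biUnion n) (thr Y (k + 1)) (2 * Y / ∏ i, nr (n i)) g then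
            ∏ i, ∏ v ∈ g i, fx (C2 Dg I i) (r (Fr.F v) *
              Z (Multiplicative.ofAdd (tv D.toRD0 g v))) else 0) ≤ M / ∏ i, nr (n i) := by
      intro r hr
      refine (hinn Y hYY₂ b E hE ε n hnS hq2 (by rw [← hx]; exact hq1) r
        ((mem_PHf hp hζ L Dg I Z b E ε n hnS r).1 hr)).trans (le_of_eq ?_)
      rw [hM, ← hx]
      ring
    refine (Finset.sum_le_card_nsmul _ _ _ h1).trans ?_
    rw [nsmul_eq_mul]
    exact mul_le_mul_of_nonneg_right (hph b E ε n hnS) (by positivity)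
  rw [spl]
  calc _ ≤ ∑ n ∈ Fintype.piFinset (fun _ : Fin N => GF D.toRD0 (2 * Y)),
        ∑ g ∈ Fintype.piFinset (fun _ : Fin N => GF D.toRD0 (2 * Y)),
          (if Q n then C₁ * C₁ ^ (∑ i, (n i).card) * T n g else 0) :=
        Finset.sum_le_sum fun n hn => Finset.sum_le_sum fun g hg => hpt n hn g hg
    _ ≤ ∑ n ∈ Fintype.piFinset (fun _ : Fin N => GF D.toRD0 (2 * Y)),
        (if Q n then C₁ * C₃ * M * ((k₁ : ℝ) ^ (∑ i, (n i).card) / ∏ i, nr (n i)) else 0) := by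
        refine Finset.sum_le_sum fun n hn => ?_
        by_cases hq : Q n
        · simp only [if_pos hq]
          rw [← Finset.mul_sum]
          have hn1 : 1 ≤ ∏ i, nr (n i) := Finset.one_le_prod fun i _ => one_le_nr _
          have h2 : C₁ ^ (∑ i, (n i).card) * C₃ ^ (∑ i, (n i).card) ≤
              (k₁ : ℝ) ^ (∑ i, (n i).card) := by
            rw [← mul_pow]
            exact pow_le_pow_left₀ (by positivity) hk₁C _
          calc C₁ * C₁ ^ (∑ i, (n i).card) *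
                ∑ g ∈ Fintype.piFinset (fun _ : Fin N => GF D.toRD0 (2 * Y)), T n g
              ≤ C₁ * C₁ ^ (∑ i, (n i).card) *
                (C₃ * C₃ ^ (∑ i, (n i).card) * (M / ∏ i, nr (n i))) :=
                mul_le_mul_of_nonneg_left (hsg n hn hq) (by positivity)
            _ = C₁ * C₃ * M * ((C₁ ^ (∑ i, (n i).card) * C₃ ^ (∑ i, (n i).card)) /
                ∏ i, nr (n i)) := by ring
            _ ≤ C₁ * C₃ * M * ((k₁ : ℝ) ^ (∑ i, (n i).card) / ∏ i, nr (n i)) := by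
                refine mul_le_mul_of_nonneg_left ?_ (by positivity)
                exact div_le_div_of_nonneg_right h2 (by linarith)
        · simp only [if_neg hq]
          rw [Finset.sum_const_zero]
    _ = C₁ * C₃ * M * ∑ n ∈ (Fintype.piFinset (fun _ : Fin N => GF D.toRD0 (2 * Y))).filter Q,
        ((k₁ : ℝ) ^ (∑ i, (n i).card) / ∏ i, nr (n i)) := by
        rw [← Finset.sum_filter, Finset.mul_sum]
    _ ≤ C₁ * C₃ * M * (C₄ * (1 + Real.log (Real.exp (A * x ^ (5 * k + 9)))) ^ B₄) := by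
        refine mul_le_mul_of_nonneg_left ?_ (by positivity)
        refine hesm _ (Real.one_le_exp (by positivity)) _ fun n hn a => ?_
        rw [Finset.mem_filter, hQ] at hn
        obtain ⟨-, hq1, -, hq3⟩ := hn
        have h1 : nr (n a) ≤ thr Y (k + 1) ^ (n a).card := by
          unfold nr
          rw [← Finset.prod_const]
          exact Finset.prod_le_prod (fun v _ => Nat.cast_nonneg _) fun v hv => hq3 a v hv
        refine h1.trans ?_
        unfold thr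
        rw [← hx, ← Real.exp_nat_mul, Real.exp_le_exp]
        have h2 : ((n a).card : ℝ) ≤ A * x := by
          refine le_trans ?_ hq1
          exact_mod_cast Finset.single_le_sum (f := fun i => (n i).card)
            (fun i _ => Nat.zero_le _) (Finset.mem_univ a)
        have h3 : x ^ (5 * k + 9) = x * x ^ (5 * (k + 1) + 3) := by
          rw [← pow_succ', show 5 * (k + 1) + 3 + 1 = 5 * k + 9 by ring]
        rw [h3, ← mul_assoc]
        exact mul_le_mul_of_nonneg_right h2 (by positivity)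
    _ = C₁ * C₃ * C₂ * C₄ * Y * (1 + Real.log Y) ^ (N - 1) *
        (((1 + x) ^ B₂ * (1 + A * x ^ (5 * k + 9)) ^ B₄) / (1 + Real.log Y)) := by
        rw [Real.log_exp, hM]
        ring
    _ ≤ C₁ * C₃ * C₂ * C₄ * Y * (1 + Real.log Y) ^ (N - 1) *
        ((C₅ * (1 + x) ^ (B₂ + (5 * k + 9) * B₄)) / (1 + Real.log Y)) := by
        have h0 : 0 < 1 + Real.log Y := by linarith
        refine mul_le_mul_of_nonneg_left ?_ (by positivity)
        rw [hC5]
        exact div_le_div_of_nonneg_right (hpoly x hx1) h0.le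
    _ = _ := by
        rw [hx]
        ring

end H77.S0T
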