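import Pool.Agent.H77.PT.Pig
import Pool.Agent.H77.S0T.Sm2
import Pool.Agent.H77.S0T.Sm3

/-!
# H77-S0T-SUO: the patterns `I ≠ all` save one logarithm up to powers of `log log Y` (MP_b39724_nt)

`SUo Dg Fr`: the sum of `FW` over the families without a prime larger than `thr Y 1` in some class is at most
`C Y (1 + log Y) ^ (N - 1) (1 + log log Y) ^ B / (1 + log Y)`. `suo_all`.
-/

set_option autoImplicit false

open scoped NumberField
open IsDedekindDomain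
open scoped Classical

noncomputable section

namespace H77.S0T

open H63.MA H38.BB H38.BG H57.PC H51.CUB H77.PC3 H77.PT

variable {K : Type} [Field K] [NumberField K] {p : ℕ} {ζ : K} {Ω : Type}
  [Field Ω] [Algebra K Ω] [IsAlgClosure K Ω] {m l w N : ℕ} {P R : Type} [Group P] [Group R]

theorem n45o [NeZero p] [Finite P] [Finite R] (hp : p.Prime) (hp2 : MOne p K)
    (hζ : IsPrimitiveRoot ζ p) (D : RD K p ζ) (L : LDs D.toRD0 Ω) (Fr : FR L)
    (Dg : GP p m l w N P R) (I : Finset (Fin N)) (hI : I ≠ Finset.univ) (k : ℕ) :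
    ∃ (C Y₀ : ℝ) (B : ℕ), 0 < C ∧ 3 ≤ Y₀ ∧ ∀ Y : ℝ, Y₀ ≤ Y → ∀ (E : Finset (Pl K))
      (b : Fin m → Kˣ), BS2 D.toRD0 b E → nr E ≤ thr Y 0 → ∀ ε : Pl K → Gal(Ω/K) → R,
      PR Dg Fr (UW N Y k I) (phi Dg (VI Dg I)) b E ε (om0 I) Y ≤
        C * Y * (1 + Real.log Y) ^ (N - 1) *
          ((1 + Real.log (Real.log Y)) ^ B / (1 + Real.log Y)) := by
  obtain ⟨A, C₁, Y₁, hA, hC₁, hY₁, h1⟩ := sma2 hp hζ L Fr Dg I
  obtain ⟨C₂, Y₂, B, hC₂, hY₂, h2⟩ := smb2 hp hp2 hζ D L Fr Dg I hI k A hA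
  refine ⟨C₁ + C₂, max Y₁ Y₂, B, by positivity, le_trans hY₁ (le_max_left _ _), ?_⟩
  intro Y hY E b hb hE ε
  have ha := h1 Y (le_trans (le_max_left _ _) hY) k E b ε
  have hb' := h2 Y (le_trans (le_max_right _ _) hY) E b hb hE ε
  have hY3 : 3 ≤ Y := le_trans (le_trans hY₁ (le_max_left _ _)) hY
  have hl : 0 ≤ Real.log Y := Real.log_nonneg (by linarith)
  have hpow : 1 ≤ (1 + Real.log Y) ^ (N - 1) := one_le_pow₀ (by linarith)
  have hsplit : PR Dg Fr (UW N Y k I) (phi Dg (VI Dg I)) b E ε (om0 I) Y =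
      (∑ h ∈ Fintype.piFinset (fun _ : Fin N × Bool => GF D.toRD0 (2 * Y)),
        if (Wc D.toRD0 (UW N Y k I) E Y h ∧ SpR Dg.cr b (clw (UW N Y k I) h)) ∧
            A * Real.log (Real.log Y) < ((∑ i, (h (i, false)).card : ℕ) : ℝ) then
          om0 I (spt h) * wl ((∏ a, nr (h a)) / Y) *
            ∑ ρ ∈ RHf L Dg b E ε (clw (UW N Y k I) h),
              ∏ a, ∏ v ∈ h a, phi Dg (VI Dg I) a (cq Dg Fr ρ v)
        else 0) +
      (∑ h ∈ Fintype.piFinset (fun _ : Fin N × Bool => GF D.toRD0 (2 * Y)),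
        if (Wc D.toRD0 (UW N Y k I) E Y h ∧ SpR Dg.cr b (clw (UW N Y k I) h)) ∧
            ¬ A * Real.log (Real.log Y) < ((∑ i, (h (i, false)).card : ℕ) : ℝ) then
          om0 I (spt h) * wl ((∏ a, nr (h a)) / Y) *
            ∑ ρ ∈ RHf L Dg b E ε (clw (UW N Y k I) h),
              ∏ a, ∏ v ∈ h a, phi Dg (VI Dg I) a (cq Dg Fr ρ v)
        else 0) := by
    unfold PR
    rw [← Finset.sum_add_distrib]
    refine Finset.sum_congr (by ext; simp only [Fintype.mem_piFinset]) fun h _ => ?_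
    by_cases hw : Wc D.toRD0 (UW N Y k I) E Y h ∧ SpR Dg.cr b (clw (UW N Y k I) h)
    · by_cases hx : A * Real.log (Real.log Y) < ((∑ i, (h (i, false)).card : ℕ) : ℝ)
      · rw [if_pos hw, if_pos ⟨hw, hx⟩, if_neg (fun hh => hh.2 hx), add_zero]
      · rw [if_pos hw, if_neg (fun hh => hx hh.2), if_pos ⟨hw, hx⟩, zero_add]
    · rw [if_neg hw, if_neg (fun hh => hw hh.1), if_neg (fun hh => hw hh.1), add_zero]
  rw [hsplit]
  have hlY1 : 1 ≤ Real.log Y := (Real.le_log_iff_exp_le (by linarith)).2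
    (Real.exp_one_lt_three.le.trans hY3)
  have hll : 0 ≤ Real.log (Real.log Y) := Real.log_nonneg hlY1
  have hpw : 1 ≤ (1 + Real.log (Real.log Y)) ^ B := one_le_pow₀ (by linarith)
  obtain ⟨u, hu⟩ : ∃ u : ℝ, u = (1 + Real.log Y) ^ (N - 1) := ⟨_, rfl⟩
  obtain ⟨z, hz⟩ : ∃ z : ℝ, z = (1 + Real.log (Real.log Y)) ^ B := ⟨_, rfl⟩
  rw [← hu] at hb' hpow ⊢
  rw [← hz] at hb' hpw ⊢
  have h0 : 0 < 1 + Real.log Y := by linarith
  have hY0 : 0 < Y := by linarith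
  have huz : 1 ≤ u * z := one_le_mul_of_one_le_of_one_le hpow hpw
  have h3 : C₁ * Y / (1 + Real.log Y) ≤ C₁ * Y * u * (z / (1 + Real.log Y)) := by
    have h4 : C₁ * Y / (1 + Real.log Y) ≤ C₁ * Y * (u * z) / (1 + Real.log Y) :=
      div_le_div_of_nonneg_right (le_mul_of_one_le_right (by positivity) huz) h0.le
    refine h4.trans (le_of_eq ?_)
    ring
  calc _ ≤ C₁ * Y * u * (z / (1 + Real.log Y)) + C₂ * Y * u * (z / (1 + Real.log Y)) :=
        add_le_add (ha.trans h3) hb'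
    _ = (C₁ + C₂) * Y * u * (z / (1 + Real.log Y)) := by ring

/-- one pattern -/
theorem pig_one2 [NeZero p] [Finite P] [Finite R] (hp : p.Prime) (hp2 : MOne p K)
    (hζ : IsPrimitiveRoot ζ p) (hz2 : H57.BRA.Z2 p K) (D : RD K p ζ) (L : LDs D.toRD0 Ω) (Fr : FR L)
    (Dg : GP p m l w N P R) (k : ℕ) (I : Finset (Fin N)) (hI : I ≠ Finset.univ) :
    ∃ (C Y₀ : ℝ) (B : ℕ), 0 < C ∧ 3 ≤ Y₀ ∧ ∀ Y : ℝ, Y₀ ≤ Y → ∀ (b : Fin m → Kˣ)
      (E : Finset (Pl K)), BS2 D.toRD0 b E → nr E ≤ thr Y 0 → ∀ ε : Pl K → Gal(Ω/K) → R,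
      (∑ f ∈ Fintype.piFinset (fun _ : Fin N => GF D.toRD0 Y),
        if (Dj f ∧ (∀ i, Disjoint (f i) E) ∧ ∏ i, nr (f i) ≤ Y ∧ SpR Dg.cr b f) ∧
          Pat Y k I f then FW Dg Fr b E ε f else 0) ≤
        C * Y * (1 + Real.log Y) ^ (N - 1) *
          ((1 + Real.log (Real.log Y)) ^ B / (1 + Real.log Y)) := by
  obtain ⟨C₂, Y₂, hC₂, hY₂, h2⟩ := pn2 hp hp2 hζ hz2 D L Fr Dg I 1
  obtain ⟨C₃, Y₃, hC₃, hY₃, h3⟩ := pn3 hp hp2 hζ hz2 D L Fr Dg I 1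
  obtain ⟨C₄, Y₄, B, hC₄, hY₄, h4⟩ := n45o hp hp2 hζ D L Fr Dg I hI k
  obtain ⟨q, hq⟩ : ∃ q : ℝ, q = (p : ℝ) ^ (w * N) := ⟨_, rfl⟩
  have hq0 : 0 < q := by
    rw [hq]
    exact pow_pos (by exact_mod_cast hp.pos) _
  refine ⟨q * (q * C₄ + 2 * C₃) + 2 * C₂, max (max Y₂ Y₃) Y₄, B, by positivity,
    le_trans hY₂ (le_trans (le_max_left _ _) (le_max_left _ _)), ?_⟩
  intro Y hY b E hb hE ε
  have hYa : Y₂ ≤ Y := le_trans (le_trans (le_max_left _ _) (le_max_left _ _)) hY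
  have hYb : Y₃ ≤ Y := le_trans (le_trans (le_max_right _ _) (le_max_left _ _)) hY
  have hYc : Y₄ ≤ Y := le_trans (le_max_right _ _) hY
  have hY3 : 3 ≤ Y := hY₂.trans hYa
  have e1 := pn1 Dg Fr k I Y (by linarith) b E ε
  have e2 := h2 Y hYa k E b hb hE ε
  have e3 := h3 Y hYb k E b hb hE ε
  have e4 := h4 Y hYc E b hb hE ε
  rw [← hq] at e2 e3
  rw [Real.rpow_neg_one] at e2 e3
  have hlY1 : 1 ≤ Real.log Y := (Real.le_log_iff_exp_le (by linarith)).2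
    (Real.exp_one_lt_three.le.trans hY3)
  have hll : 0 ≤ Real.log (Real.log Y) := Real.log_nonneg hlY1
  have hpow : 1 ≤ (1 + Real.log Y) ^ (N - 1) := one_le_pow₀ (by linarith)
  have hpw : 1 ≤ (1 + Real.log (Real.log Y)) ^ B := one_le_pow₀ (by linarith)
  have h0 : 0 < 1 + Real.log Y := by linarith
  have hY0 : 0 < Y := by linarith
  have hinv : (Real.log Y)⁻¹ ≤ 2 / (1 + Real.log Y) := by
    rw [inv_eq_one_div, div_le_div_iff₀ (by linarith) h0]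
    linarith
  obtain ⟨u, hu⟩ : ∃ u : ℝ, u = (1 + Real.log Y) ^ (N - 1) *
      ((1 + Real.log (Real.log Y)) ^ B / (1 + Real.log Y)) := ⟨_, rfl⟩
  have hu1 : 1 / (1 + Real.log Y) ≤ u := by
    rw [hu, mul_div_assoc']
    exact div_le_div_of_nonneg_right (one_le_mul_of_one_le_of_one_le hpow hpw) h0.le
  have hu0 : 0 < u := lt_of_lt_of_le (by positivity) hu1
  rw [mul_assoc (C₄ * Y), ← hu] at e4
  rw [mul_assoc ((q * (q * C₄ + 2 * C₃) + 2 * C₂) * Y), ← hu]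
  have hinvu : (Real.log Y)⁻¹ ≤ 2 * u := by
    refine hinv.trans ?_
    rw [← mul_one_div]
    exact mul_le_mul_of_nonneg_left hu1 (by norm_num)
  have a3 : C₃ * Y * (Real.log Y)⁻¹ ≤ 2 * C₃ * Y * u := by
    calc C₃ * Y * (Real.log Y)⁻¹ ≤ C₃ * Y * (2 * u) :=
          mul_le_mul_of_nonneg_left hinvu (by positivity)
      _ = _ := by ring
  have a2 : C₂ * Y * (Real.log Y)⁻¹ ≤ 2 * C₂ * Y * u := by
    calc C₂ * Y * (Real.log Y)⁻¹ ≤ C₂ * Y * (2 * u) :=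
          mul_le_mul_of_nonneg_left hinvu (by positivity)
      _ = _ := by ring
  calc _ ≤ _ := e1
    _ ≤ _ := e2
    _ ≤ q * (q * (C₄ * Y * u) + C₃ * Y * (Real.log Y)⁻¹) + C₂ * Y * (Real.log Y)⁻¹ := by
        have b1 := mul_le_mul_of_nonneg_left e4 hq0.le
        have b2 := mul_le_mul_of_nonneg_left
          (e3.trans (add_le_add_left b1 (C₃ * Y * (Real.log Y)⁻¹))) hq0.le
        linarith
    _ ≤ q * (q * (C₄ * Y * u) + 2 * C₃ * Y * u) + 2 * C₂ * Y * u := by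
        have b2 := mul_le_mul_of_nonneg_left (add_le_add_right a3 (q * (C₄ * Y * u))) hq0.le
        linarith
    _ = (q * (q * C₄ + 2 * C₃) + 2 * C₂) * Y * u := by ring

/-- the upper bound for the patterns `I ≠ all` with one logarithm saved -/
def SUo [NeZero p] {D : RD0 K p ζ} {L : LDs D Ω} (Dg : GP p m l w N P R) (Fr : FR L) : Prop :=
  ∃ (C Y₀ : ℝ) (B : ℕ), 0 < C ∧ 3 ≤ Y₀ ∧ ∀ Y : ℝ, Y₀ ≤ Y → ∀ (b : Fin m → Kˣ)
    (E : Finset (Pl K)), BS2 D b E → nr E ≤ thr Y 0 → ∀ ε : Pl K → Gal(Ω/K) → R,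
      (∑ f ∈ Fintype.piFinset (fun _ : Fin N => GF D Y),
        if (Dj f ∧ (∀ i, Disjoint (f i) E) ∧ ∏ i, nr (f i) ≤ Y ∧ SpR Dg.cr b f) ∧
            ¬ ∀ i, ∃ v ∈ f i, thr Y 1 < nm v then FW Dg Fr b E ε f else 0) ≤
        C * Y * (1 + Real.log Y) ^ (N - 1) *
          ((1 + Real.log (Real.log Y)) ^ B / (1 + Real.log Y))

theorem suo_all [NeZero p] [Finite P] [Finite R] (hp : p.Prime) (hp2 : MOne p K)
    (hζ : IsPrimitiveRoot ζ p) (hz2 : H57.BRA.Z2 p K) (D : RD K p ζ) (L : LDs D.toRD0 Ω) (Fr : FR L)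
    (Dg : GP p m l w N P R) : SUo Dg Fr := by
  classical
  have h := fun (k : ℕ) (I : {I : Finset (Fin N) // I ≠ Finset.univ}) =>
    pig_one2 hp hp2 hζ hz2 D L Fr Dg k I.1 I.2
  choose C Y₀ B hC hY₀ h using h
  obtain ⟨S, hS⟩ : ∃ S : Finset (ℕ × {I : Finset (Fin N) // I ≠ Finset.univ}),
      S = Finset.range (N + 1) ×ˢ Finset.univ := ⟨_, rfl⟩
  refine ⟨∑ s ∈ S, C s.1 s.2 + 1, ∑ s ∈ S, Y₀ s.1 s.2 + Real.exp (Real.exp 1),
    ∑ s ∈ S, B s.1 s.2, ?_, ?_, ?_⟩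
  · have : 0 ≤ ∑ s ∈ S, C s.1 s.2 := Finset.sum_nonneg fun s _ => (hC s.1 s.2).le
    linarith
  · have h1 : 0 ≤ ∑ s ∈ S, Y₀ s.1 s.2 := Finset.sum_nonneg fun s _ =>
      le_trans (by norm_num) (hY₀ s.1 s.2)
    have h2 : (2 : ℝ) ≤ Real.exp 1 := by
      have := Real.add_one_le_exp (1 : ℝ)
      linarith
    have h3 : (3 : ℝ) ≤ Real.exp (Real.exp 1) := by
      have := Real.add_one_le_exp (Real.exp 1)
      linarith
    linarith
  intro Y hY b E hb hE ε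
  have hsum0 : 0 ≤ ∑ s ∈ S, Y₀ s.1 s.2 := Finset.sum_nonneg fun s _ =>
    le_trans (by norm_num) (hY₀ s.1 s.2)
  have hYe : Real.exp (Real.exp 1) ≤ Y := by linarith
  have hYp : 0 < Y := lt_of_lt_of_le (Real.exp_pos _) hYe
  have hlY : Real.exp 1 ≤ Real.log Y := by
    rw [Real.le_log_iff_exp_le hYp]
    exact hYe
  have hx : 1 ≤ Real.log (Real.log Y) := by
    rw [Real.le_log_iff_exp_le (lt_of_lt_of_le (Real.exp_pos _) hlY)]
    exact hlY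
  have hYs : ∀ s ∈ S, Y₀ s.1 s.2 ≤ Y := by
    intro s hs
    have h1 := Finset.single_le_sum (f := fun s : ℕ × {I : Finset (Fin N) // I ≠ Finset.univ} =>
      Y₀ s.1 s.2) (fun s _ => le_trans (by norm_num : (0 : ℝ) ≤ 3) (hY₀ s.1 s.2)) hs
    have h2 : 0 < Real.exp (Real.exp 1) := Real.exp_pos _
    have h3 : Y₀ s.1 s.2 ≤ ∑ s ∈ S, Y₀ s.1 s.2 := h1
    linarith
  have hFW : ∀ f : Fin N → Finset (Pl K), 0 ≤ FW Dg Fr b E ε f := fun f => fw_nonneg Dg Fr b E ε f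
  have hmain : (∑ f ∈ Fintype.piFinset (fun _ : Fin N => GF D.toRD0 Y),
        if (Dj f ∧ (∀ i, Disjoint (f i) E) ∧ ∏ i, nr (f i) ≤ Y ∧ SpR Dg.cr b f) ∧
            ¬ ∀ i, ∃ v ∈ f i, thr Y 1 < nm v then FW Dg Fr b E ε f else 0) ≤
      ∑ s ∈ S, ∑ f ∈ Fintype.piFinset (fun _ : Fin N => GF D.toRD0 Y),
        if (Dj f ∧ (∀ i, Disjoint (f i) E) ∧ ∏ i, nr (f i) ≤ Y ∧ SpR Dg.cr b f) ∧
          Pat Y s.1 s.2.1 f then FW Dg Fr b E ε f else 0 := by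
    rw [Finset.sum_comm]
    refine Finset.sum_le_sum fun f _ => ?_
    split_ifs with hf
    · obtain ⟨k, hk, I, hI, h1, h2⟩ := pig_pat f (fun v => (nm v : ℝ)) (thr Y)
        (fun i j hij => thr_mono hx hij) hf.2
      have hmem : (k, (⟨I, hI⟩ : {I : Finset (Fin N) // I ≠ Finset.univ})) ∈ S := by
        rw [hS]
        exact Finset.mem_product.2 ⟨hk, Finset.mem_univ _⟩
      have h3 := Finset.single_le_sum
        (f := fun s : ℕ × {I : Finset (Fin N) // I ≠ Finset.univ} =>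
          if (Dj f ∧ (∀ i, Disjoint (f i) E) ∧ ∏ i, nr (f i) ≤ Y ∧ SpR Dg.cr b f) ∧
            Pat Y s.1 s.2.1 f then FW Dg Fr b E ε f else 0)
        (fun s _ => by
          split_ifs
          · exact hFW f
          · exact le_rfl) hmem
      have h4 : (Dj f ∧ (∀ i, Disjoint (f i) E) ∧ ∏ i, nr (f i) ≤ Y ∧ SpR Dg.cr b f) ∧
          Pat Y k I f := ⟨hf.1, h1, h2⟩
      dsimp only at h3
      rw [if_pos h4] at h3
      exact h3
    · refine Finset.sum_nonneg fun s _ => ?_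
      split_ifs
      · exact hFW f
      · exact le_rfl
  refine hmain.trans ?_
  have hl : 0 ≤ Real.log Y := by linarith [Real.exp_pos 1]
  have h0 : 0 < 1 + Real.log Y := by linarith
  have hx0 : 1 ≤ 1 + Real.log (Real.log Y) := by linarith
  have hpow : 0 ≤ (1 + Real.log Y) ^ (N - 1) := pow_nonneg (by linarith) _
  obtain ⟨B₁, hB₁⟩ : ∃ B₁ : ℕ, B₁ = ∑ s ∈ S, B s.1 s.2 := ⟨_, rfl⟩
  have hBs : ∀ s ∈ S, B s.1 s.2 ≤ B₁ := by
    intro s hs
    rw [hB₁]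
    exact Finset.single_le_sum (f := fun s : ℕ × {I : Finset (Fin N) // I ≠ Finset.univ} =>
      B s.1 s.2) (fun s _ => Nat.zero_le _) hs
  rw [← hB₁]
  have hz0 : 0 ≤ (1 + Real.log (Real.log Y)) ^ B₁ / (1 + Real.log Y) := by positivity
  calc _ ≤ ∑ s ∈ S, C s.1 s.2 * Y * (1 + Real.log Y) ^ (N - 1) *
          ((1 + Real.log (Real.log Y)) ^ B₁ / (1 + Real.log Y)) :=
        Finset.sum_le_sum fun s hs => (h s.1 s.2 Y (hYs s hs) b E hb hE ε).trans (by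
          have hCs := (hC s.1 s.2).le
          refine mul_le_mul_of_nonneg_left ?_ (by positivity)
          exact div_le_div_of_nonneg_right (pow_le_pow_right₀ hx0 (hBs s hs)) h0.le)
    _ = (∑ s ∈ S, C s.1 s.2) * Y * (1 + Real.log Y) ^ (N - 1) *
          ((1 + Real.log (Real.log Y)) ^ B₁ / (1 + Real.log Y)) := by
        rw [Finset.sum_mul, Finset.sum_mul, Finset.sum_mul]
    _ ≤ (∑ s ∈ S, C s.1 s.2 + 1) * Y * (1 + Real.log Y) ^ (N - 1) *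
          ((1 + Real.log (Real.log Y)) ^ B₁ / (1 + Real.log Y)) := by
        refine mul_le_mul_of_nonneg_right ?_ hz0
        refine mul_le_mul_of_nonneg_right ?_ hpow
        exact mul_le_mul_of_nonneg_right (by linarith) hYp.le

end H77.S0T
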