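import Pool.Agent.H38.AS.ELrg
import Pool.Agent.H57.CC.Suo
import Pool.Agent.H77.PT.Rhc

/-!
# H77-S0T-LD: cancellation in a large class contained in `W` (MP_b39724_nt)

* `mlg`: as `elg` (H38/AS), for a coefficient bounded by `A₀ * A₀ ^ (number of primes)`.
* `mlk`: a coefficient bounded by `FW`, with the phase `ep (κ · qf (f i₀))` of a class `i₀` contained in `W`, `κ ≠ 0`: the sum is negligible.
-/

set_option autoImplicit false

open scoped NumberField
open IsDedekindDomain Filter Topology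
open scoped Classical

noncomputable section

namespace H77.S0T

open H63.MA H38.BB H38.BG H57.PC H57.BRA H63.BU H77.PC3 H57.CC H38.AS H77.PT

section lg

variable {K : Type} [Field K] [NumberField K] {p : ℕ} {ζ : K} {m N : ℕ}

theorem mlg [NeZero p] (hp : p.Prime) (hζ : IsPrimitiveRoot ζ p)
    (D : RD K p ζ) (c : CR p m (N + 1)) (i₀ : Fin (N + 1)) (hc : Cen c i₀)
    (κ : Fin D.r → ZMod p) (hκ : κ ≠ 0) (A₀ : ℝ) (hA₀0 : 0 ≤ A₀) :
    ∃ (C δ : ℝ) (A : ℕ), 0 < C ∧ 0 < δ ∧ ∀ X z : ℝ, 1 ≤ X → 1 ≤ z → ∀ b : Fin m → Kˣ,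
      ∀ Ψ : (Fin (N + 1) → Finset (Pl K)) → ℂ, (∀ f n, Ψ (Function.update f i₀ n) = Ψ f) →
      (∀ f, Dj f → (∀ i, ∀ v ∈ f i, D.Gd v) → ‖Ψ f‖ ≤ A₀ ^ (∑ i, (f i).card)) →
      ‖∑ f ∈ Fintype.piFinset (fun _ : Fin (N + 1) => GF D.toRD0 X),
        (if Dj f ∧ ∏ i, nr (f i) ≤ X ∧ SpR c b f ∧ z < nr (f i₀) then
          Ψ f * ep p (dt κ (qf D.toRD0 (f i₀))) else 0)‖ ≤
        C * X * z ^ (-δ) * (1 + Real.log X) ^ A := by
  obtain ⟨C₀, A₁, δ, hC₀, -, hδ, hδ1, hA⟩ := lemA hp hζ D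
  obtain ⟨C₁, A, hC₁, hepw⟩ := epw K (2 * A₀) (by positivity)
  refine ⟨2 * C₀ * C₁ ^ N, δ, A * N, by positivity, hδ, fun X z hX hz b Ψ hΨ hΨ' => ?_⟩
  have hz0 : 0 < z := by linarith
  have hX0 : 0 < X := by linarith
  -- the sum over the class `i₀`
  have hS : ∀ (F : Finset (Pl K)) (y : ℝ), 1 ≤ y →
      ‖∑ n ∈ (GF D.toRD0 y).filter (fun n => Disjoint n F), ep p (dt κ (qf D.toRD0 n))‖ ≤
        C₀ * 2 ^ F.card * y ^ (1 - δ) := by
    intro F y hy
    have h1 := hA ∅ F (fun _ => 0) κ (fun _ => 1) (by simp) (Finset.empty_subset _)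
      (by simp) (Or.inr ⟨fun _ => rfl, hκ⟩) y hy
    have h2 : nr (∅ : Finset (Pl K)) = 1 := by simp [nr]
    rw [h2, Real.one_rpow, mul_one] at h1
    have h3 : ∀ n : Finset (Pl K), (1 : ℂ) * ep p (∑ v ∈ n, fE D.toRD0 ∅ (fun _ => 0) κ v) =
        ep p (dt κ (qf D.toRD0 n)) := by
      intro n
      rw [one_mul, ← aph_dt_qf]
      congr 1
      refine Finset.sum_congr rfl fun v _ => ?_
      unfold fE
      rw [Finset.sum_empty, zero_add]
    simp only [h3] at h1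
    exact h1
  rw [elg_split (GF D.toRD0 X) i₀]
  have key : ∀ f' ∈ Fintype.piFinset (fun _ : Fin N => GF D.toRD0 X),
      ‖∑ n ∈ GF D.toRD0 X,
        (if Dj (Fin.insertNth (α := fun _ => Finset (Pl K)) i₀ n f') ∧
            ∏ i, nr (Fin.insertNth (α := fun _ => Finset (Pl K)) i₀ n f' i) ≤ X ∧
            SpR c b (Fin.insertNth (α := fun _ => Finset (Pl K)) i₀ n f') ∧
            z < nr (Fin.insertNth (α := fun _ => Finset (Pl K)) i₀ n f' i₀) then
          Ψ (Fin.insertNth (α := fun _ => Finset (Pl K)) i₀ n f') *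
            ep p (dt κ (qf D.toRD0 (Fin.insertNth (α := fun _ => Finset (Pl K)) i₀ n f' i₀)))
          else 0)‖ ≤
      2 * C₀ * X * z ^ (-δ) * ∏ j, ((2 * A₀) ^ (f' j).card * (nr (f' j))⁻¹) := by
    intro f' hf'
    rw [Fintype.mem_piFinset] at hf'
    have hP1 : 1 ≤ ∏ j, nr (f' j) := atupa_prod_one f' Finset.univ
    obtain ⟨P, hP⟩ : ∃ P : ℝ, P = ∏ j, nr (f' j) := ⟨_, rfl⟩
    rw [← hP] at hP1
    have hP0 : 0 < P := by linarith
    have hR0 : 0 ≤ 2 * C₀ * X * z ^ (-δ) * ∏ j, ((2 * A₀) ^ (f' j).card * (nr (f' j))⁻¹) := by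
      have h1 : 0 ≤ ∏ j, ((2 * A₀) ^ (f' j).card * (nr (f' j))⁻¹) :=
        Finset.prod_nonneg fun j _ => by
          have := one_le_nr (f' j)
          positivity
      have h2 : 0 ≤ z ^ (-δ) := Real.rpow_nonneg hz0.le _
      positivity
    have hup : ∀ n, Fin.insertNth (α := fun _ => Finset (Pl K)) i₀ n f' =
        Function.update (Fin.insertNth (α := fun _ => Finset (Pl K)) i₀ ∅ f') i₀ n := by
      intro n
      ext i
      rcases Fin.eq_self_or_eq_succAbove i₀ i with rfl | ⟨j, rfl⟩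
      · simp
      · simp
    have hΨ0 : ∀ n, Ψ (Fin.insertNth (α := fun _ => Finset (Pl K)) i₀ n f') =
        Ψ (Fin.insertNth (α := fun _ => Finset (Pl K)) i₀ ∅ f') := by
      intro n
      rw [hup n, hΨ]
    have hsp : ∀ n, SpR c b (Fin.insertNth (α := fun _ => Finset (Pl K)) i₀ n f') ↔
        SpR (rmc c i₀) b f' := by
      intro n
      rw [erm_sp c i₀ hc b]
      simp only [Fin.insertNth_apply_succAbove]
    by_cases hD : Dj f'
    swap
    · rw [Finset.sum_eq_zero, norm_zero]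
      · exact hR0
      · intro n _
        rw [if_neg]
        rintro ⟨h1, -⟩
        exact hD ((elg_dj i₀ n f').1 h1).1
    by_cases hSp : SpR (rmc c i₀) b f'
    swap
    · rw [Finset.sum_eq_zero, norm_zero]
      · exact hR0
      · intro n _
        rw [if_neg]
        rintro ⟨-, -, h1, -⟩
        exact hSp ((hsp n).1 h1)
    obtain ⟨F, hF⟩ : ∃ F : Finset (Pl K), F = Finset.univ.biUnion f' := ⟨_, rfl⟩
    have hFc : F.card = ∑ j, (f' j).card := by
      rw [hF, Finset.card_biUnion (fun i _ j _ hij => hD i j hij)]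
    -- the coefficient
    have hco : ‖Ψ (Fin.insertNth (α := fun _ => Finset (Pl K)) i₀ ∅ f')‖ ≤ A₀ ^ F.card := by
      have h1 := hΨ' (Fin.insertNth (α := fun _ => Finset (Pl K)) i₀ ∅ f')
        ((elg_dj i₀ ∅ f').2 ⟨hD, Finset.disjoint_empty_left _⟩) (by
          intro i
          rcases Fin.eq_self_or_eq_succAbove i₀ i with rfl | ⟨j, rfl⟩
          · simp
          · rw [Fin.insertNth_apply_succAbove]
            exact (atupa_mem_GF.1 (hf' j)).2)
      rw [Fin.sum_univ_succAbove _ i₀] at h1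
      simp only [Fin.insertNth_apply_succAbove, Fin.insertNth_apply_same, Finset.card_empty,
        zero_add] at h1
      rw [hFc]
      exact h1
    have hsum : ∑ n ∈ GF D.toRD0 X,
        (if Dj (Fin.insertNth (α := fun _ => Finset (Pl K)) i₀ n f') ∧
            ∏ i, nr (Fin.insertNth (α := fun _ => Finset (Pl K)) i₀ n f' i) ≤ X ∧
            SpR c b (Fin.insertNth (α := fun _ => Finset (Pl K)) i₀ n f') ∧
            z < nr (Fin.insertNth (α := fun _ => Finset (Pl K)) i₀ n f' i₀) then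
          Ψ (Fin.insertNth (α := fun _ => Finset (Pl K)) i₀ n f') *
            ep p (dt κ (qf D.toRD0 (Fin.insertNth (α := fun _ => Finset (Pl K)) i₀ n f' i₀)))
          else 0) =
        Ψ (Fin.insertNth (α := fun _ => Finset (Pl K)) i₀ ∅ f') *
          ∑ n ∈ (GF D.toRD0 (X / P)).filter (fun n => Disjoint n F ∧ z < nr n),
            ep p (dt κ (qf D.toRD0 n)) := by
      rw [Finset.mul_sum, ← Finset.sum_filter]
      refine Finset.sum_congr ?_ fun n _ => ?_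
      · ext n
        rw [Finset.mem_filter, Finset.mem_filter, elg_dj, elg_prod, hsp n,
          Fin.insertNth_apply_same, atupa_mem_GF, atupa_mem_GF, ← hF, ← hP, le_div_iff₀ hP0]
        constructor
        · rintro ⟨⟨-, h2⟩, ⟨-, h3⟩, h4, -, h5⟩
          exact ⟨⟨h4, h2⟩, h3, h5⟩
        · rintro ⟨⟨h1, h2⟩, h3, h5⟩
          refine ⟨⟨?_, h2⟩, ⟨hD, h3⟩, h1, hSp, h5⟩
          refine le_trans ?_ h1
          exact le_mul_of_one_le_right (by linarith [one_le_nr n]) hP1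
      · rw [hΨ0, Fin.insertNth_apply_same]
    rw [hsum, norm_mul]
    have hin : ‖∑ n ∈ (GF D.toRD0 (X / P)).filter (fun n => Disjoint n F ∧ z < nr n),
        ep p (dt κ (qf D.toRD0 n))‖ ≤ 2 * C₀ * 2 ^ F.card * (X / P) * z ^ (-δ) := by
      rcases le_or_gt (X / P) z with hY | hY
      · rw [Finset.sum_eq_zero, norm_zero]
        · have h2 : 0 ≤ z ^ (-δ) := Real.rpow_nonneg hz0.le _
          positivity
        · intro n hn
          rw [Finset.mem_filter, atupa_mem_GF] at hn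
          exact absurd (hn.2.2.trans_le hn.1.1) (not_lt.2 hY)
      · have hY1 : 1 ≤ X / P := hz.trans hY.le
        have hY0 : 0 < X / P := by linarith
        have hsub : ∑ n ∈ (GF D.toRD0 (X / P)).filter (fun n => Disjoint n F ∧ z < nr n),
            ep p (dt κ (qf D.toRD0 n)) =
            ∑ n ∈ (GF D.toRD0 (X / P)).filter (fun n => Disjoint n F),
              ep p (dt κ (qf D.toRD0 n)) -
            ∑ n ∈ (GF D.toRD0 z).filter (fun n => Disjoint n F), ep p (dt κ (qf D.toRD0 n)) := by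
          rw [eq_sub_iff_add_eq, ← Finset.sum_union]
          · refine Finset.sum_congr ?_ fun n _ => rfl
            ext n
            rw [Finset.mem_union, Finset.mem_filter, Finset.mem_filter, Finset.mem_filter,
              atupa_mem_GF, atupa_mem_GF]
            constructor
            · rintro (⟨h1, h2, -⟩ | ⟨⟨h1, h2⟩, h3⟩)
              · exact ⟨h1, h2⟩
              · exact ⟨⟨h1.trans hY.le, h2⟩, h3⟩
            · rintro ⟨⟨h1, h2⟩, h3⟩
              rcases le_or_gt (nr n) z with h4 | h4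
              · exact Or.inr ⟨⟨h4, h2⟩, h3⟩
              · exact Or.inl ⟨⟨h1, h2⟩, h3, h4⟩
          · rw [Finset.disjoint_left]
            intro n h1 h2
            rw [Finset.mem_filter] at h1 h2
            exact absurd (atupa_mem_GF.1 h2.1).1 (not_le.2 h1.2.2)
        rw [hsub]
        refine (norm_sub_le _ _).trans ?_
        have h1 := hS F (X / P) hY1
        have h2 := hS F z hz
        have h3 : z ^ (1 - δ) ≤ (X / P) ^ (1 - δ) :=
          Real.rpow_le_rpow hz0.le hY.le (by linarith)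
        have h4 : (X / P) ^ (1 - δ) ≤ (X / P) * z ^ (-δ) := by
          rw [show (1 : ℝ) - δ = 1 + -δ by ring, Real.rpow_add hY0, Real.rpow_one]
          refine mul_le_mul_of_nonneg_left ?_ hY0.le
          exact Real.rpow_le_rpow_of_nonpos hz0 hY.le (by linarith)
        have h5 : 0 ≤ C₀ * 2 ^ F.card := by positivity
        calc _ ≤ C₀ * 2 ^ F.card * (X / P) ^ (1 - δ) + C₀ * 2 ^ F.card * z ^ (1 - δ) :=
              add_le_add h1 h2
          _ ≤ C₀ * 2 ^ F.card * ((X / P) * z ^ (-δ)) + C₀ * 2 ^ F.card * ((X / P) * z ^ (-δ)) :=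
              add_le_add (mul_le_mul_of_nonneg_left h4 h5)
                (mul_le_mul_of_nonneg_left (h3.trans h4) h5)
          _ = _ := by ring
    have hprod : ∏ j, ((2 * A₀) ^ (f' j).card * (nr (f' j))⁻¹) = (2 * A₀) ^ F.card * P⁻¹ := by
      rw [Finset.prod_mul_distrib, Finset.prod_pow_eq_pow_sum, hFc, Finset.prod_inv_distrib, hP]
    rw [hprod]
    calc ‖Ψ (Fin.insertNth (α := fun _ => Finset (Pl K)) i₀ ∅ f')‖ *
          ‖∑ n ∈ (GF D.toRD0 (X / P)).filter (fun n => Disjoint n F ∧ z < nr n),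
            ep p (dt κ (qf D.toRD0 n))‖ ≤
          A₀ ^ F.card * (2 * C₀ * 2 ^ F.card * (X / P) * z ^ (-δ)) :=
          mul_le_mul hco hin (norm_nonneg _) (by positivity)
      _ = _ := by rw [mul_pow, div_eq_mul_inv]; ring
  refine (norm_sum_le _ _).trans ((Finset.sum_le_sum key).trans ?_)
  have h10 : ∑ f' ∈ Fintype.piFinset (fun _ : Fin N => GF D.toRD0 X),
      ∏ j, ((2 * A₀) ^ (f' j).card * (nr (f' j))⁻¹) =
      (∑ n ∈ GF D.toRD0 X, (2 * A₀) ^ n.card * (nr n)⁻¹) ^ N := by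
    have h11 := Finset.prod_univ_sum (fun _ : Fin N => GF D.toRD0 X)
      (fun _ n => (2 * A₀) ^ n.card * (nr n)⁻¹)
    rw [Finset.prod_const, Finset.card_univ, Fintype.card_fin] at h11
    rw [h11]
  rw [← Finset.mul_sum, h10]
  have h6 : ∑ n ∈ GF D.toRD0 X, (2 * A₀) ^ n.card * (nr n)⁻¹ ≤ C₁ * (1 + Real.log X) ^ A := by
    refine le_trans ?_ (hepw X hX)
    refine Finset.sum_le_sum_of_subset_of_nonneg ?_ fun n _ _ => by
      have := one_le_nr n
      positivity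
    intro n hn
    exact mem_AF.2 (atupa_mem_GF.1 hn).1
  have h7 : 0 ≤ ∑ n ∈ GF D.toRD0 X, (2 * A₀) ^ n.card * (nr n)⁻¹ :=
    Finset.sum_nonneg fun n _ => by
      have := one_le_nr n
      positivity
  have h8 := pow_le_pow_left₀ h7 h6 N
  have h9 : 0 ≤ z ^ (-δ) := Real.rpow_nonneg hz0.le _
  calc 2 * C₀ * X * z ^ (-δ) * (∑ n ∈ GF D.toRD0 X, (2 * A₀) ^ n.card * (nr n)⁻¹) ^ N ≤
        2 * C₀ * X * z ^ (-δ) * (C₁ * (1 + Real.log X) ^ A) ^ N := by
        refine mul_le_mul_of_nonneg_left h8 ?_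
        positivity
    _ = _ := by rw [mul_pow, ← pow_mul]; ring

end lg

theorem asy_ll (M : ℝ) : ∃ Y₀ : ℝ, 3 ≤ Y₀ ∧ ∀ Y : ℝ, Y₀ ≤ Y → M ≤ Real.log (Real.log Y) := by
  have h : Tendsto (fun Y : ℝ => Real.log (Real.log Y)) atTop atTop :=
    Real.tendsto_log_atTop.comp Real.tendsto_log_atTop
  obtain ⟨Y₁, h1⟩ := (h.eventually_ge_atTop M).exists_forall_of_atTop
  exact ⟨max 3 Y₁, le_max_left _ _, fun Y hY => h1 Y ((le_max_right _ _).trans hY)⟩

theorem asy1 (C δ ε : ℝ) (A : ℕ) (hC : 0 < C) (hδ : 0 < δ) (hε : 0 < ε) :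
    ∃ Y₀ : ℝ, 3 ≤ Y₀ ∧ ∀ Y : ℝ, Y₀ ≤ Y → C * thr Y 1 ^ (-δ) * (1 + Real.log Y) ^ A ≤ ε := by
  obtain ⟨Y₀, hY₀, h⟩ := asy_ll (max (max 1 ((A + 1) / δ)) (Real.log (C * 2 ^ A / ε)))
  refine ⟨Y₀, hY₀, fun Y hY => ?_⟩
  have h0 := h Y hY
  have hY3 : 3 ≤ Y := hY₀.trans hY
  have hl1 : 1 ≤ Real.log Y := (Real.le_log_iff_exp_le (by linarith)).2
    (Real.exp_one_lt_three.le.trans hY3)
  obtain ⟨x, hx⟩ : ∃ x : ℝ, x = Real.log (Real.log Y) := ⟨_, rfl⟩
  rw [← hx] at h0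
  have h1 : 1 ≤ x := (le_max_left _ _).trans ((le_max_left _ _).trans h0)
  have h2 : (A + 1) / δ ≤ x := (le_max_right _ _).trans ((le_max_left _ _).trans h0)
  have h3 : Real.log (C * 2 ^ A / ε) ≤ x := (le_max_right _ _).trans h0
  have hlx : Real.log Y = Real.exp x := by rw [hx, Real.exp_log (by linarith)]
  have ht : thr Y 1 ^ (-δ) = Real.exp (-(δ * x ^ 8)) := by
    unfold thr
    rw [← Real.exp_mul, ← hx]
    congr 1
    ring
  have h4 : (1 + Real.log Y) ^ A ≤ 2 ^ A * Real.exp (A * x) := by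
    have h5 : (1 + Real.log Y) ^ A ≤ (2 * Real.log Y) ^ A :=
      pow_le_pow_left₀ (by linarith) (by linarith) A
    rw [mul_pow, hlx, ← Real.exp_nat_mul] at h5
    rw [hlx]
    exact h5
  have h6 : (A + 1) * x ≤ δ * x ^ 8 := by
    have h7 : (A : ℝ) + 1 ≤ δ * x := by
      rw [div_le_iff₀ hδ] at h2
      linarith
    have h8 : 1 ≤ x ^ 6 := one_le_pow₀ h1
    calc ((A : ℝ) + 1) * x ≤ δ * x * x := mul_le_mul_of_nonneg_right h7 (by linarith)
      _ = δ * x * x * 1 := by ring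
      _ ≤ δ * x * x * x ^ 6 := mul_le_mul_of_nonneg_left h8 (by positivity)
      _ = _ := by ring
  have h9 : C * 2 ^ A * Real.exp (-x) ≤ ε := by
    have h10 : C * 2 ^ A / ε ≤ Real.exp x := (Real.log_le_iff_le_exp (by positivity)).1 h3
    rw [div_le_iff₀ hε] at h10
    rw [Real.exp_neg, ← div_eq_mul_inv, div_le_iff₀ (Real.exp_pos _)]
    linarith
  rw [ht]
  calc C * Real.exp (-(δ * x ^ 8)) * (1 + Real.log Y) ^ A ≤
        C * Real.exp (-(δ * x ^ 8)) * (2 ^ A * Real.exp (A * x)) :=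
        mul_le_mul_of_nonneg_left h4 (by positivity)
    _ = C * 2 ^ A * Real.exp (A * x + -(δ * x ^ 8)) := by
        rw [Real.exp_add]
        ring
    _ ≤ C * 2 ^ A * Real.exp (-x) := by
        refine mul_le_mul_of_nonneg_left (Real.exp_le_exp.2 ?_) (by positivity)
        nlinarith
    _ ≤ ε := h9

theorem asy2 (C B ε : ℝ) (hC : 0 < C) (hε : 0 < ε) :
    ∃ Y₀ : ℝ, 3 ≤ Y₀ ∧ ∀ Y : ℝ, Y₀ ≤ Y →
      C * (1 + Real.log (Real.log Y)) ^ B ≤ ε * Real.log Y := by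
  have h1 : ∀ᶠ u : ℝ in atTop, ‖Real.log u ^ (|B|)‖ ≤ ε / (C * 2 ^ |B|) * ‖u ^ (1 : ℝ)‖ :=
    (isLittleO_log_rpow_rpow_atTop |B| (zero_lt_one)).bound (by positivity)
  have h2 : ∀ᶠ Y : ℝ in atTop, ‖Real.log (Real.log Y) ^ (|B|)‖ ≤
      ε / (C * 2 ^ |B|) * ‖Real.log Y ^ (1 : ℝ)‖ := Real.tendsto_log_atTop.eventually h1
  obtain ⟨Y₁, h3⟩ := h2.exists_forall_of_atTop
  obtain ⟨Y₂, hY₂, h4⟩ := asy_ll 1
  refine ⟨max Y₁ Y₂, hY₂.trans (le_max_right _ _), fun Y hY => ?_⟩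
  have h5 := h3 Y ((le_max_left _ _).trans hY)
  have h6 := h4 Y ((le_max_right _ _).trans hY)
  have hY3 : 3 ≤ Y := hY₂.trans ((le_max_right _ _).trans hY)
  have hl1 : 1 ≤ Real.log Y := (Real.le_log_iff_exp_le (by linarith)).2
    (Real.exp_one_lt_three.le.trans hY3)
  rw [Real.rpow_one, Real.norm_of_nonneg (Real.rpow_nonneg (by linarith) _),
    Real.norm_of_nonneg (by linarith : 0 ≤ Real.log Y)] at h5
  have h7 : (1 + Real.log (Real.log Y)) ^ B ≤ 2 ^ |B| * Real.log (Real.log Y) ^ |B| := by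
    calc (1 + Real.log (Real.log Y)) ^ B ≤ (1 + Real.log (Real.log Y)) ^ |B| :=
          Real.rpow_le_rpow_of_exponent_le (by linarith) (le_abs_self B)
      _ ≤ (2 * Real.log (Real.log Y)) ^ |B| :=
          Real.rpow_le_rpow (by linarith) (by linarith) (abs_nonneg B)
      _ = _ := Real.mul_rpow (by norm_num) (by linarith)
  have h8 : 0 < (2 : ℝ) ^ |B| := by positivity
  calc C * (1 + Real.log (Real.log Y)) ^ B ≤
        C * (2 ^ |B| * Real.log (Real.log Y) ^ |B|) := mul_le_mul_of_nonneg_left h7 hC.le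
    _ ≤ C * (2 ^ |B| * (ε / (C * 2 ^ |B|) * Real.log Y)) := by
        refine mul_le_mul_of_nonneg_left ?_ hC.le
        exact mul_le_mul_of_nonneg_left h5 h8.le
    _ = ε * Real.log Y := by
        field_simp

variable {K : Type} [Field K] [NumberField K] {p : ℕ} {ζ : K} {Ω : Type} [Field Ω]
  [Algebra K Ω] [IsAlgClosure K Ω] {m l w N : ℕ} {P R : Type} [Group P] [Group R]

omit [NumberField K] [Algebra K Ω] [IsAlgClosure K Ω] in
theorem w_cen [NeZero p] (Dg : GP p m l w N P R) (i₀ : Fin N) (hi : Dg.q (Dg.g i₀) = 1) :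
    Cen Dg.cr i₀ := by
  constructor
  · change Multiplicative.toAdd (Dg.π (Dg.q (Dg.g i₀))) = 0
    rw [hi, map_one, toAdd_one]
  · change ann0 (Dg.C i₀) = ⊥
    rw [eq_bot_iff]
    intro θ hθ
    have h1 : ∀ u ∈ Dg.C i₀, dt θ u = 0 := hθ
    have h2 : ∀ u, u ∈ Dg.C i₀ := by
      intro u
      obtain ⟨r, hr⟩ := Dg.πs (Multiplicative.ofAdd u)
      obtain ⟨x, hx⟩ := Dg.qs r
      refine ⟨x, (Dg.wcen _ hi x).symm, ?_⟩
      rw [hx, hr, toAdd_ofAdd]
    rw [Submodule.mem_bot]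
    funext k
    have h3 := h1 (Pi.single k 1) (h2 _)
    unfold dt at h3
    rw [Finset.sum_eq_single k (fun j _ hj => by rw [Pi.single_eq_of_ne hj, mul_zero])
      (fun h => absurd (Finset.mem_univ k) h), Pi.single_eq_same, mul_one] at h3
    exact h3

/-- a coefficient bounded by `FW`, with the phase of a class contained in `W` -/
theorem mlk [NeZero p] [Finite P] [Finite R] (hp : p.Prime) (hp2 : MOne p K)
    (hζ : IsPrimitiveRoot ζ p) (hz : Z2 p K) (D : RD K p ζ) (L : LDs D.toRD0 Ω) (Fr : FR L)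
    (Dg : GP p m l w N P R) (i₀ : Fin N) (hi : Dg.q (Dg.g i₀) = 1)
    (κ : Fin D.r → ZMod p) (hκ : κ ≠ 0) (b : Fin m → Kˣ) (hb : BS2 D.toRD0 b ∅) (C₁ : ℝ)
    (Ψ : (Fin N → Finset (Pl K)) → ℂ) (hΨ : ∀ f n, Ψ (Function.update f i₀ n) = Ψ f)
    (hΨ' : ∀ f, Dj f → (∀ i, ∀ v ∈ f i, D.Gd v) →
      ‖Ψ f‖ ≤ C₁ * FW Dg Fr b ∅ (fun _ _ => 1) f) :
    Neg N fun Y => ∑ f ∈ Fintype.piFinset (fun _ : Fin N => GF D.toRD0 Y),
      if Fa D.toRD0 Dg.cr b Y f then Ψ f * ep p (dt κ (qf D.toRD0 (f i₀))) else 0 := by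
  have hN : 1 ≤ N := by
    have := i₀.2
    omega
  obtain ⟨C₂, hC₂, hfw⟩ := fw_le hp hζ L Fr Dg
  obtain ⟨B₁, hB₁⟩ : ∃ B₁ : ℝ, B₁ = (|C₁| + 1) * C₂ := ⟨_, rfl⟩
  have hB₁0 : 0 < B₁ := by
    rw [hB₁]
    have := abs_nonneg C₁
    positivity
  obtain ⟨C₃, B₃, Y₃, hC₃, hB₃, hY₃, hsu⟩ := suo hp hp2 hζ hz D L Fr Dg hN
  intro ε hε
  -- the large part
  have hlg : ∃ (C δ : ℝ) (A : ℕ), 0 < C ∧ 0 < δ ∧ ∀ X z : ℝ, 1 ≤ X → 1 ≤ z →
      ‖∑ f ∈ Fintype.piFinset (fun _ : Fin N => GF D.toRD0 X),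
        (if Dj f ∧ ∏ i, nr (f i) ≤ X ∧ SpR Dg.cr b f ∧ z < nr (f i₀) then
          Ψ f * ep p (dt κ (qf D.toRD0 (f i₀))) else 0)‖ ≤
        C * X * z ^ (-δ) * (1 + Real.log X) ^ A := by
    obtain ⟨N', rfl⟩ : ∃ N', N = N' + 1 := ⟨N - 1, by omega⟩
    obtain ⟨C, δ, A, hC, hδ, h⟩ := mlg hp hζ D Dg.cr i₀ (w_cen Dg i₀ hi) κ hκ C₂ (by linarith)
    refine ⟨B₁ * C, δ, A, by positivity, hδ, fun X z hX hz => ?_⟩
    have h1 := h X z hX hz b (fun f => ((B₁⁻¹ : ℝ) : ℂ) * Ψ f) (fun f n => by rw [hΨ])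
      (fun f hf hG => by
        rw [norm_mul, Complex.norm_real, Real.norm_of_nonneg (by positivity)]
        have h2 := hΨ' f hf hG
        have h3 := hfw b ∅ (fun _ _ => 1) f
        have h4 := fw_nonneg Dg Fr b ∅ (fun _ _ => 1) f
        have h5 : ‖Ψ f‖ ≤ B₁ * C₂ ^ (∑ i, (f i).card) := by
          refine h2.trans ?_
          calc C₁ * FW Dg Fr b ∅ (fun _ _ => 1) f ≤ (|C₁| + 1) * FW Dg Fr b ∅ (fun _ _ => 1) f :=
                mul_le_mul_of_nonneg_right (by linarith [le_abs_self C₁]) h4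
            _ ≤ (|C₁| + 1) * (C₂ * C₂ ^ (∑ i, (f i).card)) :=
                mul_le_mul_of_nonneg_left h3 (by positivity)
            _ = _ := by rw [hB₁]; ring
        rw [inv_mul_le_iff₀ hB₁0]
        exact h5)
    have h6 : ∑ f ∈ Fintype.piFinset (fun _ : Fin (N' + 1) => GF D.toRD0 X),
        (if Dj f ∧ ∏ i, nr (f i) ≤ X ∧ SpR Dg.cr b f ∧ z < nr (f i₀) then
          ((B₁⁻¹ : ℝ) : ℂ) * Ψ f * ep p (dt κ (qf D.toRD0 (f i₀))) else 0) =
        ((B₁⁻¹ : ℝ) : ℂ) * ∑ f ∈ Fintype.piFinset (fun _ : Fin (N' + 1) => GF D.toRD0 X),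
        (if Dj f ∧ ∏ i, nr (f i) ≤ X ∧ SpR Dg.cr b f ∧ z < nr (f i₀) then
          Ψ f * ep p (dt κ (qf D.toRD0 (f i₀))) else 0) := by
      rw [Finset.mul_sum]
      refine Finset.sum_congr rfl fun f _ => ?_
      split_ifs
      · ring
      · rw [mul_zero]
    rw [h6, norm_mul, Complex.norm_real, Real.norm_of_nonneg (by positivity),
      inv_mul_le_iff₀ hB₁0] at h1
    refine h1.trans (le_of_eq ?_)
    ring
  obtain ⟨C₄, δ, A, hC₄, hδ, hlg⟩ := hlg
  obtain ⟨Y₅, hY₅, h5⟩ := asy1 C₄ δ (ε / 2) A hC₄ hδ (by positivity)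
  obtain ⟨Y₆, hY₆, h6⟩ := asy2 ((|C₁| + 1) * C₃) B₃ (ε / 2) (by positivity) (by positivity)
  refine ⟨max Y₃ (max Y₅ Y₆), hY₃.trans (le_max_left _ _), fun Y hY => ?_⟩
  have hYa : Y₃ ≤ Y := (le_max_left _ _).trans hY
  have hYb : Y₅ ≤ Y := (le_max_left _ _).trans ((le_max_right _ _).trans hY)
  have hYc : Y₆ ≤ Y := (le_max_right _ _).trans ((le_max_right _ _).trans hY)
  have hY3 : 3 ≤ Y := hY₃.trans hYa
  have hY0 : 0 < Y := by linarith
  have hl1 : 1 ≤ Real.log Y := (Real.le_log_iff_exp_le hY0).2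
    (Real.exp_one_lt_three.le.trans hY3)
  have hll : 0 ≤ Real.log (Real.log Y) := Real.log_nonneg hl1
  have hthr : 1 ≤ thr Y 1 := by
    unfold thr
    exact Real.one_le_exp (pow_nonneg hll _)
  have hsplit : (∑ f ∈ Fintype.piFinset (fun _ : Fin N => GF D.toRD0 Y),
      if Fa D.toRD0 Dg.cr b Y f then Ψ f * ep p (dt κ (qf D.toRD0 (f i₀))) else 0) =
      (∑ f ∈ Fintype.piFinset (fun _ : Fin N => GF D.toRD0 Y),
        (if Dj f ∧ ∏ i, nr (f i) ≤ Y ∧ SpR Dg.cr b f ∧ thr Y 1 < nr (f i₀) then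
          Ψ f * ep p (dt κ (qf D.toRD0 (f i₀))) else 0)) +
      ∑ f ∈ Fintype.piFinset (fun _ : Fin N => GF D.toRD0 Y),
        (if Fa D.toRD0 Dg.cr b Y f ∧ ¬ thr Y 1 < nr (f i₀) then
          Ψ f * ep p (dt κ (qf D.toRD0 (f i₀))) else 0) := by
    rw [← Finset.sum_add_distrib]
    refine Finset.sum_congr rfl fun f _ => ?_
    unfold Fa
    by_cases h1 : Dj f ∧ ∏ i, nr (f i) ≤ Y ∧ SpR Dg.cr b f
    · by_cases h2 : thr Y 1 < nr (f i₀)
      · rw [if_pos h1, if_pos ⟨h1.1, h1.2.1, h1.2.2, h2⟩, if_neg (fun h => h.2 h2), add_zero]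
      · rw [if_pos h1, if_neg (fun h => h2 h.2.2.2), if_pos ⟨h1, h2⟩, zero_add]
    · rw [if_neg h1, if_neg (fun h => h1 ⟨h.1, h.2.1, h.2.2.1⟩), if_neg (fun h => h1 h.1),
        add_zero]
  have hsm : ‖∑ f ∈ Fintype.piFinset (fun _ : Fin N => GF D.toRD0 Y),
        (if Fa D.toRD0 Dg.cr b Y f ∧ ¬ thr Y 1 < nr (f i₀) then
          Ψ f * ep p (dt κ (qf D.toRD0 (f i₀))) else 0)‖ ≤
      (|C₁| + 1) * ∑ f ∈ Fintype.piFinset (fun _ : Fin N => GF D.toRD0 Y),
        if Fa D.toRD0 Dg.cr b Y f ∧ ¬ Big (thr Y 1) f then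
          FW Dg Fr b ∅ (fun _ _ => 1) f else 0 := by
    rw [Finset.mul_sum]
    refine (norm_sum_le _ _).trans (Finset.sum_le_sum fun f hf => ?_)
    rw [Fintype.mem_piFinset] at hf
    have h4 := fw_nonneg Dg Fr b ∅ (fun _ _ => 1) f
    have hc : 0 ≤ |C₁| + 1 := by positivity
    by_cases h1 : Fa D.toRD0 Dg.cr b Y f ∧ ¬ thr Y 1 < nr (f i₀)
    · have h2 : ¬ Big (thr Y 1) f := by
        intro h
        obtain ⟨v, hv, hv'⟩ := h i₀
        apply h1.2
        refine hv'.trans_le ?_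
        have h3 : nr (f i₀) = (nm v : ℝ) * nr ((f i₀).erase v) := by
          unfold nr
          rw [Finset.mul_prod_erase (f i₀) (fun v => (nm v : ℝ)) hv]
        rw [h3]
        exact le_mul_of_one_le_right (Nat.cast_nonneg _) (one_le_nr _)
      rw [if_pos h1, if_pos ⟨h1.1, h2⟩, norm_mul, ep_norm, mul_one]
      refine (hΨ' f h1.1.1 (fun i v hv => (atupa_mem_GF.1 (hf i)).2 v hv)).trans ?_
      exact mul_le_mul_of_nonneg_right (by linarith [le_abs_self C₁]) h4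
    · rw [if_neg h1, norm_zero]
      split_ifs
      · positivity
      · rw [mul_zero]
  beta_reduce
  rw [hsplit]
  refine (norm_add_le _ _).trans ?_
  have h7 := hlg Y (thr Y 1) (by linarith) hthr
  have h8 := h5 Y hYb
  have h9 := hsu b hb Y hYa
  have h10 := h6 Y hYc
  have hpw : 1 ≤ Real.log Y ^ (N - 1) := one_le_pow₀ hl1
  have h11 : C₄ * Y * thr Y 1 ^ (-δ) * (1 + Real.log Y) ^ A ≤
      ε / 2 * Y * Real.log Y ^ (N - 1) := by
    calc C₄ * Y * thr Y 1 ^ (-δ) * (1 + Real.log Y) ^ A =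
          Y * (C₄ * thr Y 1 ^ (-δ) * (1 + Real.log Y) ^ A) := by ring
      _ ≤ Y * (ε / 2) := mul_le_mul_of_nonneg_left h8 hY0.le
      _ = ε / 2 * Y * 1 := by ring
      _ ≤ _ := mul_le_mul_of_nonneg_left hpw (by positivity)
  have h12 : Real.log Y ^ ((N : ℝ) - 2) = Real.log Y ^ (N - 1) / Real.log Y := by
    rw [show (N : ℝ) - 2 = ((N - 1 : ℕ) : ℝ) - 1 by
      rw [Nat.cast_sub hN]
      push_cast
      ring, Real.rpow_sub (by linarith), Real.rpow_natCast, Real.rpow_one]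
  rw [h12] at h9
  have h13 : (|C₁| + 1) * (C₃ * Y * (Real.log Y ^ (N - 1) / Real.log Y) *
      (1 + Real.log (Real.log Y)) ^ B₃) ≤ ε / 2 * Y * Real.log Y ^ (N - 1) := by
    have hlp : 0 < Real.log Y := by linarith
    calc (|C₁| + 1) * (C₃ * Y * (Real.log Y ^ (N - 1) / Real.log Y) *
          (1 + Real.log (Real.log Y)) ^ B₃) =
          Y * Real.log Y ^ (N - 1) * (((|C₁| + 1) * C₃ * (1 + Real.log (Real.log Y)) ^ B₃) /
            Real.log Y) := by ring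
      _ ≤ Y * Real.log Y ^ (N - 1) * (ε / 2) := by
          refine mul_le_mul_of_nonneg_left ?_ (by positivity)
          rw [div_le_iff₀ hlp]
          exact h10
      _ = _ := by ring
  have h14 := hsm.trans (mul_le_mul_of_nonneg_left h9 (by positivity))
  calc _ ≤ C₄ * Y * thr Y 1 ^ (-δ) * (1 + Real.log Y) ^ A +
        (|C₁| + 1) * (C₃ * Y * (Real.log Y ^ (N - 1) / Real.log Y) *
          (1 + Real.log (Real.log Y)) ^ B₃) := add_le_add h7 h14
    _ ≤ ε / 2 * Y * Real.log Y ^ (N - 1) + ε / 2 * Y * Real.log Y ^ (N - 1) :=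
        add_le_add h11 h13
    _ = _ := by ring

end H77.S0T
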