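import Pool.Agent.H77.S0T.Le
import Pool.Agent.H77.S0T.Ld

/-!
# H77-S0T-LF: the number of lifts to P: equidistribution at S0 (MP_b39724_nt)

`m1x`: the number of homomorphisms to `P` with given data and equal to `φ₁` at `S0` is on average a constant times the number of `ρ` with local lifts.
-/

set_option autoImplicit false

open scoped NumberField
open IsDedekindDomain
open scoped Classical

noncomputable section

namespace H77.S0T

open H63.MA H38.BB H38.BG H57.PC H57.BRA H63.BU H77.PC3 H57.CC H89.BRG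

theorem neg_cmul {N : ℕ} (c : ℂ) (F : ℝ → ℂ) (h : Neg N F) : Neg N fun Y => c * F Y := by
  intro ε hε
  obtain ⟨Y₀, hY₀, h1⟩ := h (ε / (‖c‖ + 1)) (by positivity)
  refine ⟨Y₀, hY₀, fun Y hY => ?_⟩
  have h2 := h1 Y hY
  have hl : 0 ≤ Real.log Y := Real.log_nonneg (by linarith)
  have hY0 : 0 < Y := by linarith
  have h3 : 0 < ‖c‖ + 1 := by positivity
  rw [norm_mul]
  calc ‖c‖ * ‖F Y‖ ≤ (‖c‖ + 1) * ‖F Y‖ :=
        mul_le_mul_of_nonneg_right (by linarith) (norm_nonneg _)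
    _ ≤ (‖c‖ + 1) * (ε / (‖c‖ + 1) * Y * Real.log Y ^ (N - 1)) :=
        mul_le_mul_of_nonneg_left h2 h3.le
    _ = _ := by field_simp

theorem neg_add {N : ℕ} (F G : ℝ → ℂ) (h : Neg N F) (h' : Neg N G) :
    Neg N fun Y => F Y + G Y := by
  intro ε hε
  obtain ⟨Y₀, hY₀, h1⟩ := h (ε / 2) (by positivity)
  obtain ⟨Y₁, hY₁, h2⟩ := h' (ε / 2) (by positivity)
  refine ⟨max Y₀ Y₁, hY₀.trans (le_max_left _ _), fun Y hY => ?_⟩
  refine (norm_add_le _ _).trans ((add_le_add (h1 Y ((le_max_left _ _).trans hY))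
    (h2 Y ((le_max_right _ _).trans hY))).trans (le_of_eq ?_))
  ring

theorem neg_zero {N : ℕ} : Neg N fun _ => 0 := by
  intro ε hε
  refine ⟨3, le_rfl, fun Y hY => ?_⟩
  have hl : 0 ≤ Real.log Y := Real.log_nonneg (by linarith)
  rw [norm_zero]
  positivity

theorem neg_sum {N : ℕ} {ι : Type} (s : Finset ι) (F : ι → ℝ → ℂ) (h : ∀ i ∈ s, Neg N (F i)) :
    Neg N fun Y => ∑ i ∈ s, F i Y := by
  induction s using Finset.induction_on with
  | empty => simpa using neg_zero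
  | insert a s ha ih =>
    have h1 := neg_add (F a) (fun Y => ∑ i ∈ s, F i Y) (h a (Finset.mem_insert_self a s))
      (ih fun i hi => h i (Finset.mem_insert_of_mem hi))
    intro ε hε
    obtain ⟨Y₀, hY₀, h2⟩ := h1 ε hε
    refine ⟨Y₀, hY₀, fun Y hY => ?_⟩
    beta_reduce
    rw [Finset.sum_insert ha]
    exact h2 Y hY

variable {K : Type} [Field K] [NumberField K] {p : ℕ} {ζ : K} {Ω : Type} [Field Ω]
  [Algebra K Ω] [IsAlgClosure K Ω] {m l w N : ℕ} {P R : Type} [Group P] [Group R]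

omit [IsAlgClosure K Ω] in
theorem fwt_le [NeZero p] {D : RD0 K p ζ} {L : LDs D Ω} (Q : DP K Ω) (Fr : FR L)
    (Dg : GP p m l w N P R) (b : Fin m → Kˣ) (ρ₁ : Gal(Ω/K) →* R)
    (f : Fin N → Finset (Pl K)) :
    FWT Q Dg Fr b ρ₁ f ≤ FW Dg Fr b ∅ (fun _ _ => 1) f := by
  unfold FWT FW
  refine Finset.sum_le_sum_of_subset_of_nonneg (Finset.filter_subset _ _) fun ρ _ _ => ?_
  split_ifs
  · positivity
  · exact le_rfl

/-- `FPT` as the part of `PF` with `Teq` -/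
theorem fpt_eq [NeZero p] [Finite P] (hp : p.Prime) (h2 : p ≠ 2) (hp2 : MOne p K)
    (hζ : IsPrimitiveRoot ζ p) (hz : Z2 p K) {D : RD0 K p ζ} {L : LDs D Ω} (Q : DP K Ω)
    (Fr : FR L) (Dg : GP p m l w N P R) (b : Fin m → Kˣ) (f : Fin N → Finset (Pl K))
    (hdj : Dj f) (hG : ∀ i, ∀ v ∈ f i, D.Gd v) (φ₁ : Gal(Ω/K) →* P) (h₁ : H38.ML.FT φ₁) :
    FPT L Q Dg b f φ₁ = ((PFf L Q Dg b f φ₁).filter fun φ => Teq D.S0 Q φ φ₁ :
      Finset (Gal(Ω/K) →* P)) := by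
  ext φ
  rw [Finset.mem_coe, Finset.mem_filter, mem_PFf hp h2 hp2 hζ hz Q Fr Dg b f hdj hG φ₁ h₁]
  constructor
  · rintro ⟨a0, a1, a2, a3, a4⟩
    exact ⟨⟨a0, a1, a3, a4⟩, a2⟩
  · rintro ⟨⟨a0, a1, a3, a4⟩, a2⟩
    exact ⟨a0, a1, a2, a3, a4⟩

theorem m1x [NeZero p] [Finite P] [Finite R] (hp : p.Prime) (h2 : p ≠ 2)
    (hζ : IsPrimitiveRoot ζ p) (hz : Z2 p K) (D : RD K p ζ) (L : LDs D.toRD0 Ω) (Q : DP K Ω)
    (Fr : FR L) (Dg : GP p m l w N P R) (hW : WTy Dg) (φ₁ : Gal(Ω/K) →* P)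
    (h₁ : H38.ML.FT φ₁) :
    ∃ h₂ : ℝ, 0 < h₂ ∧ ∀ b : Fin m → Kˣ, BS2 D.toRD0 b ∅ →
      Neg N fun Y => (((∑ f ∈ Fintype.piFinset (fun _ : Fin N => GF D.toRD0 Y),
        if Fa D.toRD0 Dg.cr b Y f then ((FPT L Q Dg b f φ₁).ncard : ℝ) -
          h₂ * FWT Q Dg Fr b (Dg.q.comp φ₁) f else 0 : ℝ)) : ℂ) := by
  have hp2 : MOne p K := mone_odd hp h2 K
  obtain ⟨k, σ, hσ⟩ := vs_ex hp hp2 hζ D.toRD0 L Q P w
  obtain ⟨X, hX⟩ : ∃ X : VP K Ω p w k P, X = ⟨σ, fun j => φ₁ (σ j), fun _ => 0⟩ := ⟨_, rfl⟩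
  have hok : ∀ η : Fin k → Fin w → ZMod p, (X.wi η).Ok D.toRD0 Q := by
    intro η
    rw [hX]
    exact hσ _ η
  have hok0 : X.Ok D.toRD0 Q := by
    rw [hX]
    exact hσ _ _
  have hr : ∀ (η : Fin k → Fin w → ZMod p) j, (X.wi η).r j = φ₁ ((X.wi η).σ j) := by
    intro η j
    rw [hX]
    rfl
  have hr0 : ∀ j, X.r j = φ₁ (X.σ j) := by
    intro j
    rw [hX]
  obtain ⟨N₀, hN₀⟩ : ∃ N₀ : ℝ, N₀ = Fintype.card (Fin k → Fin w → ZMod p) := ⟨_, rfl⟩
  have hN₀0 : 0 < N₀ := by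
    rw [hN₀]
    exact_mod_cast Fintype.card_pos
  obtain ⟨T, hT⟩ : ∃ T : Finset (Fin k → Fin w → ZMod p),
      T = Finset.univ.filter fun η => (X.wi η).Tr ζ := ⟨_, rfl⟩
  have hTm : ∀ η, η ∈ T ↔ (X.wi η).Tr ζ := by
    intro η
    rw [hT, Finset.mem_filter]
    exact and_iff_right (Finset.mem_univ _)
  have hT0 : 0 < (T.card : ℝ) := by
    have h3 : (0 : Fin k → Fin w → ZMod p) ∈ T := by
      rw [hTm]
      intro y c
      refine Finset.sum_eq_zero fun j _ => ?_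
      have h4 : dt ((X.wi 0).η j) y = 0 := by
        change dt 0 y = 0
        unfold dt
        simp
      rw [h4, zero_mul]
    exact_mod_cast Finset.card_pos.2 ⟨_, h3⟩
  obtain ⟨W₀, hW₀⟩ : ∃ W₀ : ℝ, W₀ = (Wu (gx3 Dg) L).ncard := ⟨_, rfl⟩
  have hW₀0 : 0 < W₀ := by
    rw [hW₀]
    exact_mod_cast wu_pos (gx3 Dg) hp hζ L
  refine ⟨T.card * W₀ / N₀, by positivity, fun b hb => ?_⟩
  -- the single functionals
  have hneg : ∀ η ∈ (Finset.univ : Finset (Fin k → Fin w → ZMod p)) \ T,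
      Neg N fun Y => ∑ f ∈ Fintype.piFinset (fun _ : Fin N => GF D.toRD0 Y),
        if Fa D.toRD0 Dg.cr b Y f then Gph L Q Dg b φ₁ (X.wi η) f else 0 := by
    intro η hη
    rw [Finset.mem_sdiff, hTm] at hη
    rcases gph_dich hp h2 hp2 hζ hz Q Fr Dg hW φ₁ h₁ (X.wi η) (hok η) (hr η) hη.2 with
      h3 | ⟨i₀, κ, hi, hκ, h3⟩
    · have h4 : (fun Y : ℝ => ∑ f ∈ Fintype.piFinset (fun _ : Fin N => GF D.toRD0 Y),
          if Fa D.toRD0 Dg.cr b Y f then Gph L Q Dg b φ₁ (X.wi η) f else 0) = fun _ => 0 := by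
        funext Y
        refine Finset.sum_eq_zero fun f hf => ?_
        rw [Fintype.mem_piFinset] at hf
        split_ifs with h5
        · exact h3 b f h5.1 fun i v hv => (atupa_mem_GF.1 (hf i)).2 v hv
        · rfl
      rw [h4]
      exact neg_zero
    · have h4 : (fun Y : ℝ => ∑ f ∈ Fintype.piFinset (fun _ : Fin N => GF D.toRD0 Y),
          if Fa D.toRD0 Dg.cr b Y f then Gph L Q Dg b φ₁ (X.wi η) f else 0) =
          fun Y : ℝ => ∑ f ∈ Fintype.piFinset (fun _ : Fin N => GF D.toRD0 Y),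
          if Fa D.toRD0 Dg.cr b Y f then
            Gph L Q Dg b φ₁ (X.wi η) (Function.update f i₀ ∅) *
              ep p (dt κ (qf D.toRD0 (f i₀))) else 0 := by
        funext Y
        refine Finset.sum_congr rfl fun f hf => ?_
        rw [Fintype.mem_piFinset] at hf
        split_ifs with h5
        · exact h3 b f h5.1 fun i v hv => (atupa_mem_GF.1 (hf i)).2 v hv
        · rfl
      rw [h4]
      refine mlk hp hp2 hζ hz D L Fr Dg i₀ hi κ hκ b hb W₀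
        (fun f => Gph L Q Dg b φ₁ (X.wi η) (Function.update f i₀ ∅)) (fun f n => ?_)
        (fun f hdj hG => ?_)
      · rw [Function.update_idem]
      · have h5 := (gph_upd hp h2 hp2 hζ hz Q Fr Dg b φ₁ h₁ (X.wi η) (hok η) (hr η) i₀ hi f hdj
          hG).2
        have h6 := pf_card hp h2 hp2 hζ hz Q Fr Dg b f hdj hG φ₁ h₁
        have h7 : ‖Gph L Q Dg b φ₁ (X.wi η) (Function.update f i₀ ∅)‖ ≤
            ((PFf L Q Dg b (Function.update f i₀ ∅) φ₁).card : ℝ) := by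
          unfold Gph
          refine (norm_sum_le _ _).trans ?_
          rw [Finset.card_eq_sum_ones, Nat.cast_sum]
          refine Finset.sum_le_sum fun φ _ => ?_
          unfold phP
          rw [ep_norm, Nat.cast_one]
        refine h7.trans ?_
        rw [h5, h6, hW₀]
        exact mul_le_mul_of_nonneg_left (fwt_le Q Fr Dg b _ f) (Nat.cast_nonneg _)
  have hall := neg_cmul ((N₀ : ℂ)⁻¹) _ (neg_sum _ _ hneg)
  have hmain : (fun Y : ℝ => (((∑ f ∈ Fintype.piFinset (fun _ : Fin N => GF D.toRD0 Y),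
        if Fa D.toRD0 Dg.cr b Y f then ((FPT L Q Dg b f φ₁).ncard : ℝ) -
          T.card * W₀ / N₀ * FWT Q Dg Fr b (Dg.q.comp φ₁) f else 0 : ℝ)) : ℂ)) =
      fun Y : ℝ => (N₀ : ℂ)⁻¹ * ∑ η ∈ (Finset.univ : Finset (Fin k → Fin w → ZMod p)) \ T,
        ∑ f ∈ Fintype.piFinset (fun _ : Fin N => GF D.toRD0 Y),
          if Fa D.toRD0 Dg.cr b Y f then Gph L Q Dg b φ₁ (X.wi η) f else 0 := by
    funext Y
    rw [Finset.sum_comm, Finset.mul_sum, Complex.ofReal_sum]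
    refine Finset.sum_congr rfl fun f hf => ?_
    rw [Fintype.mem_piFinset] at hf
    by_cases h5 : Fa D.toRD0 Dg.cr b Y f
    swap
    · simp only [if_neg h5, Finset.sum_const_zero, mul_zero, Complex.ofReal_zero]
    simp only [if_pos h5]
    have hdj := h5.1
    have hG : ∀ i, ∀ v ∈ f i, D.Gd v := fun i v hv => (atupa_mem_GF.1 (hf i)).2 v hv
    have hmem := mem_PFf hp h2 hp2 hζ hz Q Fr Dg b f hdj hG φ₁ h₁
    have hRS : ∀ φ ∈ PFf L Q Dg b f φ₁, Teq D.toRD0.S0 Q (Dg.q.comp φ) (Dg.q.comp φ₁) := by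
      intro φ hφ
      have h4 := ((hmem φ).1 hφ).2.1
      unfold RHS at h4
      rw [Finset.mem_filter] at h4
      exact h4.2
    -- all functionals
    have e1 : ∑ η : Fin k → Fin w → ZMod p, Gph L Q Dg b φ₁ (X.wi η) f =
        (N₀ : ℂ) * ((FPT L Q Dg b f φ₁).ncard : ℂ) := by
      rw [fpt_eq hp h2 hp2 hζ hz Q Fr Dg b f hdj hG φ₁ h₁, Set.ncard_coe_finset]
      unfold Gph
      rw [Finset.sum_comm, Finset.card_filter, Nat.cast_sum, Finset.mul_sum]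
      refine Finset.sum_congr rfl fun φ hφ => ?_
      rw [teq_fou hp hζ Dg X hok0 φ φ₁ ((hmem φ).1 hφ).1 h₁ (hRS φ hφ) hr0, hN₀]
      split_ifs
      · push_cast
        ring
      · push_cast
        ring
    have e2 : ∑ η ∈ T, Gph L Q Dg b φ₁ (X.wi η) f =
        (T.card : ℂ) * ((PFf L Q Dg b f φ₁).card : ℂ) := by
      rw [← nsmul_eq_mul, ← Finset.sum_const]
      refine Finset.sum_congr rfl fun η hη => ?_
      unfold Gph
      rw [Finset.card_eq_sum_ones, Nat.cast_sum]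
      refine Finset.sum_congr rfl fun φ hφ => ?_
      rw [ph_tr hp hζ Dg (X.wi η) (hok η) ((hTm η).1 hη) φ φ₁ ((hmem φ).1 hφ).1 h₁ (hRS φ hφ)
        (hr η), Nat.cast_one]
    have e3 : ∑ η ∈ (Finset.univ : Finset (Fin k → Fin w → ZMod p)) \ T,
        Gph L Q Dg b φ₁ (X.wi η) f = (N₀ : ℂ) * ((FPT L Q Dg b f φ₁).ncard : ℂ) -
          (T.card : ℂ) * ((PFf L Q Dg b f φ₁).card : ℂ) := by
      rw [← e1, ← e2, eq_sub_iff_add_eq]
      exact Finset.sum_sdiff (Finset.subset_univ T)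
    have e4 : ((PFf L Q Dg b f φ₁).card : ℂ) =
        (W₀ : ℂ) * (FWT Q Dg Fr b (Dg.q.comp φ₁) f : ℂ) := by
      have h6 := pf_card hp h2 hp2 hζ hz Q Fr Dg b f hdj hG φ₁ h₁
      rw [← hW₀] at h6
      have h7 := congrArg (fun x : ℝ => (x : ℂ)) h6
      push_cast at h7
      exact h7
    have hN₀c : (N₀ : ℂ) ≠ 0 := by exact_mod_cast hN₀0.ne'
    rw [e3, e4]
    push_cast
    field_simp
  rw [hmain]
  exact hall

end H77.S0T
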