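import Pool.Agent.H77.S0T.Lb
import Pool.Agent.H77.PC3.CKu
import Pool.Agent.H77.PT.Gtw
import Pool.Agent.H63.MC.CTyp

/-!
# H77-S0T-LG: the surjective homomorphisms as a sum over level one data and families (MP_b39724_nt)

* `pf_fin2`: `PF` is finite (without `Z2`). `gqp Dg`: `P` as a group with projections. `ty_uni`: the family is determined by the homomorphism.
* `sy3x`: the decomposition.
-/

set_option autoImplicit false

open scoped NumberField
open IsDedekindDomain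
open scoped Classical

noncomputable section

namespace H77.S0T

open H63.MA H38.BB H38.BG H57.PC H57.BRA H63.BU H77.PC3 H57.CC H89.BRG H77.AB H77.PT

variable {K : Type} [Field K] [NumberField K] {Ω : Type} [Field Ω] [Algebra K Ω]
  [IsAlgClosure K Ω] {p : ℕ} {ζ : K} {D : RD0 K p ζ} {P R : Type} [Group P] [Group R]
  {m l w N : ℕ}

theorem pf_fin2 [NeZero p] [Finite P] (hp : p.Prime)
    (hζ : IsPrimitiveRoot ζ p) {L : LDs D Ω} (Q : DP K Ω)
    (Dg : GP p m l w N P R) (b : Fin m → Kˣ) (f : Fin N → Finset (Pl K))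
    (φ₁ : Gal(Ω/K) →* P) : (PF L Q Dg b f φ₁).Finite := by
  have hfin : Fintype P := Fintype.ofFinite P
  obtain ⟨Wf, hWf⟩ : ∃ Wf : Finset (Gal(Ω/K) →* P), Wf = (wu_fin (gx3 Dg) hp hζ L).toFinset :=
    ⟨_, rfl⟩
  have hWm : ∀ χ, χ ∈ Wf ↔ χ ∈ Wu (gx3 Dg) L := by
    intro χ
    rw [hWf, Set.Finite.mem_toFinset]
  have hex : ∀ (ρ : Gal(Ω/K) →* R) (e : (i : Fin N) → (↥(f i) → P)),
      ∃ ψ : Gal(Ω/K) →* P, (∃ φ ∈ PF L Q Dg b f φ₁, Dg.q.comp φ = ρ ∧
        ∀ i (v : ↥(f i)), φ (L.t v.1) = e i v) →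
      ψ ∈ PF L Q Dg b f φ₁ ∧ Dg.q.comp ψ = ρ ∧ ∀ i (v : ↥(f i)), ψ (L.t v.1) = e i v := by
    intro ρ e
    by_cases h : ∃ φ ∈ PF L Q Dg b f φ₁, Dg.q.comp φ = ρ ∧
        ∀ i (v : ↥(f i)), φ (L.t v.1) = e i v
    · obtain ⟨φ, h1, h2, h3⟩ := h
      exact ⟨φ, fun _ => ⟨h1, h2, h3⟩⟩
    · exact ⟨1, fun h' => absurd h' h⟩
  choose ψ hψ using hex
  let F : (Gal(Ω/K) →* R) × ((i : Fin N) → (↥(f i) → P)) × (Gal(Ω/K) →* P) →
      (Gal(Ω/K) →* P) := fun z =>
    if h : ∀ σ, (gx3 Dg).q (z.2.2 σ) = 1 then cxt (gx3 Dg) z.2.2 (ψ z.1 z.2.1) h else 1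
  refine Set.Finite.subset (Finset.finite_toSet
    (((RHS L Q Dg b f (Dg.q.comp φ₁)) ×ˢ (Finset.univ : Finset ((i : Fin N) → (↥(f i) → P))) ×ˢ
      Wf).image F)) fun φ hφ => ?_
  rw [Finset.mem_coe, Finset.mem_image]
  obtain ⟨e, he⟩ : ∃ e : (i : Fin N) → (↥(f i) → P), e = fun i v => φ (L.t v.1) := ⟨_, rfl⟩
  obtain ⟨g1, g2, g3⟩ := hψ (Dg.q.comp φ) e ⟨φ, hφ, rfl, fun i v => by rw [he]⟩
  obtain ⟨χ, hχ, h3⟩ := pf_diff hp hζ hφ g1 g2.symm (fun i v hv => by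
    rw [g3 i ⟨v, hv⟩, he])
  refine ⟨(Dg.q.comp φ, e, χ), ?_, ?_⟩
  · rw [Finset.mem_product, Finset.mem_product]
    exact ⟨hφ.2.1, Finset.mem_univ _, (hWm χ).2 hχ⟩
  · apply MonoidHom.ext
    intro σ
    have h4 : F (Dg.q.comp φ, e, χ) = cxt (gx3 Dg) χ (ψ (Dg.q.comp φ) e) hχ.2.1 :=
      dif_pos hχ.2.1
    rw [h4, cxt_apply, h3]

/-- `P` as a group with projections -/
def gqp (Dg : GP p m l w N P R) : GQ p m l w N P P PUnit R where
  Dg := Dg
  pr := MonoidHom.id P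
  prs x := ⟨x, rfl⟩
  ph := 1
  phs _ := ⟨1, rfl⟩
  inj _ _ h _ := h
  hH _ _ := rfl
  cl := clP Dg
  hcl := fun _ => rfl

omit [IsAlgClosure K Ω] in
/-- the type is determined -/
theorem ty_one {L : LDs D Ω} (Dg : GP p m l w N P R) (φ : Gal(Ω/K) →* P) (i j : Fin N)
    (v : Pl K) (h : TyC (clP Dg) L φ i v) (h' : TyC (clP Dg) L φ j v) : i = j :=
  Dg.uni i j (h.2.1.symm.trans h'.2.1)

omit [IsAlgClosure K Ω] in
/-- the family is determined -/
theorem ty_uni [NeZero p] {L : LDs D Ω} {Q : DP K Ω} (Dg : GP p m l w N P R) (b : Fin m → Kˣ)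
    (f : Fin N → Finset (Pl K)) (φ₁ φ : Gal(Ω/K) →* P) (h : φ ∈ FPT L Q Dg b f φ₁) (i : Fin N)
    (v : Pl K) : v ∈ f i ↔ TyC (clP Dg) L φ i v := by
  obtain ⟨a0, a1, a2, a3, a4⟩ := h
  refine ⟨a3 i v, fun hv => ?_⟩
  have hram : ¬ ∀ τ ∈ inr L v, φ τ = 1 := by
    intro h1
    have h2 := hv.2.1
    rw [h1 _ (uinr_t L v)] at h2
    obtain ⟨c, hc⟩ := isConj_iff.1 h2
    rw [mul_one, mul_inv_cancel] at hc
    exact Dg.ne i hc.symm
  by_contra hvi
  apply hram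
  refine a4 v hv.1.1 fun j hj => ?_
  have h1 := ty_one Dg φ i j v hv (a3 j v hj)
  rw [h1] at hvi
  exact hvi hj

theorem sy3x [NeZero p] [Finite P] [Finite R] (hp : p.Prime)
    (hζ : IsPrimitiveRoot ζ p) (D : RD0 K p ζ) (L : LDs D Ω) (Q : DP K Ω)
    (Dg : GP p m l w N P R) :
    ∃ Ub : Finset (Fin m → Kˣ), (∀ b ∈ Ub, BS2 D b ∅) ∧ ∀ (φ₁ : Gal(Ω/K) →* P) (Y : ℝ),
      (SY3 L Q Dg φ₁ Y).Finite ∧ (SY3 L Q Dg φ₁ Y).ncard = ∑ b ∈ Ub,
        ∑ f ∈ Fintype.piFinset (fun _ : Fin N => GF D Y),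
          if Fa D Dg.cr b Y f then (FPT L Q Dg b f φ₁).ncard else 0 := by
  obtain ⟨U, hU1, hU2, hU3⟩ := unit_reps2 hp D.S0
  refine ⟨Fintype.piFinset fun _ => U, fun b hb => ⟨fun v hv => absurd hv (Finset.notMem_empty v),
    fun k v hv _ => hU1 _ (Fintype.mem_piFinset.1 hb k) v hv⟩, fun φ₁ Y => ?_⟩
  have hfin : ∀ b f, (FPT L Q Dg b f φ₁).Finite := fun b f =>
    (pf_fin2 hp hζ Q Dg b f φ₁).subset fun φ hφ => ⟨hφ.1, hφ.2.1, hφ.2.2.2.1, hφ.2.2.2.2⟩
  obtain ⟨I, hI⟩ : ∃ I : Finset ((Fin m → Kˣ) × (Fin N → Finset (Pl K))),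
      I = (Fintype.piFinset fun _ => U) ×ˢ Fintype.piFinset (fun _ : Fin N => GF D Y) := ⟨_, rfl⟩
  obtain ⟨J, hJ⟩ : ∃ J : Finset ((Fin m → Kˣ) × (Fin N → Finset (Pl K))),
      J = I.filter fun z => Fa D Dg.cr z.1 Y z.2 := ⟨_, rfl⟩
  have hJm : ∀ z, z ∈ J ↔ ((∀ k, z.1 k ∈ U) ∧ ∀ i, z.2 i ∈ GF D Y) ∧ Fa D Dg.cr z.1 Y z.2 := by
    intro z
    rw [hJ, Finset.mem_filter, hI, Finset.mem_product, Fintype.mem_piFinset,
      Fintype.mem_piFinset]
  -- the decomposition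
  have hset : SY3 L Q Dg φ₁ Y = ((J.biUnion fun z => (hfin z.1 z.2).toFinset :
      Finset (Gal(Ω/K) →* P)) : Set (Gal(Ω/K) →* P)) := by
    ext φ
    rw [Finset.mem_coe, Finset.mem_biUnion]
    constructor
    · rintro ⟨s0, s1, s2, s3, s4⟩
      have hram := uinr_fin L φ s0
      have htf : ∀ i, {v | TyC (clP Dg) L φ i v}.Finite := fun i => hram.subset fun v hv => by
        refine ⟨hv.1.1, L.t v, uinr_t L v, fun h1 => ?_⟩
        have h2 := hv.2.1
        rw [h1] at h2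
        obtain ⟨c, hc⟩ := isConj_iff.1 h2
        rw [mul_one, mul_inv_cancel] at hc
        exact Dg.ne i hc.symm
      obtain ⟨f, hf⟩ : ∃ f : Fin N → Finset (Pl K), f = fun i => (htf i).toFinset := ⟨_, rfl⟩
      have hfm : ∀ i v, v ∈ f i ↔ TyC (clP Dg) L φ i v := by
        intro i v
        rw [hf, Set.Finite.mem_toFinset]
        rfl
      have hnotf : ∀ v, v ∉ D.S0 → (∀ i, v ∉ f i) → ∀ τ ∈ inr L v, φ τ = 1 := by
        intro v hv hvf
        rcases s3 v hv with h | ⟨i, hi⟩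
        · exact h
        · exact absurd ((hfm i v).2 hi) (hvf i)
      obtain ⟨b, hb, hbE, hk, hsp⟩ := cku hp hζ D L (gqp Dg) U ⟨hU1, hU2⟩ φ s0 s1 f ∅ hfm
        (fun v => by
          constructor
          · intro h
            exact absurd h (Finset.notMem_empty v)
          · rintro ⟨⟨hv, τ, hτ, hne⟩, h2⟩
            exfalso
            apply hne
            exact hnotf v hv (fun i hi => h2 i ((hfm i v).1 hi)) τ hτ)
      have hbU : ∀ k, b k ∈ U := by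
        intro k
        unfold Bb at hb
        have h3 := Fintype.mem_piFinset.1 hb k
        unfold XE at h3
        obtain ⟨⟨u, e⟩, he, h4⟩ := Finset.mem_image.1 h3
        rw [Finset.mem_product] at he
        have h5 : b k = u := by
          rw [← h4]
          simp
        rw [h5]
        exact he.1
      have hdj : Dj f := by
        intro i j hij
        rw [Finset.disjoint_left]
        intro v hv hv'
        exact hij (ty_one Dg φ i j v ((hfm i v).1 hv) ((hfm j v).1 hv'))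
      have hnr : ∏ i, nr (f i) ≤ Y := by
        have h3 := s4 (Finset.univ.biUnion f) (fun v hv => by
          obtain ⟨i, -, hi⟩ := Finset.mem_biUnion.1 hv
          have h4 := (hfm i v).1 hi
          refine ⟨h4.1.1, fun h1 => ?_⟩
          have h2 := h4.2.1
          rw [h1 _ (uinr_t L v)] at h2
          obtain ⟨c, hc⟩ := isConj_iff.1 h2
          rw [mul_one, mul_inv_cancel] at hc
          exact Dg.ne i hc.symm)
        rw [Finset.prod_biUnion (fun i _ j _ hij => hdj i j hij)] at h3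
        exact h3
      have hφ : φ ∈ FPT L Q Dg b f φ₁ := by
        refine ⟨s0, ?_, s2, fun i v hv => (hfm i v).1 hv, hnotf⟩
        unfold RHS
        rw [Finset.mem_filter, mem_RHf' hp hζ]
        refine ⟨⟨H38.ML.ft_comp _ _ s0, hk, fun i v hv => ?_,
          fun v hv => absurd hv (Finset.notMem_empty v), fun v hv _ hvf τ hτ => ?_⟩, ?_⟩
        · obtain ⟨g1, g2, g3⟩ := (hfm i v).1 hv
          refine ⟨Dg.q.map_isConj g2, fun τ hτ => ?_⟩
          rw [MonoidHom.comp_apply, ← map_pow, g3 τ hτ, map_one]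
        · rw [MonoidHom.comp_apply, hnotf v hv hvf τ hτ, map_one]
        · intro v hv σ hσ
          rw [MonoidHom.comp_apply, MonoidHom.comp_apply, s2 v hv σ hσ]
      refine ⟨(b, f), (hJm _).2 ⟨⟨hbU, fun i => ?_⟩, hdj, hnr, hsp⟩, ?_⟩
      · rw [atupa_mem_GF]
        refine ⟨?_, fun v hv => ((hfm i v).1 hv).1⟩
        refine le_trans ?_ hnr
        change nr (f i) ≤ _
        rw [← Finset.mul_prod_erase Finset.univ (fun i => nr (f i)) (Finset.mem_univ i)]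
        refine le_mul_of_one_le_right (by linarith [one_le_nr (f i)]) ?_
        exact atupa_prod_one f _
      · rw [Set.Finite.mem_toFinset]
        exact hφ
    · rintro ⟨⟨b, f⟩, hz, hφ⟩
      rw [Set.Finite.mem_toFinset] at hφ
      obtain ⟨⟨hbU, hfG⟩, hdj, hnr, hsp⟩ := (hJm _).1 hz
      have hty := ty_uni Dg b f φ₁ φ hφ
      obtain ⟨a0, a1, a2, a3, a4⟩ := hφ
      have hρ : Dg.q.comp φ ∈ RH L Dg b ∅ (fun _ _ => 1) f := by
        unfold RHS at a1
        rw [Finset.mem_filter] at a1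
        exact mem_RHf a1.1
      refine ⟨a0, ?_, a2, fun v hv => ?_, fun T hT => ?_⟩
      · rw [← MonoidHom.range_eq_top]
        refine gp_frat Dg _ fun y => ?_
        obtain ⟨σ, hσ⟩ := gtw_pi hp hζ L Dg b ∅ (fun _ _ => 1) f hsp _ hρ (Dg.π (Dg.q y))
        exact ⟨φ σ, ⟨σ, rfl⟩, hσ⟩
      · by_cases h : ∃ i, v ∈ f i
        · obtain ⟨i, hi⟩ := h
          exact Or.inr ⟨i, a3 i v hi⟩
        · exact Or.inl (a4 v hv fun i hi => h ⟨i, hi⟩)
      · have hsub : T ⊆ Finset.univ.biUnion f := by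
          intro v hv
          obtain ⟨h1, h2⟩ := hT v hv
          by_contra h3
          apply h2
          refine a4 v h1 fun i hi => h3 ?_
          exact Finset.mem_biUnion.2 ⟨i, Finset.mem_univ _, hi⟩
        refine le_trans ?_ hnr
        change ∏ v ∈ T, (nm v : ℝ) ≤ ∏ i, nr (f i)
        have h4 : ∏ i, nr (f i) = ∏ v ∈ Finset.univ.biUnion f, (nm v : ℝ) := by
          rw [Finset.prod_biUnion (fun i _ j _ hij => hdj i j hij)]
          rfl
        rw [h4, ← Finset.prod_sdiff hsub]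
        exact le_mul_of_one_le_left (Finset.prod_nonneg fun v _ => Nat.cast_nonneg _)
          (one_le_nr _)
  -- disjointness
  have hdis : ∀ z ∈ J, ∀ z' ∈ J, z ≠ z' →
      Disjoint (hfin z.1 z.2).toFinset (hfin z'.1 z'.2).toFinset := by
    rintro ⟨b, f⟩ hz ⟨b', f'⟩ hz' hne
    rw [Finset.disjoint_left]
    intro φ hφ hφ'
    rw [Set.Finite.mem_toFinset] at hφ hφ'
    apply hne
    have hff : f = f' := by
      funext i
      ext v
      rw [ty_uni Dg b f φ₁ φ hφ, ty_uni Dg b' f' φ₁ φ hφ']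
    subst hff
    refine Prod.ext ?_ rfl
    funext k
    have h1 := hφ.2.1
    have h2 := hφ'.2.1
    unfold RHS at h1 h2
    rw [Finset.mem_filter] at h1 h2
    have h3 : ∀ σ : Gal(Ω/K), kk p ζ (b k * (b' k)⁻¹) σ = 0 := by
      intro σ
      have e1 := (mem_RHf h1.1).2.1 σ k
      have e2 := (mem_RHf h2.1).2.1 σ k
      have e3 := e1.trans e2.symm
      rw [gtw_kk hp hζ, gtw_kk hp hζ, add_left_inj] at e3
      rw [kk_mul_arg hp hζ, ← zpow_neg_one, kk_zpow_arg hp hζ, e3]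
      push_cast
      ring
    obtain ⟨y, hy⟩ := (kk_eq_zero_iff (Ω := Ω) hp hζ _).1 h3
    obtain ⟨⟨hbU, -⟩, -⟩ := (hJm _).1 hz
    obtain ⟨⟨hbU', -⟩, -⟩ := (hJm _).1 hz'
    refine hU3 _ (hbU k) _ (hbU' k) y ?_
    change b k = b' k * y ^ p
    rw [hy, mul_comm (b' k), inv_mul_cancel_right]
  refine ⟨by rw [hset]; exact Finset.finite_toSet _, ?_⟩
  rw [hset, Set.ncard_coe_finset, Finset.card_biUnion hdis]
  have h5 : ∀ z ∈ J, (hfin z.1 z.2).toFinset.card = (FPT L Q Dg z.1 z.2 φ₁).ncard := fun z _ =>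
    (Set.ncard_eq_toFinset_card _ (hfin z.1 z.2)).symm
  rw [Finset.sum_congr rfl h5, hJ, Finset.sum_filter, hI, Finset.sum_product]

end H77.S0T
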