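import Pool.Agent.H57.CC.Def
import Pool.Agent.H89.BRG.Qd
import Pool.Agent.H77.PC3.CLh

/-!
# H77-S0T-LA: the homomorphisms to `P` with given data, first part (MP_b39724_nt)

* `cx_kl`, `cx_diff`, `cxk_all`: complements on central extensions.
* `Wu X D L`: the homomorphisms to the kernel which are trivial on all inertia groups outside `S0`; finite (`wu_fin`).
* `lft`: a homomorphism to `R` with local lifts, equal to `q ∘ φ₁` at `S0`, lifts to `P`.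
-/

set_option autoImplicit false

open scoped NumberField
open IsDedekindDomain
open scoped Classical

noncomputable section

namespace H77.S0T

open H63.MA H38.BB H38.BG H57.PC H57.BRA H63.BU H77.PC3 H57.CC H89.BRG

section gal

variable {K : Type} [Field K] {Ω : Type} [Field Ω] [Algebra K Ω] {p d : ℕ} {P R : Type}
  [Group P] [Group R] (X : CX p d P R)

/-- a lift on a subgroup makes the class trivial there -/
theorem cx_kl (φ₁ : Gal(Ω/K) →* P) (h₁ : H38.ML.FT φ₁) (ρ : Gal(Ω/K) →* R) (hρ : H38.ML.FT ρ)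
    (V : Subgroup Gal(Ω/K)) (h : ∀ σ ∈ V, X.q (φ₁ σ) = ρ σ) (k : Fin d) :
    Kl (pb (X.e k) ρ) (V : Set Gal(Ω/K)) := by
  have hq : ∀ σ ∈ V, X.q ((X.s (ρ σ))⁻¹ * φ₁ σ) = 1 := by
    intro σ hσ
    rw [map_mul, map_inv, cx_s, h σ hσ, inv_mul_cancel]
  refine ⟨fun σ => X.c k ((X.s (ρ σ))⁻¹ * φ₁ σ), ?_, fun σ hσ τ hτ => ?_⟩
  · exact glift_lev_comp2 ρ φ₁ (fun z => X.c k ((X.s z.1)⁻¹ * z.2)) (ft_lev ρ hρ) (ft_lev φ₁ h₁)
  · have h1 : (X.s (ρ (σ * τ)))⁻¹ * φ₁ (σ * τ) = X.E (ρ σ) (ρ τ) *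
        (((X.s (ρ σ))⁻¹ * φ₁ σ) * ((X.s (ρ τ))⁻¹ * φ₁ τ)) := by
      obtain ⟨a, ha⟩ : ∃ a, a = (X.s (ρ σ))⁻¹ * φ₁ σ := ⟨_, rfl⟩
      obtain ⟨b, hb⟩ : ∃ b, b = (X.s (ρ τ))⁻¹ * φ₁ τ := ⟨_, rfl⟩
      have ha' : φ₁ σ = X.s (ρ σ) * a := by rw [ha, mul_inv_cancel_left]
      have hb' : φ₁ τ = X.s (ρ τ) * b := by rw [hb, mul_inv_cancel_left]
      have hqa : X.q a = 1 := by
        rw [ha]
        exact hq σ hσ
      rw [← ha, ← hb, map_mul, map_mul, ha', hb', inv_mul_eq_iff_eq_mul]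
      have h2 : X.s (ρ σ) * a * (X.s (ρ τ) * b) = X.s (ρ σ) * X.s (ρ τ) * (a * b) := by
        rw [mul_assoc, ← mul_assoc a, X.cen a hqa, mul_assoc, mul_assoc]
      rw [h2, cx_Es, ← mul_assoc (X.s (ρ σ * ρ τ)), ← X.cen _ (cx_E X _ _)]
    change X.c k ((X.s (ρ (σ * τ)))⁻¹ * φ₁ (σ * τ)) = _
    rw [h1, X.add k _ _ (cx_E X _ _) (by rw [map_mul, hq σ hσ, hq τ hτ, one_mul]),
      X.add k _ _ (hq σ hσ) (hq τ hτ)]
    change X.e k (ρ σ) (ρ τ) + _ = _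
    unfold pb
    ring

/-- two homomorphisms with the same image in `R` differ by a homomorphism to the kernel -/
theorem cx_diff (φ ψ : Gal(Ω/K) →* P) (h : ∀ σ, X.q (φ σ) = X.q (ψ σ)) (h0 : H38.ML.FT φ)
    (h1 : H38.ML.FT ψ) :
    ∃ χ : Gal(Ω/K) →* P, (∀ σ, X.q (χ σ) = 1) ∧ H38.ML.FT χ ∧ ∀ σ, φ σ = χ σ * ψ σ := by
  have hq : ∀ σ, X.q (φ σ * (ψ σ)⁻¹) = 1 := by
    intro σ
    rw [map_mul, map_inv, h, mul_inv_cancel]
  let χ : Gal(Ω/K) →* P := MonoidHom.mk' (fun σ => φ σ * (ψ σ)⁻¹) (by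
    intro σ τ
    rw [map_mul, map_mul, mul_inv_rev]
    have h2 := X.cen _ (hq τ) (ψ σ)⁻¹
    calc φ σ * φ τ * ((ψ τ)⁻¹ * (ψ σ)⁻¹) = φ σ * (φ τ * (ψ τ)⁻¹ * (ψ σ)⁻¹) := by
          rw [mul_assoc, mul_assoc]
      _ = φ σ * ((ψ σ)⁻¹ * (φ τ * (ψ τ)⁻¹)) := by rw [h2]
      _ = _ := by rw [mul_assoc])
  refine ⟨χ, hq, lev_ft _ ?_, fun σ => ?_⟩
  · exact glift_lev_comp2 φ ψ (fun z => z.1 * z.2⁻¹) (ft_lev φ h0) (ft_lev ψ h1)
  · change φ σ = φ σ * (ψ σ)⁻¹ * ψ σ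
    rw [inv_mul_cancel_right]

end gal

variable {K : Type} [Field K] [NumberField K] {Ω : Type} [Field Ω] [Algebra K Ω]
  [IsAlgClosure K Ω] {p d : ℕ} {ζ : K} {D : RD0 K p ζ} {P R : Type} [Group P] [Group R]
  (X : CX p d P R)

/-- every homomorphism of finite type to the kernel has Kummer coordinates -/
theorem cxk_all (hp : p.Prime) (hζ : IsPrimitiveRoot ζ p) (χ : Gal(Ω/K) →* P)
    (hχ : ∀ σ, X.q (χ σ) = 1) (h0 : H38.ML.FT χ) :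
    ∃ x : Fin d → Kˣ, ∀ (σ : Gal(Ω/K)) k, X.c k (χ σ) = kk p ζ (x k) σ := by
  have h1 : ∀ k, ∃ a : Kˣ, ∀ σ : Gal(Ω/K), X.c k (χ σ) = kk p ζ a σ := by
    intro k
    let ψ : Gal(Ω/K) →* Multiplicative (ZMod p) :=
      { toFun := fun σ => Multiplicative.ofAdd (X.c k (χ σ))
        map_one' := by rw [map_one, cx_one, ofAdd_zero]
        map_mul' := fun σ τ => by rw [map_mul, X.add k _ _ (hχ σ) (hχ τ), ofAdd_add] }
    have hψ : H38.ML.FT ψ := by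
      obtain ⟨E', hE', hle⟩ := h0
      refine ⟨E', hE', fun σ hσ => ?_⟩
      have h5 : χ σ = 1 := hle hσ
      rw [MonoidHom.mem_ker]
      change Multiplicative.ofAdd (X.c k (χ σ)) = 1
      rw [h5, cx_one, ofAdd_zero]
    obtain ⟨a, ha⟩ := kc_all hp hζ ψ hψ
    refine ⟨a, fun σ => ?_⟩
    unfold kk
    rw [← ha]
    rfl
  choose x hx using h1
  exact ⟨x, fun σ k => hx k σ⟩

theorem cxk_all' (hp : p.Prime) (hζ : IsPrimitiveRoot ζ p) (χ : Gal(Ω/K) →* P)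
    (hχ : ∀ σ, X.q (χ σ) = 1) (h0 : H38.ML.FT χ) :
    ∃ x : Fin d → Kˣ, χ = cxk X ζ Ω x := by
  obtain ⟨x, hx⟩ := cxk_all X hp hζ χ hχ h0
  refine ⟨x, MonoidHom.ext fun σ => ?_⟩
  rw [cxk_apply]
  refine cx_ext X _ _ (hχ σ) (cx_of_q X _) fun k => ?_
  rw [cx_of_c, hx]

/-- the homomorphisms to the kernel which are trivial on all inertia groups outside `S0` -/
def Wu (L : LDs D Ω) : Set (Gal(Ω/K) →* P) :=
  {χ | H38.ML.FT χ ∧ (∀ σ, X.q (χ σ) = 1) ∧ ∀ v, v ∉ D.S0 → ∀ τ ∈ inr L v, χ τ = 1}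

theorem wu_fin (hp : p.Prime) (hζ : IsPrimitiveRoot ζ p) (L : LDs D Ω) : (Wu X L).Finite := by
  obtain ⟨U, -, hU⟩ := unit_reps hp D.S0
  have hex : ∀ χ ∈ Wu X L, ∃ x : Fin d → U, χ = cxk X ζ Ω (fun k => ((x k : Kˣ))) := by
    rintro χ ⟨h0, hχ, h1⟩
    obtain ⟨x, hx⟩ := cxk_all X hp hζ χ hχ h0
    have h2 : ∀ k, ∃ u ∈ U, ∀ σ : Gal(Ω/K), kk p ζ (x k) σ = kk p ζ u σ := by
      intro k
      have h3 : ∀ v, v ∉ D.S0 → (p : ℤ) ∣ ord v (x k) := by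
        intro v hv
        refine uord hp hζ L hv (fun h => hv (D.above v h)) (x k) fun τ hτ => ?_
        have h4 := hx τ k
        rw [h1 v hv τ hτ, cx_one] at h4
        apply Multiplicative.toAdd.injective
        exact h4.symm
      obtain ⟨u', y', hu', hy'⟩ := uord_unit hp D (x k) h3
      obtain ⟨u, hu, y, hy⟩ := hU u' hu'
      refine ⟨u, hu, fun σ => ?_⟩
      have h5 : x k = u * (y * y') ^ (p : ℤ) := by
        rw [zpow_natCast, hy', hy, mul_pow, mul_assoc]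
      rw [h5, kk_mul_arg hp hζ, kk_zpow_arg hp hζ, Int.cast_natCast, CharP.cast_eq_zero,
        zero_mul, add_zero]
    choose u hu1 hu2 using h2
    refine ⟨fun k => ⟨u k, hu1 k⟩, MonoidHom.ext fun σ => ?_⟩
    rw [cxk_apply]
    refine cx_ext X _ _ (hχ σ) (cx_of_q X _) fun k => ?_
    rw [cx_of_c, hx, hu2]
  refine Set.Finite.subset (Set.finite_range
    (fun x : Fin d → U => cxk X ζ Ω (fun k => ((x k : Kˣ))))) ?_
  intro χ hχ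
  obtain ⟨x, hx⟩ := hex χ hχ
  exact ⟨x, hx.symm⟩

theorem wu_pos (hp : p.Prime) (hζ : IsPrimitiveRoot ζ p) (L : LDs D Ω) :
    0 < (Wu X L).ncard := by
  rw [Set.ncard_pos (wu_fin X hp hζ L)]
  exact ⟨1, ⟨⊥, inferInstance, fun σ _ => rfl⟩, fun σ => map_one _, fun v _ τ _ => rfl⟩

variable {m l w N : ℕ}

/-- a homomorphism to `R` with local lifts, equal to `q ∘ φ₁` at `S0`, lifts to `P` -/
theorem lft [NeZero p] [Finite P] (hp : p.Prime) (h2 : p ≠ 2) (hp2 : MOne p K)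
    (hζ : IsPrimitiveRoot ζ p) (hz : Z2 p K) {L : LDs D Ω} (Q : DP K Ω) (Fr : FR L)
    (Dg : GP p m l w N P R) (b : Fin m → Kˣ) (ε : Pl K → Gal(Ω/K) → R)
    (f : Fin N → Finset (Pl K)) (ρ : Gal(Ω/K) →* R)
    (hρ : ρ ∈ RH L Dg b ∅ ε f) (hc : ∀ i, ∀ v ∈ f i, cq Dg Fr ρ v = 0)
    (φ₁ : Gal(Ω/K) →* P) (h₁ : H38.ML.FT φ₁) (hT : Teq D.S0 Q ρ (Dg.q.comp φ₁)) :
    ∃ ψ₀ : Gal(Ω/K) →* P, H38.ML.FT ψ₀ ∧ ∀ σ, Dg.q (ψ₀ σ) = ρ σ := by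
  have hRf : Finite R := Finite.of_surjective _ Dg.qs
  obtain ⟨r0, r1, r2, -, r4⟩ := hρ
  have h0 : ∀ v, v ∉ D.S0 → (∀ i, v ∉ f i) → ∀ τ ∈ inr L v, ρ τ = 1 :=
    fun v hv hvf => r4 v hv (Finset.notMem_empty v) hvf
  obtain ⟨r, q1, q2, q3⟩ := gp_ret hp h2 Dg
  refine cx_lift (gx3 Dg) ρ r0 fun k => ?_
  refine brg1q hp hp2 hζ hz Q Fr (cx_coc (gx3 Dg) k) r0 (akR D Dg.cr b f)
    ?_ (fun v hv => ?_) (fun v hv τ hτ => ?_) (fun v hv => ?_)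
  · refine ⟨fun σ => - Dg.cw k (r ((gx3 Dg).s (ρ σ))), ?_, fun σ hσ τ hτ => ?_⟩
    · exact glift_lev_comp2 ρ ρ (fun z => - Dg.cw k (r ((gx3 Dg).s z.1))) (ft_lev ρ r0)
        (ft_lev ρ r0)
    · have hV : ∀ σ : Gal(Ω/K), σ ∈ Zk p ζ (akR D Dg.cr b f) →
          Dg.π (ρ σ) = 1 := by
        intro σ hσ
        apply Multiplicative.toAdd.injective
        funext j
        rw [← r1 σ j, hσ j]
        rfl
      have hs : ∀ x, Dg.q ((gx3 Dg).s x) = x := fun x => cx_s (gx3 Dg) x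
      have s1 : Dg.π (Dg.q ((gx3 Dg).s (ρ σ))) = 1 := by rw [hs, hV σ hσ]
      have s2 : Dg.π (Dg.q ((gx3 Dg).s (ρ τ))) = 1 := by rw [hs, hV τ hτ]
      have s3 : Dg.π (Dg.q ((gx3 Dg).s (ρ σ * ρ τ))) = 1 := by
        rw [hs, map_mul, hV σ hσ, hV τ hτ, one_mul]
      have hE : Dg.q ((gx3 Dg).E (ρ σ) (ρ τ)) = 1 := cx_E (gx3 Dg) _ _
      have e1 := congrArg r (cx_Es (gx3 Dg) (ρ σ) (ρ τ))
      rw [q2 _ _ s1 s2, q2 _ _ (by rw [hE, map_one]) s3, q3 _ hE] at e1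
      have e2 := congrArg (Dg.cw k) e1
      rw [Dg.wadd k _ _ (q1 _ s1) (q1 _ s2), Dg.wadd k _ _ hE (q1 _ s3)] at e2
      have e3 : pb ((gx3 Dg).e k) ρ σ τ = Dg.cw k ((gx3 Dg).E (ρ σ) (ρ τ)) := rfl
      simp only
      rw [map_mul, e3]
      linear_combination e2
  · exact cx_kl (gx3 Dg) φ₁ h₁ ρ r0 (dec (K := K) (Q.P v)) (fun σ hσ => (hT v hv σ hσ).symm) k
  · by_cases hvf : ∃ i, v ∈ f i
    · obtain ⟨i, hi⟩ := hvf
      exact (r2 i v hi).2 τ hτ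
    · rw [h0 v hv (fun i hi => hvf ⟨i, hi⟩) τ hτ, one_pow]
  · by_cases hvf : ∃ i, v ∈ f i
    · obtain ⟨i, hi⟩ := hvf
      have hcom := Fr.com v hv R ρ r0 (r2 i v hi).2
      have h5 := cx_iv (gx3 Dg) k ((gx3 Dg).s (ρ (Fr.F v))) ((gx3 Dg).s (ρ (L.t v))) (by
        rw [cx_s, cx_s, hcom])
      rw [cx_s, cx_s] at h5
      have h6 := congrFun (hc i v hi) k
      unfold cq at h6
      have h7 := cm_eq Dg ((gx3 Dg).s (ρ (Fr.F v))) ((gx3 Dg).s (ρ (L.t v))) k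
      have hs : ∀ x, Dg.q ((gx3 Dg).s x) = x := fun x => cx_s (gx3 Dg) x
      rw [hs, hs, h6] at h7
      rw [h5]
      exact h7.symm
    · rw [h0 v hv (fun i hi => hvf ⟨i, hi⟩) _ (uinr_t L v)]
      unfold iv
      rw [(cx_coc (gx3 Dg) k).l1, (cx_coc (gx3 Dg) k).r1, sub_zero]

end H77.S0T
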