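import Pool.Agent.H77.S0T.La
import Pool.Agent.H77.PC3.CLi

/-!
# H77-S0T-LB: the number of homomorphisms to `P` over a homomorphism to `R` (MP_b39724_nt)

* `PF L Q Dg b f φ₁`: the homomorphisms `φ : Γ → P` with given data such that `q ∘ φ` is equal to `q ∘ φ₁` at `S0`.
* `pf_fib`: the number of the elements of `PF` over `ρ`.
* `pf_fin`: `PF` is finite. `PFf`: the finite set. `pf_card`: the number of its elements.
-/

set_option autoImplicit false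

open scoped NumberField
open IsDedekindDomain
open scoped Classical

noncomputable section

namespace H77.S0T

open H63.MA H38.BB H38.BG H57.PC H57.BRA H63.BU H77.PC3 H57.CC H89.BRG

variable {K : Type} [Field K] [NumberField K] {Ω : Type} [Field Ω] [Algebra K Ω]
  {p : ℕ} {ζ : K} {D : RD0 K p ζ} {P R : Type} [Group P] [Group R] {m l w N : ℕ}

/-- the homomorphisms to `P` with given data, `q ∘ φ` equal to `q ∘ φ₁` at `S0` -/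
def PF [NeZero p] (L : LDs D Ω) (Q : DP K Ω) (Dg : GP p m l w N P R) (b : Fin m → Kˣ)
    (f : Fin N → Finset (Pl K)) (φ₁ : Gal(Ω/K) →* P) : Set (Gal(Ω/K) →* P) :=
  {φ | H38.ML.FT φ ∧ Dg.q.comp φ ∈ RHS L Q Dg b f (Dg.q.comp φ₁) ∧
    (∀ i, ∀ v ∈ f i, TyC (clP Dg) L φ i v) ∧
    ∀ v, v ∉ D.S0 → (∀ i, v ∉ f i) → ∀ τ ∈ inr L v, φ τ = 1}

variable [IsAlgClosure K Ω]

/-- twists by elements of `Wu` -/
theorem pf_tw [NeZero p] {L : LDs D Ω} {Q : DP K Ω} {Dg : GP p m l w N P R} {b : Fin m → Kˣ}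
    {f : Fin N → Finset (Pl K)} {φ₁ : Gal(Ω/K) →* P} {φ χ : Gal(Ω/K) →* P}
    (hφ : φ ∈ PF L Q Dg b f φ₁) (hχ : χ ∈ Wu (gx3 Dg) L) :
    cxt (gx3 Dg) χ φ hχ.2.1 ∈ PF L Q Dg b f φ₁ := by
  obtain ⟨a0, a1, a2, a3⟩ := hφ
  obtain ⟨c0, c1, c2⟩ := hχ
  refine ⟨cxt_ft (gx3 Dg) χ φ c1 c0 a0, ?_, fun i v hv => ?_, fun v hv hvf τ hτ => ?_⟩
  · have h1 : Dg.q.comp (cxt (gx3 Dg) χ φ c1) = Dg.q.comp φ := by
      apply MonoidHom.ext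
      intro σ
      rw [MonoidHom.comp_apply, MonoidHom.comp_apply, cxt_apply, map_mul]
      have h2 : Dg.q (χ σ) = 1 := c1 σ
      rw [h2, one_mul]
    rw [h1]
    exact a1
  · obtain ⟨g1, g2, g3⟩ := a2 i v hv
    refine ⟨g1, ?_, fun τ hτ => ?_⟩
    · rw [cxt_apply, c2 v g1.1 _ (uinr_t L v), one_mul]
      exact g2
    · rw [cxt_apply, c2 v g1.1 τ hτ, one_mul]
      exact g3 τ hτ
  · rw [cxt_apply, c2 v hv τ hτ, a3 v hv hvf τ hτ, one_mul]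

/-- elements of `PF` with the same image in `R` and the same labels differ by an element of `Wu` -/
theorem pf_diff [NeZero p] [Finite P] (hp : p.Prime) (hζ : IsPrimitiveRoot ζ p) {L : LDs D Ω}
    {Q : DP K Ω} {Dg : GP p m l w N P R} {b : Fin m → Kˣ} {f : Fin N → Finset (Pl K)}
    {φ₁ : Gal(Ω/K) →* P} {φ ψ : Gal(Ω/K) →* P} (hφ : φ ∈ PF L Q Dg b f φ₁)
    (hψ : ψ ∈ PF L Q Dg b f φ₁) (hq : Dg.q.comp φ = Dg.q.comp ψ)
    (ht : ∀ i, ∀ v ∈ f i, φ (L.t v) = ψ (L.t v)) :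
    ∃ χ ∈ Wu (gx3 Dg) L, ∀ σ, φ σ = χ σ * ψ σ := by
  obtain ⟨χ, h1, h2, h3⟩ := cx_diff (gx3 Dg) φ ψ (fun σ => DFunLike.congr_fun hq σ) hφ.1 hψ.1
  refine ⟨χ, ⟨h2, h1, fun v hv τ hτ => ?_⟩, h3⟩
  rw [cx_inr (gx3 Dg) hp hζ L χ h1 h2 v hv τ hτ]
  have h4 : χ (L.t v) = 1 := by
    have h5 := h3 (L.t v)
    by_cases hvf : ∃ i, v ∈ f i
    · obtain ⟨i, hi⟩ := hvf
      rw [ht i v hi] at h5
      exact right_eq_mul.1 h5
    · rw [hφ.2.2.2 v hv (fun i hi => hvf ⟨i, hi⟩) _ (uinr_t L v),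
        hψ.2.2.2 v hv (fun i hi => hvf ⟨i, hi⟩) _ (uinr_t L v), mul_one] at h5
      exact h5.symm
  rw [h4, one_pow]

theorem pf_fib [NeZero p] [Finite P] (hp : p.Prime) (h2 : p ≠ 2) (hp2 : MOne p K)
    (hζ : IsPrimitiveRoot ζ p) (hz : Z2 p K) {L : LDs D Ω} (Q : DP K Ω) (Fr : FR L)
    (Dg : GP p m l w N P R) (b : Fin m → Kˣ) (f : Fin N → Finset (Pl K)) (hdj : Dj f)
    (hG : ∀ i, ∀ v ∈ f i, D.Gd v) (φ₁ : Gal(Ω/K) →* P) (h₁ : H38.ML.FT φ₁)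
    (ρ : Gal(Ω/K) →* R) (hρ : ρ ∈ RHS L Q Dg b f (Dg.q.comp φ₁)) :
    ∃ S : Finset (Gal(Ω/K) →* P), (∀ φ, φ ∈ S ↔ φ ∈ PF L Q Dg b f φ₁ ∧ Dg.q.comp φ = ρ) ∧
      S.card = if ∀ i, ∀ v ∈ f i, cq Dg Fr ρ v = 0 then
        (Wu (gx3 Dg) L).ncard * ∏ i, Dg.Wn i ^ (f i).card else 0 := by
  have hfin : Fintype P := Fintype.ofFinite P
  have hRf : Finite R := Finite.of_surjective _ Dg.qs
  have hS : ∀ i, ∀ v ∈ f i, v ∉ D.S0 := fun i v hv => (hG i v hv).1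
  by_cases hc : ∀ i, ∀ v ∈ f i, cq Dg Fr ρ v = 0
  swap
  · rw [if_neg hc]
    refine ⟨∅, fun φ => ⟨fun h => absurd h (Finset.notMem_empty _), fun h => ?_⟩,
      Finset.card_empty⟩
    exfalso
    apply hc
    intro i v hv
    obtain ⟨⟨a0, a1, a2, a3⟩, rfl⟩ := h
    exact cq_zero Dg Fr φ a0 v (hS i v hv) (a2 i v hv).2.2
  rw [if_pos hc]
  have hρ' := hρ
  unfold RHS at hρ'
  rw [Finset.mem_filter] at hρ'
  obtain ⟨hρ1, hρT⟩ := hρ'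
  have hρ2 := mem_RHf hρ1
  obtain ⟨ψ₀, k0, k1⟩ := lft hp h2 hp2 hζ hz Q Fr Dg b (fun _ _ => 1) f ρ hρ2 hc φ₁ h₁ hρT
  obtain ⟨r0, r1, r2, r3, r4⟩ := hρ2
  obtain ⟨x, hx⟩ : ∃ x : Finset (Pl K), x = Finset.univ.biUnion f := ⟨_, rfl⟩
  have hxm : ∀ v, v ∈ x ↔ ∃ i, v ∈ f i := by
    intro v
    rw [hx, Finset.mem_biUnion]
    simp
  obtain ⟨T, hT⟩ : ∃ T : Finset ((i : Fin N) → (↥(f i) → P)), T =
    Fintype.piFinset (fun i => Fintype.piFinset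
      (fun v : ↥(f i) => Finset.univ.filter fun h : P => IsConj h (Dg.g i) ∧
        Dg.q h = ρ (L.t v.1))) := ⟨_, rfl⟩
  have hTm : ∀ e, e ∈ T ↔ ∀ i (v : ↥(f i)), IsConj (e i v) (Dg.g i) ∧
      Dg.q (e i v) = ρ (L.t v.1) := by
    intro e
    rw [hT, Fintype.mem_piFinset]
    simp only [Fintype.mem_piFinset, Finset.mem_filter, Finset.mem_univ, true_and]
  have hTc : T.card = ∏ i, Dg.Wn i ^ (f i).card := by
    rw [hT, Fintype.card_piFinset]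
    refine Finset.prod_congr rfl fun i _ => ?_
    rw [Fintype.card_piFinset, ← Finset.card_univ.trans (Fintype.card_coe (f i)),
      ← Finset.prod_const]
    refine Finset.prod_congr rfl fun v _ => ?_
    rw [← wn_conj Dg i (ρ (L.t v.1)) (r2 i v.1 v.2).1, Nat.card_eq_fintype_card,
      Fintype.card_subtype]
  have hex : ∀ e : (i : Fin N) → (↥(f i) → P), ∃ ψ : Gal(Ω/K) →* P, e ∈ T →
      ψ ∈ PF L Q Dg b f φ₁ ∧ Dg.q.comp ψ = ρ ∧ ∀ i (v : ↥(f i)), ψ (L.t v.1) = e i v := by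
    intro e
    by_cases he : e ∈ T
    · obtain ⟨y, hy⟩ := fam_fun f hdj e
      obtain ⟨ψ, a1, a2, a3, a4, a5⟩ := cx_adj (gx3 Dg) hp hζ L ρ ψ₀ k0 k1 x
        (fun v hv => by
          obtain ⟨i, hi⟩ := (hxm v).1 hv
          exact hS i v hi)
        (fun v hv hvx τ hτ => r4 v hv (Finset.notMem_empty v)
          (fun i hi => hvx ((hxm v).2 ⟨i, hi⟩)) τ hτ)
        (fun v hv τ hτ z hz' => by
          obtain ⟨i, hi⟩ := (hxm v).1 hv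
          refine pow_lift3 Dg i z _ (ρ (L.t v)) (r2 i v hi).1
            (hz'.trans (tm_z hp hζ L ρ r0 v (hS i v hi) (r2 i v hi).2 τ hτ)))
        y (fun v hv => by
          obtain ⟨i, hi⟩ := (hxm v).1 hv
          rw [hy i v hi]
          exact ((hTm e).1 he i ⟨v, hi⟩).2)
      have hq : Dg.q.comp ψ = ρ := MonoidHom.ext a2
      have a3' : ∀ i (v : ↥(f i)), ψ (L.t v.1) = e i v := fun i v => by
        rw [a3 v.1 ((hxm v.1).2 ⟨i, v.2⟩), hy i v.1 v.2]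
      refine ⟨ψ, fun _ => ⟨⟨a1, by rw [hq]; exact hρ, fun i v hv => ⟨hG i v hv, ?_,
        a4 v ((hxm v).2 ⟨i, hv⟩)⟩, fun v hv hvf τ hτ => ?_⟩, hq, a3'⟩⟩
      · rw [a3' i ⟨v, hv⟩]
        exact ((hTm e).1 he i ⟨v, hv⟩).1
      · exact a5 v hv (fun hvx => by
          obtain ⟨i, hi⟩ := (hxm v).1 hvx
          exact hvf i hi) τ hτ
    · exact ⟨1, fun h => absurd h he⟩
  choose ψ hψ using hex
  obtain ⟨Wf, hWf⟩ : ∃ Wf : Finset (Gal(Ω/K) →* P), Wf = (wu_fin (gx3 Dg) hp hζ L).toFinset :=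
    ⟨_, rfl⟩
  have hWm : ∀ χ, χ ∈ Wf ↔ χ ∈ Wu (gx3 Dg) L := by
    intro χ
    rw [hWf, Set.Finite.mem_toFinset]
  have hWc : Wf.card = (Wu (gx3 Dg) L).ncard := by
    rw [Set.ncard_eq_toFinset_card _ (wu_fin (gx3 Dg) hp hζ L), hWf]
  let F : ((i : Fin N) → (↥(f i) → P)) × (Gal(Ω/K) →* P) → (Gal(Ω/K) →* P) := fun z =>
    if h : ∀ σ, (gx3 Dg).q (z.2 σ) = 1 then cxt (gx3 Dg) z.2 (ψ z.1) h else 1
  have hF : ∀ e χ, χ ∈ Wf → ∀ σ, F (e, χ) σ = χ σ * ψ e σ := by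
    intro e χ hχ σ
    have h3 : ∀ σ, (gx3 Dg).q (χ σ) = 1 := ((hWm χ).1 hχ).2.1
    have h4 : F (e, χ) = cxt (gx3 Dg) χ (ψ e) h3 := dif_pos h3
    rw [h4, cxt_apply]
  have hFm : ∀ e χ, e ∈ T → χ ∈ Wf → F (e, χ) ∈ PF L Q Dg b f φ₁ ∧ Dg.q.comp (F (e, χ)) = ρ ∧
      ∀ i (v : ↥(f i)), F (e, χ) (L.t v.1) = e i v := by
    intro e χ he hχ
    have h3 : χ ∈ Wu (gx3 Dg) L := (hWm χ).1 hχ
    have h4 : F (e, χ) = cxt (gx3 Dg) χ (ψ e) h3.2.1 := dif_pos h3.2.1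
    obtain ⟨g1, g2, g3⟩ := hψ e he
    refine ⟨by rw [h4]; exact pf_tw g1 h3, ?_, fun i v => ?_⟩
    · apply MonoidHom.ext
      intro σ
      rw [MonoidHom.comp_apply, hF e χ hχ, map_mul]
      have h5 : Dg.q (χ σ) = 1 := h3.2.1 σ
      rw [h5, one_mul]
      exact DFunLike.congr_fun g2 σ
    · rw [hF e χ hχ, h3.2.2 v.1 (hS i v.1 v.2) _ (uinr_t L v.1), one_mul, g3]
  refine ⟨(T ×ˢ Wf).image F, fun φ => ⟨fun hφ => ?_, fun hφ => ?_⟩, ?_⟩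
  · obtain ⟨⟨e, χ⟩, he, rfl⟩ := Finset.mem_image.1 hφ
    rw [Finset.mem_product] at he
    obtain ⟨g1, g2, -⟩ := hFm e χ he.1 he.2
    exact ⟨g1, g2⟩
  · obtain ⟨hφ1, hφ2⟩ := hφ
    obtain ⟨e, he⟩ : ∃ e : (i : Fin N) → (↥(f i) → P), e = fun i v => φ (L.t v.1) := ⟨_, rfl⟩
    have heT : e ∈ T := by
      rw [hTm, he]
      exact fun i v => ⟨(hφ1.2.2.1 i v.1 v.2).2.1, DFunLike.congr_fun hφ2 (L.t v.1)⟩
    obtain ⟨g1, g2, g3⟩ := hψ e heT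
    obtain ⟨χ, hχ, h3⟩ := pf_diff hp hζ hφ1 g1 (hφ2.trans g2.symm) (fun i v hv => by
      rw [g3 i ⟨v, hv⟩, he])
    rw [Finset.mem_image]
    refine ⟨(e, χ), Finset.mem_product.2 ⟨heT, (hWm χ).2 hχ⟩, ?_⟩
    apply MonoidHom.ext
    intro σ
    rw [hF e χ ((hWm χ).2 hχ), h3]
  · rw [Finset.card_image_of_injOn, Finset.card_product, hTc, hWc, mul_comm]
    rintro ⟨e, χ⟩ he ⟨e', χ'⟩ he' h
    rw [Finset.coe_product, Set.mem_prod] at he he'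
    obtain ⟨-, -, g3⟩ := hFm e χ he.1 he.2
    obtain ⟨-, -, g3'⟩ := hFm e' χ' he'.1 he'.2
    have h5 : e = e' := by
      funext i v
      rw [← g3 i v, ← g3' i v]
      exact DFunLike.congr_fun h _
    subst h5
    refine Prod.ext rfl (MonoidHom.ext fun σ => ?_)
    have h6 := DFunLike.congr_fun h σ
    rw [hF e χ he.2, hF e χ' he'.2] at h6
    exact mul_right_cancel h6

theorem pf_fin [NeZero p] [Finite P] (hp : p.Prime) (h2 : p ≠ 2) (hp2 : MOne p K)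
    (hζ : IsPrimitiveRoot ζ p) (hz : Z2 p K) {L : LDs D Ω} (Q : DP K Ω) (Fr : FR L)
    (Dg : GP p m l w N P R) (b : Fin m → Kˣ) (f : Fin N → Finset (Pl K)) (hdj : Dj f)
    (hG : ∀ i, ∀ v ∈ f i, D.Gd v) (φ₁ : Gal(Ω/K) →* P) (h₁ : H38.ML.FT φ₁) :
    (PF L Q Dg b f φ₁).Finite := by
  have h := fun ρ : {ρ // ρ ∈ RHS L Q Dg b f (Dg.q.comp φ₁)} =>
    pf_fib hp h2 hp2 hζ hz Q Fr Dg b f hdj hG φ₁ h₁ ρ.1 ρ.2
  choose S hS _ using h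
  refine Set.Finite.subset (Finset.finite_toSet (Finset.univ.biUnion S)) fun φ hφ => ?_
  rw [Finset.mem_coe, Finset.mem_biUnion]
  exact ⟨⟨Dg.q.comp φ, hφ.2.1⟩, Finset.mem_univ _, (hS _ φ).2 ⟨hφ, rfl⟩⟩

/-- `PF` as a finite set -/
def PFf [NeZero p] (L : LDs D Ω) (Q : DP K Ω) (Dg : GP p m l w N P R) (b : Fin m → Kˣ)
    (f : Fin N → Finset (Pl K)) (φ₁ : Gal(Ω/K) →* P) : Finset (Gal(Ω/K) →* P) :=
  if h : (PF L Q Dg b f φ₁).Finite then h.toFinset else ∅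

theorem mem_PFf [NeZero p] [Finite P] (hp : p.Prime) (h2 : p ≠ 2) (hp2 : MOne p K)
    (hζ : IsPrimitiveRoot ζ p) (hz : Z2 p K) {L : LDs D Ω} (Q : DP K Ω) (Fr : FR L)
    (Dg : GP p m l w N P R) (b : Fin m → Kˣ) (f : Fin N → Finset (Pl K)) (hdj : Dj f)
    (hG : ∀ i, ∀ v ∈ f i, D.Gd v) (φ₁ : Gal(Ω/K) →* P) (h₁ : H38.ML.FT φ₁)
    (φ : Gal(Ω/K) →* P) : φ ∈ PFf L Q Dg b f φ₁ ↔ φ ∈ PF L Q Dg b f φ₁ := by
  unfold PFf
  rw [dif_pos (pf_fin hp h2 hp2 hζ hz Q Fr Dg b f hdj hG φ₁ h₁), Set.Finite.mem_toFinset]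

theorem pf_card [NeZero p] [Finite P] (hp : p.Prime) (h2 : p ≠ 2) (hp2 : MOne p K)
    (hζ : IsPrimitiveRoot ζ p) (hz : Z2 p K) {L : LDs D Ω} (Q : DP K Ω) (Fr : FR L)
    (Dg : GP p m l w N P R) (b : Fin m → Kˣ) (f : Fin N → Finset (Pl K)) (hdj : Dj f)
    (hG : ∀ i, ∀ v ∈ f i, D.Gd v) (φ₁ : Gal(Ω/K) →* P) (h₁ : H38.ML.FT φ₁) :
    ((PFf L Q Dg b f φ₁).card : ℝ) = (Wu (gx3 Dg) L).ncard *
      FWT Q Dg Fr b (Dg.q.comp φ₁) f := by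
  have hmem := mem_PFf hp h2 hp2 hζ hz Q Fr Dg b f hdj hG φ₁ h₁
  have hmap : ∀ φ ∈ PFf L Q Dg b f φ₁, Dg.q.comp φ ∈ RHS L Q Dg b f (Dg.q.comp φ₁) :=
    fun φ hφ => ((hmem φ).1 hφ).2.1
  rw [Finset.card_eq_sum_card_fiberwise hmap, Nat.cast_sum]
  unfold FWT
  rw [Finset.mul_sum]
  refine Finset.sum_congr rfl fun ρ hρ => ?_
  obtain ⟨S, hS1, hS2⟩ := pf_fib hp h2 hp2 hζ hz Q Fr Dg b f hdj hG φ₁ h₁ ρ hρ
  have h3 : (PFf L Q Dg b f φ₁).filter (fun φ => Dg.q.comp φ = ρ) = S := by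
    ext φ
    rw [Finset.mem_filter, hmem, hS1]
  rw [h3, hS2]
  split_ifs
  · push_cast
    ring
  · rw [Nat.cast_zero, mul_zero]

end H77.S0T
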