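import Pool.Agent.H77.S0T.Lb
import Pool.Agent.H57.CC.VS
import Pool.Agent.H63.MC.CLkC

/-!
# H77-S0T-LC: phases at `S0` (MP_b39724_nt)

`X : VP K Ω p w k P`: virtual primes with values in `P` and functionals of `W`; `X.r j = φ₁ (σ j)`.
* `phP Dg X φ`: the phase of `φ`.
* `teq_kum`, `teq_iff`, `teq_fou`: `Teq` by phases.
* `sum_tw`: the sum of the phases over a twisted set of homomorphisms.
* `Gph f`: the sum of the phases over `PFf f`. `gph_tr`, `gph_unit`, `gph_upd`.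
-/

set_option autoImplicit false

open scoped NumberField
open IsDedekindDomain
open scoped Classical

noncomputable section

namespace H77.S0T

open H63.MA H38.BB H38.BG H57.PC H57.BRA H63.BU H77.PC3 H57.CC H89.BRG

variable {K : Type} [Field K] [NumberField K] {Ω : Type} [Field Ω] [Algebra K Ω]
  {p : ℕ} {ζ : K} {D : RD0 K p ζ} {P R : Type} [Group P] [Group R] {m l w N k : ℕ}

/-- the phase of `φ` -/
def phP (Dg : GP p m l w N P R) (X : VP K Ω p w k P) (φ : Gal(Ω/K) →* P) : ℂ :=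
  ep p (∑ j, dt (X.η j) (fun c => Dg.cw c (φ (X.σ j) * (X.r j)⁻¹)))

/-- the sum of the phases -/
def Gph [NeZero p] (L : LDs D Ω) (Q : DP K Ω) (Dg : GP p m l w N P R) (b : Fin m → Kˣ)
    (φ₁ : Gal(Ω/K) →* P) (X : VP K Ω p w k P) (f : Fin N → Finset (Pl K)) : ℂ :=
  ∑ φ ∈ PFf L Q Dg b f φ₁, phP Dg X φ

/-- the class contained in `W` does not change `RH` -/
theorem rh_upd [NeZero p] [Finite R] [IsAlgClosure K Ω] (hp : p.Prime)
    (hζ : IsPrimitiveRoot ζ p) (L : LDs D Ω)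
    (Dg : GP p m l w N P R) (b : Fin m → Kˣ) (ε : Pl K → Gal(Ω/K) → R)
    (f : Fin N → Finset (Pl K)) (hdj : Dj f) (hS : ∀ i, ∀ v ∈ f i, v ∉ D.S0) (i₀ : Fin N)
    (hi : Dg.q (Dg.g i₀) = 1) :
    RH L Dg b ∅ ε f = RH L Dg b ∅ ε (Function.update f i₀ ∅) := by
  have hak : ∀ k, akR D Dg.cr b (Function.update f i₀ ∅) k = akR D Dg.cr b f k := by
    intro k
    unfold akR
    congr 1
    refine Finset.prod_congr rfl fun i _ => ?_
    by_cases h : i = i₀
    · subst h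
      have h1 : (Dg.cr).x i k = 0 := by
        change Multiplicative.toAdd (Dg.π (Dg.q (Dg.g i))) k = 0
        rw [hi, map_one, toAdd_one]
        rfl
      rw [Function.update_self, Finset.prod_empty, h1, ZMod.val_zero]
      simp
    · rw [Function.update_of_ne h]
  have hnm : ∀ v, (∀ i, v ∉ Function.update f i₀ ∅ i) ↔ ∀ i, i ≠ i₀ → v ∉ f i := by
    intro v
    constructor
    · intro h i hne
      have := h i
      rwa [Function.update_of_ne hne] at this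
    · intro h i
      by_cases hne : i = i₀
      · subst hne
        rw [Function.update_self]
        exact Finset.notMem_empty v
      · rw [Function.update_of_ne hne]
        exact h i hne
  ext ρ
  constructor
  · rintro ⟨r0, r1, r2, r3, r4⟩
    refine ⟨r0, fun σ k => ?_, fun i v hv => ?_, r3, fun v hv hvE hvf τ hτ => ?_⟩
    · rw [hak]
      exact r1 σ k
    · by_cases h : i = i₀
      · subst h
        rw [Function.update_self] at hv
        exact absurd hv (Finset.notMem_empty v)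
      · rw [Function.update_of_ne h] at hv
        exact r2 i v hv
    · rw [hnm] at hvf
      by_cases hv0 : v ∈ f i₀
      · have h1 := (r2 i₀ v hv0).1
        rw [hi] at h1
        have h2 : ρ (L.t v) = 1 := by
          obtain ⟨c, hc⟩ := isConj_iff.1 h1.symm
          rw [← hc, mul_one, mul_inv_cancel]
        rw [tm_z hp hζ L ρ r0 v hv (r2 i₀ v hv0).2 τ hτ, h2, one_pow]
      · exact r4 v hv hvE (fun i hiv => by
          by_cases h : i = i₀
          · subst h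
            exact hv0 hiv
          · exact hvf i h hiv) τ hτ
  · rintro ⟨r0, r1, r2, r3, r4⟩
    refine ⟨r0, fun σ k => ?_, fun i v hv => ?_, r3, fun v hv hvE hvf τ hτ => ?_⟩
    · rw [← hak]
      exact r1 σ k
    · by_cases h : i = i₀
      · subst h
        have h3 : ∀ τ ∈ inr L v, ρ τ = 1 := r4 v (hS i v hv) (Finset.notMem_empty v)
          ((hnm v).2 fun j hj hvj => Finset.disjoint_left.1 (hdj j i hj) hvj hv)
        refine ⟨?_, fun τ hτ => ?_⟩
        · rw [h3 _ (uinr_t L v), hi]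
        · rw [h3 τ hτ, one_pow]
      · refine r2 i v ?_
        rw [Function.update_of_ne h]
        exact hv
    · exact r4 v hv hvE ((hnm v).2 fun i _ => hvf i) τ hτ

/-- the sum over a twisted set of homomorphisms -/
theorem sum_tw [NeZero p] (hp : p.Prime) (Dg : GP p m l w N P R) (X : VP K Ω p w k P)
    (A B : Finset (Gal(Ω/K) →* P)) (χ χ' : Gal(Ω/K) →* P) (hχ : ∀ σ, (gx3 Dg).q (χ σ) = 1)
    (hχ1 : ∀ σ, (gx3 Dg).q (χ' σ) = 1) (hinv : ∀ σ, χ σ * χ' σ = 1)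
    (hA : ∀ φ ∈ A, cxt (gx3 Dg) χ φ hχ ∈ B) (hB : ∀ φ ∈ B, cxt (gx3 Dg) χ' φ hχ1 ∈ A)
    (hq : ∀ φ ∈ A, ∀ j, Dg.q (φ (X.σ j)) = Dg.q (X.r j)) :
    ∑ φ ∈ B, phP Dg X φ = ep p (∑ j, dt (X.η j) (fun c => Dg.cw c (χ (X.σ j)))) *
      ∑ φ ∈ A, phP Dg X φ := by
  have hinv' : ∀ σ, χ' σ * χ σ = 1 := by
    intro σ
    rw [(gx3 Dg).cen _ (hχ1 σ), hinv]
  rw [Finset.mul_sum]
  symm
  refine Finset.sum_nbij' (fun φ => cxt (gx3 Dg) χ φ hχ) (fun φ => cxt (gx3 Dg) χ' φ hχ1)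
    hA hB ?_ ?_ ?_
  · intro φ _
    apply MonoidHom.ext
    intro σ
    rw [cxt_apply, cxt_apply, ← mul_assoc, hinv', one_mul]
  · intro φ _
    apply MonoidHom.ext
    intro σ
    rw [cxt_apply, cxt_apply, ← mul_assoc, hinv, one_mul]
  · intro φ hφ
    unfold phP
    rw [← ep_add hp, ← Finset.sum_add_distrib]
    congr 1
    refine Finset.sum_congr rfl fun j _ => ?_
    unfold dt
    rw [← Finset.sum_add_distrib]
    refine Finset.sum_congr rfl fun c _ => ?_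
    have h5 : Dg.q (φ (X.σ j) * (X.r j)⁻¹) = 1 := by
      rw [map_mul, map_inv, hq φ hφ j, mul_inv_cancel]
    change X.η j c * Dg.cw c (χ (X.σ j)) + X.η j c * Dg.cw c (φ (X.σ j) * (X.r j)⁻¹) =
      X.η j c * Dg.cw c (cxt (gx3 Dg) χ φ hχ (X.σ j) * (X.r j)⁻¹)
    rw [cxt_apply, mul_assoc, Dg.wadd c (χ (X.σ j)) (φ (X.σ j) * (X.r j)⁻¹) (hχ _) h5, mul_add]

variable [IsAlgClosure K Ω]

/-- the difference of two homomorphisms at `S0` is given by Kummer characters -/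
theorem teq_kum (hp : p.Prime) (hζ : IsPrimitiveRoot ζ p) {Q : DP K Ω}
    (Dg : GP p m l w N P R) (φ φ₁ : Gal(Ω/K) →* P) (h : H38.ML.FT φ) (h₁ : H38.ML.FT φ₁)
    (hT : Teq D.S0 Q (Dg.q.comp φ) (Dg.q.comp φ₁)) :
    ∃ x : Fin w → Kˣ, ∀ v ∈ D.S0, ∀ σ ∈ dec (K := K) (Q.P v), ∀ c,
      Dg.cw c (φ σ * (φ₁ σ)⁻¹) = kk p ζ (x c) σ := by
  have hq : ∀ v ∈ D.S0, ∀ σ ∈ dec (K := K) (Q.P v), Dg.q (φ σ * (φ₁ σ)⁻¹) = 1 := by
    intro v hv σ hσ
    have h2 : Dg.q (φ σ) = Dg.q (φ₁ σ) := hT v hv σ hσ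
    rw [map_mul, map_inv, h2, mul_inv_cancel]
  have hmul : ∀ v ∈ D.S0, ∀ σ τ, τ ∈ dec (K := K) (Q.P v) →
      φ (σ * τ) * (φ₁ (σ * τ))⁻¹ = (φ σ * (φ₁ σ)⁻¹) * (φ τ * (φ₁ τ)⁻¹) := by
    intro v hv σ τ hτ
    have h2 := Dg.wcen _ (hq v hv τ hτ) (φ₁ σ)⁻¹
    rw [map_mul, map_mul, mul_inv_rev]
    calc φ σ * φ τ * ((φ₁ τ)⁻¹ * (φ₁ σ)⁻¹) = φ σ * (φ τ * (φ₁ τ)⁻¹ * (φ₁ σ)⁻¹) := by
          rw [mul_assoc, mul_assoc]
      _ = φ σ * ((φ₁ σ)⁻¹ * (φ τ * (φ₁ τ)⁻¹)) := by rw [h2]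
      _ = _ := by rw [mul_assoc]
  have hc : ∀ c : Fin w, ∃ a : Kˣ, ∀ v ∈ D.S0, ∀ σ ∈ dec (K := K) (Q.P v),
      Dg.cw c (φ σ * (φ₁ σ)⁻¹) = kk p ζ a σ := by
    intro c
    let δ : (v : Pl K) → dec (K := K) (Q.P v) →* Multiplicative (ZMod p) := fun v =>
      if hv : v ∈ D.S0 then
        MonoidHom.mk' (fun u : dec (K := K) (Q.P v) => Multiplicative.ofAdd
          (Dg.cw c (φ (u : Gal(Ω/K)) * (φ₁ (u : Gal(Ω/K)))⁻¹))) (by
          intro a a'
          rw [Subgroup.coe_mul, hmul v hv _ _ a'.2, Dg.wadd c _ _ (hq v hv _ a.2)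
            (hq v hv _ a'.2), ofAdd_add])
      else 1
    obtain ⟨a, ha⟩ := lock hp hζ D.S0 Q δ (fun v hv => by
      obtain ⟨E, hE, hle⟩ := h
      obtain ⟨E', hE', hle'⟩ := h₁
      refine ⟨E ⊔ E', inferInstance, fun u hu => ?_⟩
      have e1 : (u : Gal(Ω/K)) ∈ E.fixingSubgroup :=
        IntermediateField.fixingSubgroup_antitone le_sup_left hu
      have e2 : (u : Gal(Ω/K)) ∈ E'.fixingSubgroup :=
        IntermediateField.fixingSubgroup_antitone le_sup_right hu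
      have e3 : φ (u : Gal(Ω/K)) = 1 := hle e1
      have e4 : φ₁ (u : Gal(Ω/K)) = 1 := hle' e2
      have e5 : δ v = MonoidHom.mk' (fun u : dec (K := K) (Q.P v) => Multiplicative.ofAdd
          (Dg.cw c (φ (u : Gal(Ω/K)) * (φ₁ (u : Gal(Ω/K)))⁻¹))) (by
          intro a a'
          rw [Subgroup.coe_mul, hmul v hv _ _ a'.2, Dg.wadd c _ _ (hq v hv _ a.2)
            (hq v hv _ a'.2), ofAdd_add]) := dif_pos hv
      rw [e5]
      change Multiplicative.ofAdd (Dg.cw c (φ (u : Gal(Ω/K)) * (φ₁ (u : Gal(Ω/K)))⁻¹)) = 1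
      rw [e3, e4, inv_one, mul_one, cw_one, ofAdd_zero])
    refine ⟨a, fun v hv σ hσ => ?_⟩
    have h3 := ha v hv ⟨σ, hσ⟩
    have e5 : δ v = MonoidHom.mk' (fun u : dec (K := K) (Q.P v) => Multiplicative.ofAdd
        (Dg.cw c (φ (u : Gal(Ω/K)) * (φ₁ (u : Gal(Ω/K)))⁻¹))) (by
        intro a a'
        rw [Subgroup.coe_mul, hmul v hv _ _ a'.2, Dg.wadd c _ _ (hq v hv _ a.2)
          (hq v hv _ a'.2), ofAdd_add]) := dif_pos hv
    rw [e5] at h3
    exact h3.symm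
  choose x hx using hc
  exact ⟨x, fun v hv σ hσ c => hx c v hv σ hσ⟩

/-- virtual primes detect equality at `S0` -/
theorem teq_iff (hp : p.Prime) (hζ : IsPrimitiveRoot ζ p) {Q : DP K Ω}
    (Dg : GP p m l w N P R) (X : VP K Ω p w k P) (hX : X.Ok D Q) (φ φ₁ : Gal(Ω/K) →* P)
    (h : H38.ML.FT φ) (h₁ : H38.ML.FT φ₁)
    (hT : Teq D.S0 Q (Dg.q.comp φ) (Dg.q.comp φ₁)) :
    Teq D.S0 Q φ φ₁ ↔ ∀ j, φ (X.σ j) = φ₁ (X.σ j) := by
  constructor
  · intro h2 j
    obtain ⟨v, hv, hσ⟩ := hX.mem j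
    exact h2 v hv _ hσ
  · intro h2 v hv σ hσ
    obtain ⟨x, hx⟩ := teq_kum hp hζ Dg φ φ₁ h h₁ hT
    have h3 : ∀ c, kk p ζ (x c) σ = 0 := by
      intro c
      refine hX.det (x c) (fun j => ?_) v hv σ hσ
      obtain ⟨v', hv', hσ'⟩ := hX.mem j
      rw [← hx v' hv' _ hσ', h2 j, mul_inv_cancel, cw_one]
    have h4 : φ σ * (φ₁ σ)⁻¹ = 1 := by
      refine Dg.winj _ ?_ fun c => by rw [hx v hv σ hσ, h3]
      have h5 : Dg.q (φ σ) = Dg.q (φ₁ σ) := hT v hv σ hσ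
      rw [map_mul, map_inv, h5, mul_inv_cancel]
    exact mul_inv_eq_one.1 h4

/-- sum over all functionals -/
theorem fou_sum [NeZero p] (hp : p.Prime) (k w : ℕ) (y : Fin k → Fin w → ZMod p) :
    ∑ η : Fin k → Fin w → ZMod p, ep p (∑ j, dt (η j) (y j)) =
      if ∀ j, y j = 0 then (Fintype.card (Fin k → Fin w → ZMod p) : ℂ) else 0 := by
  split_ifs with h
  · have h1 : ∀ η : Fin k → Fin w → ZMod p, ep p (∑ j, dt (η j) (y j)) = 1 := by
      intro η
      rw [Finset.sum_eq_zero, ep_zero]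
      intro j _
      rw [h j]
      unfold dt
      simp
    simp only [h1]
    rw [Finset.sum_const, Finset.card_univ, nsmul_eq_mul, mul_one]
  · push Not at h
    obtain ⟨j₀, hj₀⟩ := h
    obtain ⟨c₀, hc₀⟩ : ∃ c, y j₀ c ≠ 0 := by
      by_contra hcon
      push Not at hcon
      exact hj₀ (funext hcon)
    obtain ⟨η₀, hη₀⟩ : ∃ η₀ : Fin k → Fin w → ZMod p, ∑ j, dt (η₀ j) (y j) ≠ 0 := by
      refine ⟨fun j => if j = j₀ then Pi.single c₀ 1 else 0, ?_⟩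
      rw [Finset.sum_eq_single j₀]
      · dsimp only
        rw [if_pos rfl]
        unfold dt
        rw [Finset.sum_eq_single c₀]
        · rw [Pi.single_eq_same, one_mul]
          exact hc₀
        · intro c _ hc
          rw [Pi.single_eq_of_ne hc, zero_mul]
        · intro h
          exact absurd (Finset.mem_univ _) h
      · intro j _ hj
        dsimp only
        rw [if_neg hj]
        unfold dt
        simp
      · intro h
        exact absurd (Finset.mem_univ _) h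
    obtain ⟨S, hS⟩ : ∃ S : ℂ, S = ∑ η : Fin k → Fin w → ZMod p, ep p (∑ j, dt (η j) (y j)) :=
      ⟨_, rfl⟩
    have h2 : S = ep p (∑ j, dt (η₀ j) (y j)) * S := by
      rw [hS, Finset.mul_sum]
      rw [← Equiv.sum_comp (Equiv.addLeft η₀) (fun η => ep p (∑ j, dt (η j) (y j)))]
      refine Finset.sum_congr rfl fun η _ => ?_
      rw [← ep_add hp, ← Finset.sum_add_distrib]
      congr 1
      refine Finset.sum_congr rfl fun j _ => ?_
      change dt ((η₀ + η) j) (y j) = _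
      rw [Pi.add_apply]
      unfold dt
      simp only [Pi.add_apply, add_mul, Finset.sum_add_distrib]
    have h3 : ep p (∑ j, dt (η₀ j) (y j)) ≠ 1 := fun h => hη₀ ((ep_eq_one hp _).1 h)
    rw [← hS]
    have h4 : (ep p (∑ j, dt (η₀ j) (y j)) - 1) * S = 0 := by
      rw [sub_mul, one_mul, ← h2, sub_self]
    rcases mul_eq_zero.1 h4 with h5 | h5
    · exact absurd (sub_eq_zero.1 h5) h3
    · exact h5

/-- Fourier expansion of `Teq` -/
theorem teq_fou [NeZero p] (hp : p.Prime) (hζ : IsPrimitiveRoot ζ p) {Q : DP K Ω}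
    (Dg : GP p m l w N P R) (X : VP K Ω p w k P) (hX : X.Ok D Q) (φ φ₁ : Gal(Ω/K) →* P)
    (h : H38.ML.FT φ) (h₁ : H38.ML.FT φ₁)
    (hT : Teq D.S0 Q (Dg.q.comp φ) (Dg.q.comp φ₁)) (hr : ∀ j, X.r j = φ₁ (X.σ j)) :
    ∑ η : Fin k → Fin w → ZMod p, phP Dg (X.wi η) φ =
      if Teq D.S0 Q φ φ₁ then (Fintype.card (Fin k → Fin w → ZMod p) : ℂ) else 0 := by
  have h1 : ∀ η : Fin k → Fin w → ZMod p, phP Dg (X.wi η) φ =
      ep p (∑ j, dt (η j) ((fun j c => Dg.cw c (φ (X.σ j) * (X.r j)⁻¹)) j)) := fun η => rfl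
  simp only [h1]
  rw [fou_sum hp k w (fun j c => Dg.cw c (φ (X.σ j) * (X.r j)⁻¹))]
  refine if_congr ?_ rfl rfl
  rw [teq_iff hp hζ Dg X hX φ φ₁ h h₁ hT]
  refine forall_congr' fun j => ?_
  constructor
  · intro h2
    have h4 : φ (X.σ j) * (X.r j)⁻¹ = 1 := by
      refine Dg.winj _ ?_ fun c => congrFun h2 c
      obtain ⟨v, hv, hσ⟩ := hX.mem j
      have h5 : Dg.q (φ (X.σ j)) = Dg.q (φ₁ (X.σ j)) := hT v hv _ hσ
      rw [map_mul, map_inv, hr, h5, mul_inv_cancel]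
    rw [← hr]
    exact mul_inv_eq_one.1 h4
  · intro h2
    funext c
    change Dg.cw c (φ (X.σ j) * (X.r j)⁻¹) = 0
    rw [hr, h2, mul_inv_cancel, cw_one]

/-- trivial functionals -/
theorem ph_tr (hp : p.Prime) (hζ : IsPrimitiveRoot ζ p) {Q : DP K Ω}
    (Dg : GP p m l w N P R) (X : VP K Ω p w k P) (hX : X.Ok D Q) (ht : X.Tr ζ)
    (φ φ₁ : Gal(Ω/K) →* P) (h : H38.ML.FT φ) (h₁ : H38.ML.FT φ₁)
    (hT : Teq D.S0 Q (Dg.q.comp φ) (Dg.q.comp φ₁)) (hr : ∀ j, X.r j = φ₁ (X.σ j)) :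
    phP Dg X φ = 1 := by
  obtain ⟨x, hx⟩ := teq_kum hp hζ Dg φ φ₁ h h₁ hT
  unfold phP
  have h2 : ∑ j, dt (X.η j) (fun c => Dg.cw c (φ (X.σ j) * (X.r j)⁻¹)) = 0 := by
    have h3 : ∀ j, dt (X.η j) (fun c => Dg.cw c (φ (X.σ j) * (X.r j)⁻¹)) =
        ∑ c, X.η j c * kk p ζ (x c) (X.σ j) := by
      intro j
      unfold dt
      refine Finset.sum_congr rfl fun c _ => ?_
      obtain ⟨v, hv, hσ⟩ := hX.mem j
      have h6 := hx v hv _ hσ c
      rw [hr]
      exact congrArg (fun t => X.η j c * t) h6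
    simp only [h3]
    rw [Finset.sum_comm]
    refine Finset.sum_eq_zero fun c _ => ?_
    have h4 := ht (Pi.single c 1) (x c)
    have h5 : ∀ j, dt (X.η j) (Pi.single c 1) = X.η j c := by
      intro j
      unfold dt
      rw [Finset.sum_eq_single c (fun a _ ha => by rw [Pi.single_eq_of_ne ha, mul_zero])
        (fun h => absurd (Finset.mem_univ c) h), Pi.single_eq_same, mul_one]
    simp only [h5] at h4
    exact h4
  rw [h2, ep_zero]

end H77.S0T
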