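import Pool.Agent.H77.S0T.Lc
import Pool.Agent.H63.MC.CHa

/-!
# H77-S0T-LH: finitely many local types at S0 (MP_b39724_nt)

* `cx_kum`: the difference of two homomorphisms at `S0` is given by Kummer characters (general central extensions).
* `cx_types`: finitely many types for `R` give finitely many types for `P`.
* `types_fin3`: finitely many types for groups with coordinates.
-/

set_option autoImplicit false

open scoped NumberField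
open IsDedekindDomain
open scoped Classical

noncomputable section

namespace H77.S0T

open H63.MA H38.BB H38.BG H57.PC H57.BRA H63.BU H77.PC3 H57.CC H89.BRG

variable {K : Type} [Field K] [NumberField K] {Ω : Type} [Field Ω] [Algebra K Ω]
  [IsAlgClosure K Ω] {p : ℕ} {ζ : K} {D : RD0 K p ζ} {P R : Type} [Group P] [Group R]
  {m l w N d : ℕ}

/-- the difference of two homomorphisms at `S0` is given by Kummer characters -/
theorem cx_kum (hp : p.Prime) (hζ : IsPrimitiveRoot ζ p) {Q : DP K Ω}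
    (X : CX p d P R) (φ φ₁ : Gal(Ω/K) →* P) (h : H38.ML.FT φ) (h₁ : H38.ML.FT φ₁)
    (hT : Teq D.S0 Q (X.q.comp φ) (X.q.comp φ₁)) :
    ∃ x : Fin d → Kˣ, ∀ v ∈ D.S0, ∀ σ ∈ dec (K := K) (Q.P v), ∀ c,
      X.c c (φ σ * (φ₁ σ)⁻¹) = kk p ζ (x c) σ := by
  have hq : ∀ v ∈ D.S0, ∀ σ ∈ dec (K := K) (Q.P v), X.q (φ σ * (φ₁ σ)⁻¹) = 1 := by
    intro v hv σ hσ
    have h2 : X.q (φ σ) = X.q (φ₁ σ) := hT v hv σ hσ
    rw [map_mul, map_inv, h2, mul_inv_cancel]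
  have hmul : ∀ v ∈ D.S0, ∀ σ τ, τ ∈ dec (K := K) (Q.P v) →
      φ (σ * τ) * (φ₁ (σ * τ))⁻¹ = (φ σ * (φ₁ σ)⁻¹) * (φ τ * (φ₁ τ)⁻¹) := by
    intro v hv σ τ hτ
    have h2 := X.cen _ (hq v hv τ hτ) (φ₁ σ)⁻¹
    rw [map_mul, map_mul, mul_inv_rev]
    calc φ σ * φ τ * ((φ₁ τ)⁻¹ * (φ₁ σ)⁻¹) = φ σ * (φ τ * (φ₁ τ)⁻¹ * (φ₁ σ)⁻¹) := by
          rw [mul_assoc, mul_assoc]
      _ = φ σ * ((φ₁ σ)⁻¹ * (φ τ * (φ₁ τ)⁻¹)) := by rw [h2]
      _ = _ := by rw [mul_assoc]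
  have hc : ∀ c : Fin d, ∃ a : Kˣ, ∀ v ∈ D.S0, ∀ σ ∈ dec (K := K) (Q.P v),
      X.c c (φ σ * (φ₁ σ)⁻¹) = kk p ζ a σ := by
    intro c
    let δ : (v : Pl K) → dec (K := K) (Q.P v) →* Multiplicative (ZMod p) := fun v =>
      if hv : v ∈ D.S0 then
        MonoidHom.mk' (fun u : dec (K := K) (Q.P v) => Multiplicative.ofAdd
          (X.c c (φ (u : Gal(Ω/K)) * (φ₁ (u : Gal(Ω/K)))⁻¹))) (by
          intro a a'
          rw [Subgroup.coe_mul, hmul v hv _ _ a'.2, X.add c _ _ (hq v hv _ a.2)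
            (hq v hv _ a'.2), ofAdd_add])
      else 1
    obtain ⟨a, ha⟩ := lock hp hζ D.S0 Q δ (fun v hv => by
      obtain ⟨E, hE, hle⟩ := h
      obtain ⟨E', hE', hle'⟩ := h₁
      refine ⟨E ⊔ E', inferInstance, fun u hu => ?_⟩
      have e1 : (u : Gal(Ω/K)) ∈ E.fixingSubgroup :=
        IntermediateField.fixingSubgroup_antitone le_sup_left hu
      have e2 : (u : Gal(Ω/K)) ∈ E'.fixingSubgroup :=
        IntermediateField.fixingSubgroup_antitone le_sup_right hu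
      have e3 : φ (u : Gal(Ω/K)) = 1 := hle e1
      have e4 : φ₁ (u : Gal(Ω/K)) = 1 := hle' e2
      have e5 : δ v = MonoidHom.mk' (fun u : dec (K := K) (Q.P v) => Multiplicative.ofAdd
          (X.c c (φ (u : Gal(Ω/K)) * (φ₁ (u : Gal(Ω/K)))⁻¹))) (by
          intro a a'
          rw [Subgroup.coe_mul, hmul v hv _ _ a'.2, X.add c _ _ (hq v hv _ a.2)
            (hq v hv _ a'.2), ofAdd_add]) := dif_pos hv
      rw [e5]
      change Multiplicative.ofAdd (X.c c (φ (u : Gal(Ω/K)) * (φ₁ (u : Gal(Ω/K)))⁻¹)) = 1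
      rw [e3, e4, inv_one, mul_one, cx_one, ofAdd_zero])
    refine ⟨a, fun v hv σ hσ => ?_⟩
    have h3 := ha v hv ⟨σ, hσ⟩
    have e5 : δ v = MonoidHom.mk' (fun u : dec (K := K) (Q.P v) => Multiplicative.ofAdd
        (X.c c (φ (u : Gal(Ω/K)) * (φ₁ (u : Gal(Ω/K)))⁻¹))) (by
        intro a a'
        rw [Subgroup.coe_mul, hmul v hv _ _ a'.2, X.add c _ _ (hq v hv _ a.2)
          (hq v hv _ a'.2), ofAdd_add]) := dif_pos hv
    rw [e5] at h3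
    exact h3.symm
  choose x hx using hc
  exact ⟨x, fun v hv σ hσ c => hx c v hv σ hσ⟩

/-- finitely many types at `S0` -/
def FTy (D : RD0 K p ζ) (Q : DP K Ω) (G : Type) [Group G] : Prop :=
  ∃ Rs : Finset (Gal(Ω/K) →* G), (∀ φ ∈ Rs, H38.ML.FT φ) ∧
    ∀ φ : Gal(Ω/K) →* G, H38.ML.FT φ → ∃ φ' ∈ Rs, Teq D.S0 Q φ φ'

omit [NumberField K] [IsAlgClosure K Ω] in
/-- the homomorphism to the kernel given by a homomorphism to `F_p^d` -/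
theorem cx_hom (X : CX p d P R) (χ : Gal(Ω/K) →* Multiplicative (Fin d → ZMod p))
    (h : H38.ML.FT χ) : ∃ ψ : Gal(Ω/K) →* P, H38.ML.FT ψ ∧ (∀ σ, X.q (ψ σ) = 1) ∧
      ∀ σ, ψ σ = X.of (Multiplicative.toAdd (χ σ)) := by
  refine ⟨MonoidHom.mk' (fun σ => X.of (Multiplicative.toAdd (χ σ))) (fun σ τ => by
    rw [map_mul, toAdd_mul, cx_of_add]), ?_, fun σ => cx_of_q X _, fun σ => rfl⟩
  obtain ⟨E, hE, hle⟩ := h
  refine ⟨E, hE, fun σ hσ => ?_⟩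
  have h1 : χ σ = 1 := hle hσ
  rw [MonoidHom.mem_ker]
  change X.of (Multiplicative.toAdd (χ σ)) = 1
  rw [h1, toAdd_one, cx_of_zero]

theorem cx_types (hp : p.Prime) (hp2 : MOne p K) (hζ : IsPrimitiveRoot ζ p) (D : RD0 K p ζ)
    (L : LDs D Ω) (Q : DP K Ω) (X : CX p d P R) (hR : FTy D Q R) : FTy D Q P := by
  have : NeZero p := ⟨hp.ne_zero⟩
  obtain ⟨Rs, hRs1, hRs2⟩ := hR
  obtain ⟨Ws, hWs1, hWs2⟩ := hw_types (W := Multiplicative (Fin d → ZMod p)) hp hp2 hζ D L Q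
    (fun w => by
      apply Multiplicative.toAdd.injective
      funext k
      rw [toAdd_pow, toAdd_one, Pi.smul_apply, nsmul_eq_mul, ZMod.natCast_self, zero_mul]
      rfl)
  have hφ : ∀ ρ : Gal(Ω/K) →* R, ∃ φ : Gal(Ω/K) →* P, H38.ML.FT φ ∧
      ((∃ ψ : Gal(Ω/K) →* P, H38.ML.FT ψ ∧ Teq D.S0 Q (X.q.comp ψ) ρ) →
        Teq D.S0 Q (X.q.comp φ) ρ) := by
    intro ρ
    by_cases h : ∃ ψ : Gal(Ω/K) →* P, H38.ML.FT ψ ∧ Teq D.S0 Q (X.q.comp ψ) ρ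
    · obtain ⟨ψ, h1, h2⟩ := h
      exact ⟨ψ, h1, fun _ => h2⟩
    · exact ⟨1, ⟨⊥, inferInstance, fun σ _ => rfl⟩, fun h' => absurd h' h⟩
  choose φ₀ hφ1 hφ2 using hφ
  have hχ : ∀ χ : {χ // χ ∈ Ws}, ∃ ψ : Gal(Ω/K) →* P, H38.ML.FT ψ ∧
      (∀ σ, X.q (ψ σ) = 1) ∧ ∀ σ, ψ σ = X.of (Multiplicative.toAdd (χ.1 σ)) :=
    fun χ => cx_hom X χ.1 (hWs1 χ.1 χ.2)
  choose ψ₀ hψ1 hψ2 hψ3 using hχ
  refine ⟨(Rs ×ˢ (Finset.univ : Finset {χ // χ ∈ Ws})).image fun z =>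
    cxt X (ψ₀ z.2) (φ₀ z.1) (hψ2 z.2), ?_, ?_⟩
  · intro φ hφ
    obtain ⟨z, -, rfl⟩ := Finset.mem_image.1 hφ
    exact cxt_ft X _ _ _ (hψ1 z.2) (hφ1 z.1)
  · intro φ hφ
    obtain ⟨ρ, hρ, h1⟩ := hRs2 (X.q.comp φ) (H38.ML.ft_comp _ _ hφ)
    have h2 := hφ2 ρ ⟨φ, hφ, h1⟩
    have hT : Teq D.S0 Q (X.q.comp φ) (X.q.comp (φ₀ ρ)) := fun v hv σ hσ =>
      (h1 v hv σ hσ).trans (h2 v hv σ hσ).symm
    obtain ⟨x, hx⟩ := cx_kum hp hζ X φ (φ₀ ρ) hφ (hφ1 ρ) hT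
    obtain ⟨χ, hχ, h3⟩ := hWs2 (kuh p ζ Ω x) (kuh_ft hp hζ x)
    refine ⟨cxt X (ψ₀ ⟨χ, hχ⟩) (φ₀ ρ) (hψ2 _), Finset.mem_image.2 ⟨(ρ, ⟨χ, hχ⟩),
      Finset.mem_product.2 ⟨hρ, Finset.mem_univ _⟩, rfl⟩, fun v hv σ hσ => ?_⟩
    have h4 : X.q (φ σ * (φ₀ ρ σ)⁻¹) = 1 := by
      have h5 : X.q (φ σ) = X.q (φ₀ ρ σ) := hT v hv σ hσ
      rw [map_mul, map_inv, h5, mul_inv_cancel]
    have h6 : φ σ * (φ₀ ρ σ)⁻¹ = ψ₀ ⟨χ, hχ⟩ σ := by
      refine cx_ext X _ _ h4 (hψ2 _ σ) fun c => ?_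
      rw [hx v hv σ hσ, hψ3, cx_of_c]
      have h7 := h3 v hv σ hσ
      rw [← h7]
      rfl
    rw [cxt_apply, ← h6, inv_mul_cancel_right]

theorem types_fin3 (hp : p.Prime) (hp2 : MOne p K) (hζ : IsPrimitiveRoot ζ p) (D : RD0 K p ζ)
    (L : LDs D Ω) (Q : DP K Ω) (Dg : GP p m l w N P R) : FTy D Q P ∧ FTy D Q R := by
  have : NeZero p := ⟨hp.ne_zero⟩
  have h1 : FTy D Q (Multiplicative (Fin m → ZMod p)) :=
    hw_types (W := Multiplicative (Fin m → ZMod p)) hp hp2 hζ D L Q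
    (fun w => by
      apply Multiplicative.toAdd.injective
      funext k
      rw [toAdd_pow, toAdd_one, Pi.smul_apply, nsmul_eq_mul, ZMod.natCast_self, zero_mul]
      rfl)
  have h2 : FTy D Q R := cx_types hp hp2 hζ D L Q (gx2 Dg) h1
  exact ⟨cx_types hp hp2 hζ D L Q (gx3 Dg) h2, h2⟩

end H77.S0T
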